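import Pool.Agent.N696.LI.Stm

/-! Project LI: conjugation, coordinates, determinant of the exponential. -/

set_option autoImplicit false
set_option linter.unusedSectionVars false
set_option linter.unusedSimpArgs false
set_option linter.style.haveILetI false

namespace Pool.Agent.N696.LI

open Topology MvPolynomial

/-! ### The determinant of the exponential -/

/-- derivative of the determinant at the identity -/
theorem hasDerivAt_det {k : ℕ} (g : ℝ → Matrix (Fin k) (Fin k) ℝ) (g' : Matrix (Fin k) (Fin k) ℝ)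
    (hg : ∀ i j, HasDerivAt (fun t => g t i j) (g' i j) 0) (h1 : g 0 = 1) :
    HasDerivAt (fun t => (g t).det) g'.trace 0 := by
  have h2 : ∀ σ : Equiv.Perm (Fin k), HasDerivAt (fun t => ∏ i, g t (σ i) i)
      (∑ i, (∏ j ∈ Finset.univ.erase i, g 0 (σ j) j) • g' (σ i) i) 0 := fun σ =>
    HasDerivAt.fun_finsetProd (u := Finset.univ) (f := fun i t => g t (σ i) i)
      (f' := fun i => g' (σ i) i) (fun i _ => hg (σ i) i)
  have h3 : HasDerivAt (fun t => ∑ σ : Equiv.Perm (Fin k),
      ((Equiv.Perm.sign σ : ℤ) : ℝ) * ∏ i, g t (σ i) i)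
      (∑ σ : Equiv.Perm (Fin k), ((Equiv.Perm.sign σ : ℤ) : ℝ) *
        ∑ i, (∏ j ∈ Finset.univ.erase i, g 0 (σ j) j) • g' (σ i) i) 0 :=
    HasDerivAt.fun_sum (fun σ _ => (h2 σ).const_mul _)
  have h4 : (∑ σ : Equiv.Perm (Fin k), ((Equiv.Perm.sign σ : ℤ) : ℝ) *
        ∑ i, (∏ j ∈ Finset.univ.erase i, g 0 (σ j) j) • g' (σ i) i) = g'.trace := by
    rw [Finset.sum_eq_single 1]
    · simp [h1, Matrix.trace]
    · intro σ _ hσ
      rw [Finset.sum_eq_zero, mul_zero]
      intro i _
      have : ∃ j, j ≠ i ∧ σ j ≠ j := by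
        by_contra hcon
        push Not at hcon
        apply hσ
        ext j
        by_cases hj : j = i
        · subst hj
          by_contra hne
          have hne' : σ j ≠ j := fun h => hne (by rw [h]; rfl)
          have := hcon (σ j) hne'
          exact hne' (σ.injective this)
        · rw [hcon j hj]; rfl
      obtain ⟨j, hj, hj'⟩ := this
      rw [Finset.prod_eq_zero (Finset.mem_erase.mpr ⟨hj, Finset.mem_univ j⟩), zero_smul]
      rw [h1, Matrix.one_apply_ne hj']
    · intro h; exact absurd (Finset.mem_univ _) h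
  rw [h4] at h3
  have h5 : (fun t => (g t).det) = fun t => ∑ σ : Equiv.Perm (Fin k),
      ((Equiv.Perm.sign σ : ℤ) : ℝ) * ∏ i, g t (σ i) i := by
    funext t
    rw [Matrix.det_apply']
  rw [h5]
  exact h3

section
attribute [local instance] Matrix.linftyOpNormedRing Matrix.linftyOpNormedAlgebra

lemma exp_entry {n : ℕ} (X : Mat n) (i j : Fin n) :
    HasDerivAt (fun t : ℝ => NormedSpace.exp (t • X) i j) (X i j) 0 := by
  have h := hasDerivAt_exp_smul_const X (0 : ℝ)
  rw [zero_smul, NormedSpace.exp_zero, one_mul] at h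
  exact (LinearMap.toContinuousLinearMap
    (Matrix.entryLinearMap ℝ ℝ i j)).hasFDerivAt.comp_hasDerivAt (0 : ℝ) h

end

/-- `det exp = exp tr` -/
lemma det_exp {n : ℕ} (X : Mat n) : (NormedSpace.exp X).det = Real.exp X.trace := by
  set f : ℝ → ℝ := fun t => (NormedSpace.exp (t • X)).det with hf
  have hf0 : f 0 = 1 := by simp [hf]
  have hd0 : HasDerivAt f X.trace 0 :=
    hasDerivAt_det (fun t => NormedSpace.exp (t • X)) X (fun i j => exp_entry X i j) (by simp)
  have hadd : ∀ s t, f (s + t) = f s * f t := by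
    intro s t
    simp only [hf]
    rw [add_smul, Matrix.exp_add_of_commute _ _
      ((Commute.refl X).smul_left s |>.smul_right t), Matrix.det_mul]
  have hd : ∀ t, HasDerivAt f (f t * X.trace) t := by
    intro t
    have h1 : f = fun s => f t * f (s - t) := by
      funext s
      rw [← hadd]
      congr 1
      ring
    have h3 : HasDerivAt f X.trace (t - t) := by rw [sub_self]; exact hd0
    have h4 : HasDerivAt (fun s => f (s - t)) X.trace t := HasDerivAt.comp_sub_const t t h3
    have h5 := h4.const_mul (f t)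
    rw [← h1] at h5
    exact h5
  have hg : ∀ t, HasDerivAt (fun t => f t * Real.exp (-(t * X.trace))) 0 t := by
    intro t
    have h1 : HasDerivAt (fun t : ℝ => Real.exp (-(t * X.trace)))
        (Real.exp (-(t * X.trace)) * (-(1 * X.trace))) t :=
      (((hasDerivAt_id t).mul_const X.trace).neg).exp
    have h2 := (hd t).mul h1
    have h3 : f t * X.trace * Real.exp (-(t * X.trace)) +
        f t * (Real.exp (-(t * X.trace)) * (-(1 * X.trace))) = 0 := by ring
    rw [h3] at h2
    exact h2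
  have hc := is_const_of_deriv_eq_zero (fun t => (hg t).differentiableAt)
    (fun t => (hg t).deriv) 1 0
  simp only [hf0, one_mul, zero_mul, neg_zero, Real.exp_zero] at hc
  have h1 : f 1 = (NormedSpace.exp X).det := by simp [hf]
  rw [h1] at hc
  have h2 : (NormedSpace.exp X).det * Real.exp (-X.trace) * Real.exp X.trace =
      1 * Real.exp X.trace := by rw [hc]
  rw [mul_assoc, ← Real.exp_add, neg_add_cancel, Real.exp_zero, mul_one, one_mul] at h2
  exact h2

/-! ### Conjugation -/

section Alg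

variable {A : Type} [NormedRing A] [NormedAlgebra ℝ A]

theorem cj_mul (g h : Aˣ) (x : A) : cj (g * h) x = cj g (cj h x) := by
  simp only [cj, mul_inv_rev, Units.val_mul, mul_assoc]

@[simp] theorem cj_one (x : A) : cj (1 : Aˣ) x = x := by simp [cj]

@[simp] theorem cj_inv_cj (g : Aˣ) (x : A) : cj g⁻¹ (cj g x) = x := by
  rw [← cj_mul]; simp

@[simp] theorem cj_cj_inv (g : Aˣ) (x : A) : cj g (cj g⁻¹ x) = x := by
  rw [← cj_mul]; simp

/-- Conjugation as a linear map. -/
def cjL (g : Aˣ) : A →ₗ[ℝ] A where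
  toFun := cj g
  map_add' x y := by simp [cj, mul_add, add_mul]
  map_smul' c x := by simp [cj]

@[simp] theorem cjL_apply (g : Aˣ) (x : A) : cjL g x = cj g x := rfl

theorem cj_smul (g : Aˣ) (c : ℝ) (x : A) : cj g (c • x) = c • cj g x := (cjL g).map_smul c x

theorem cj_add (g : Aˣ) (x y : A) : cj g (x + y) = cj g x + cj g y := (cjL g).map_add x y

theorem cj_br (g : Aˣ) (X Y : A) : cj g (br X Y) = br (cj g X) (cj g Y) := by
  simp only [cj, br, mul_sub, sub_mul]
  congr 1
  · calc (g : A) * (X * Y) * ((g⁻¹ : Aˣ) : A)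
        = (g : A) * X * 1 * (Y * ((g⁻¹ : Aˣ) : A)) := by simp only [mul_assoc, mul_one, one_mul]
      _ = (g : A) * X * (((g⁻¹ : Aˣ) : A) * (g : A)) * (Y * ((g⁻¹ : Aˣ) : A)) := by
          rw [Units.inv_mul]
      _ = _ := by simp only [mul_assoc]
  · calc (g : A) * (Y * X) * ((g⁻¹ : Aˣ) : A)
        = (g : A) * Y * 1 * (X * ((g⁻¹ : Aˣ) : A)) := by simp only [mul_assoc, mul_one, one_mul]
      _ = (g : A) * Y * (((g⁻¹ : Aˣ) : A) * (g : A)) * (X * ((g⁻¹ : Aˣ) : A)) := by
          rw [Units.inv_mul]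
      _ = _ := by simp only [mul_assoc]

theorem adL_apply (X Y : A) : adL X Y = br X Y := rfl

theorem br_add (X Y Z : A) : br X (Y + Z) = br X Y + br X Z := by
  rw [← adL_apply, map_add]; rfl

theorem br_smul (X : A) (c : ℝ) (Y : A) : br X (c • Y) = c • br X Y := by
  rw [← adL_apply, map_smul]; rfl

theorem br_swap (X Y : A) : br X Y = - br Y X := by simp [br]

theorem smul_br (c : ℝ) (X Y : A) : br (c • X) Y = c • br X Y := by
  rw [br_swap, br_smul, br_swap Y X]; simp

variable [FiniteDimensional ℝ A]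

/-- The exponential as a unit. -/
noncomputable def expU (X : A) : Aˣ :=
  haveI : CompleteSpace A := FiniteDimensional.complete ℝ A
  letI : NormedAlgebra ℚ A := NormedAlgebra.restrictScalars ℚ ℝ A
  ⟨NormedSpace.exp X, NormedSpace.exp (-X), by
    rw [← NormedSpace.exp_add_of_commute (Commute.refl X).neg_right, add_neg_cancel,
      NormedSpace.exp_zero], by
    rw [← NormedSpace.exp_add_of_commute (Commute.refl X).neg_left, neg_add_cancel,
      NormedSpace.exp_zero]⟩

@[simp] theorem expU_val (X : A) : ((expU X : Aˣ) : A) = NormedSpace.exp X := rfl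

theorem expU_inv (X : A) : (expU X)⁻¹ = expU (-X) := by
  ext; rfl

theorem expU_mem {𝔤 : Submodule ℝ A} {X : A} (hX : X ∈ 𝔤) : expU X ∈ grp 𝔤 :=
  Subgroup.subset_closure ⟨X, hX, rfl⟩

theorem continuous_expU : Continuous (expU : A → Aˣ) := by
  haveI : CompleteSpace A := FiniteDimensional.complete ℝ A
  letI : NormedAlgebra ℚ A := NormedAlgebra.restrictScalars ℚ ℝ A
  rw [Units.continuous_iff]
  constructor
  · exact NormedSpace.exp_continuous
  · have : (fun X : A => ((((expU X)⁻¹ : Aˣ)) : A)) = fun X => NormedSpace.exp (-X) := rfl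
    rw [show (fun x : A => ↑((expU x)⁻¹)) = fun X => NormedSpace.exp (-X) from rfl]
    exact NormedSpace.exp_continuous.comp continuous_neg

theorem exp_cj (g : Aˣ) (x : A) : NormedSpace.exp (cj g x) = cj g (NormedSpace.exp x) := by
  haveI : CompleteSpace A := FiniteDimensional.complete ℝ A
  letI : NormedAlgebra ℚ A := NormedAlgebra.restrictScalars ℚ ℝ A
  exact NormedSpace.exp_units_conj g x

theorem continuous_cj (x : A) : Continuous (fun g : Aˣ => cj g x) := by
  unfold cj
  exact (Units.continuous_val.mul continuous_const).mul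
    (Units.continuous_val.comp continuous_inv)

theorem coe_repr {S : Submodule ℝ A} {ι : Type} [Fintype ι] (b : Module.Basis ι ℝ S) (x : S) :
    (x : A) = ∑ i, b.repr x i • ((b i : S) : A) := by
  have := congrArg (Subtype.val) (b.sum_repr x)
  rw [Submodule.coe_sum] at this
  exact this.symm

/-! ### Consequences of EXPM -/

theorem cj_mem_of_exp (hexpm : S_expm) (S : Submodule ℝ A) (X : A) (hX : ∀ Y ∈ S, br X Y ∈ S) :
    ∀ Y ∈ S, cj (expU X) Y ∈ S := by
  let b := Module.finBasis ℝ S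
  have h := hexpm A _ (fun i => ((b i : S) : A)) X
    (Matrix.of fun i j => b.repr ⟨br X (b j), hX _ (b j).2⟩ i) (by
      intro j
      exact coe_repr b ⟨br X (b j), hX _ (b j).2⟩) (expU X) rfl
  intro Y hY
  have h3 : Y = ∑ i, b.repr ⟨Y, hY⟩ i • ((b i : S) : A) := coe_repr b ⟨Y, hY⟩
  rw [h3, ← cjL_apply, map_sum]
  refine Submodule.sum_mem _ fun i _ => ?_
  rw [map_smul]
  refine S.smul_mem _ ?_
  rw [cjL_apply, h i]
  exact Submodule.sum_mem _ fun j _ => S.smul_mem _ (b j).2

/-- The group preserves every subspace which is stable under the Lie algebra. -/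
theorem cj_mem (hexpm : S_expm) (𝔤 S : Submodule ℝ A) (hS : ∀ X ∈ 𝔤, ∀ Y ∈ S, br X Y ∈ S) :
    ∀ g ∈ grp 𝔤, ∀ Y ∈ S, cj g Y ∈ S := by
  have key : ∀ g ∈ grp 𝔤, (∀ Y ∈ S, cj g Y ∈ S) ∧ ∀ Y ∈ S, cj g⁻¹ Y ∈ S := by
    intro g hg
    induction hg using Subgroup.closure_induction with
    | mem g hg =>
      obtain ⟨X, hX, he⟩ := hg
      have : g = expU X := Units.ext he
      subst this
      refine ⟨cj_mem_of_exp hexpm S X (hS X hX), ?_⟩
      rw [expU_inv]
      exact cj_mem_of_exp hexpm S (-X) (hS _ (𝔤.neg_mem hX))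
    | one => simp
    | mul g h _ _ ihg ihh =>
      refine ⟨fun Y hY => ?_, fun Y hY => ?_⟩
      · rw [cj_mul]; exact ihg.1 _ (ihh.1 _ hY)
      · rw [mul_inv_rev, cj_mul]; exact ihh.2 _ (ihg.2 _ hY)
    | inv g _ ih => exact ⟨ih.2, by rw [inv_inv]; exact ih.1⟩
  exact fun g hg => (key g hg).1

/-- The determinant of the conjugation is one. -/
theorem det_cj (hexpm : S_expm) (𝔤 : Submodule ℝ A) (hlie : ∀ X ∈ 𝔤, ∀ Y ∈ 𝔤, br X Y ∈ 𝔤)
    (hun : ∀ X ∈ 𝔤, ∀ T : 𝔤 →ₗ[ℝ] 𝔤, (∀ Y, (T Y : A) = br X Y) → LinearMap.trace ℝ 𝔤 T = 0) :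
    ∀ g ∈ grp 𝔤, ∀ C : 𝔤 →ₗ[ℝ] 𝔤, (∀ Y, (C Y : A) = cj g Y) → LinearMap.det C = 1 := by
  have hmem := cj_mem hexpm 𝔤 𝔤 hlie
  intro g hg
  induction hg using Subgroup.closure_induction with
  | mem g hg =>
    obtain ⟨X, hX, he⟩ := hg
    have : g = expU X := Units.ext he
    subst this
    intro C hC
    let b := Module.finBasis ℝ 𝔤
    let T : 𝔤 →ₗ[ℝ] 𝔤 := (adL X).restrict (fun Y hY => hlie X hX Y hY)
    have hT : ∀ Y, (T Y : A) = br X Y := fun Y => rfl
    have h := hexpm A _ (fun i => ((b i : 𝔤) : A)) X (LinearMap.toMatrix b b T) (by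
      intro j
      simp only [LinearMap.toMatrix_apply]
      exact coe_repr b (T (b j))) (expU X) rfl
    have hCm : LinearMap.toMatrix b b C = NormedSpace.exp (LinearMap.toMatrix b b T) := by
      ext i j
      rw [LinearMap.toMatrix_apply]
      have h1 : C (b j) = ∑ i, (NormedSpace.exp (LinearMap.toMatrix b b T)) i j • b i := by
        apply Subtype.ext
        rw [hC, h j]
        simp
      rw [h1, b.repr_sum_self]
    rw [← LinearMap.det_toMatrix b, hCm, det_exp]
    have h2 : (LinearMap.toMatrix b b T).trace = 0 := by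
      have := hun X hX T hT
      rwa [LinearMap.trace_eq_matrix_trace ℝ b] at this
    rw [h2, Real.exp_zero]
  | one =>
    intro C hC
    have : C = LinearMap.id := by
      ext Y; simp [hC]
    rw [this, LinearMap.det_id]
  | mul g h hg hh ihg ihh =>
    intro C hC
    let Cg : 𝔤 →ₗ[ℝ] 𝔤 := (cjL g).restrict (fun Y hY => hmem g hg Y hY)
    let Ch : 𝔤 →ₗ[ℝ] 𝔤 := (cjL h).restrict (fun Y hY => hmem h hh Y hY)
    have h1 : C = Cg ∘ₗ Ch := by
      ext Y
      rw [hC, cj_mul]
      rfl
    rw [h1, LinearMap.det_comp, ihg Cg (fun _ => rfl), ihh Ch (fun _ => rfl), mul_one]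
  | inv g hg ih =>
    intro C hC
    let Cg : 𝔤 →ₗ[ℝ] 𝔤 := (cjL g).restrict (fun Y hY => hmem g hg Y hY)
    have h1 : Cg ∘ₗ C = LinearMap.id := by
      ext Y
      show cj g (C Y) = Y
      rw [hC, cj_cj_inv]
    have h2 := congrArg LinearMap.det h1
    rw [LinearMap.det_comp, ih Cg (fun _ => rfl), one_mul, LinearMap.det_id] at h2
    exact h2

end Alg

/-- A linear map to `ℝ^m` is onto unless a nonzero vector is orthogonal to its range. -/
theorem surj_of_dot {m : ℕ} {E : Type} [AddCommGroup E] [Module ℝ E]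
    (f : E →ₗ[ℝ] (Fin m → ℝ)) (h : ∀ x : Fin m → ℝ, (∀ e, dotProduct (f e) x = 0) → x = 0) :
    ∀ y, ∃ e, y = f e := by
  by_contra hcon
  push Not at hcon
  obtain ⟨y, hy⟩ := hcon
  have hlt : LinearMap.range f ≠ ⊤ := by
    intro htop
    have : y ∈ LinearMap.range f := by rw [htop]; trivial
    obtain ⟨e, he⟩ := this
    exact hy e he.symm
  obtain ⟨φ, hφ, hφ2⟩ := Submodule.exists_le_ker_of_lt_top _ (lt_top_iff_ne_top.2 hlt)
  apply hφ
  have h1 := h (fun i => φ (Pi.single i 1)) (by
    intro e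
    have h2 : φ (f e) = 0 := hφ2 ⟨e, rfl⟩
    have h3 : f e = ∑ i, (f e i) • (Pi.single i (1 : ℝ) : Fin m → ℝ) := by
      funext j
      simp [Finset.sum_apply, Pi.single_apply]
    rw [h3, map_sum] at h2
    simpa [dotProduct, map_smul] using h2)
  refine LinearMap.pi_ext' fun i => ?_
  refine LinearMap.ext_ring ?_
  have := congrFun h1 i
  simpa using this

end Pool.Agent.N696.LI
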