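import Pool.Agent.N696.LI.Red

/-! Project LI: the four cases of the main theorem. -/

set_option autoImplicit false
set_option linter.unusedSectionVars false

namespace Pool.Agent.N696.LI

open Topology MvPolynomial

variable {A : Type} [NormedRing A] [NormedAlgebra ℝ A] [FiniteDimensional ℝ A]
variable {m : ℕ} {𝔤 : Submodule ℝ A} {Γ : Subgroup Aˣ} {v : Submodule ℝ A} {b : Fin m → A}
    {c : A →ₗ[ℝ] (Fin m → ℝ)}

theorem DD_br (hc : Co Γ v b c) (hi : ∀ X ∈ 𝔤, ∀ x ∈ v, br X x ∈ v) (X Y : 𝔤)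
    (h : br (X : A) (Y : A) ∈ 𝔤) :
    DD 𝔤 b c ⟨br (X : A) (Y : A), h⟩ =
      DD 𝔤 b c X * DD 𝔤 b c Y - DD 𝔤 b c Y * DD 𝔤 b c X := by
  have e1 : ∀ Z : 𝔤, DD 𝔤 b c Z = - covM b c (adL (Z : A)) := fun Z => rfl
  have e2 : covM b c (br (br (X : A) (Y : A))) =
      covM b c (adL (Y : A)) * covM b c (adL (X : A)) -
        covM b c (adL (X : A)) * covM b c (adL (Y : A)) := by
    rw [← covM_comp hc (adL (X : A)) (adL (Y : A)) (hi Y Y.2),
      ← covM_comp hc (adL (Y : A)) (adL (X : A)) (hi X X.2)]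
    ext j i
    simp only [covM, Matrix.of_apply, Matrix.sub_apply, adL_apply]
    rw [← Pi.sub_apply, ← map_sub]
    simp only [br]
    noncomm_ring
  rw [e1 X, e1 Y]
  show - covM b c (br (br (X : A) (Y : A))) = _
  rw [e2]
  noncomm_ring

/-! ### Invariant polynomials -/

/-- The index map. -/
def iota (hc : Co Γ v b c) : Fin m → v := fun i => ⟨b i, hc.b_mem i⟩

theorem inv_rename (hc : Co Γ v b c) (T : A → A) (f : MvPolynomial (Fin m) ℝ) :
    Inv v T (rename (iota hc) f) ↔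
      ∀ β : A →ₗ[ℝ] ℝ, eval (fun i => β (T (b i))) f = eval (cov b β) f := by
  unfold Inv
  simp only [eval_rename]
  rfl

theorem inv_rho (hc : Co Γ v b c) (hv : ∀ g ∈ grp 𝔤, ∀ y ∈ v, cj g y ∈ v) (g : grp 𝔤)
    (f : MvPolynomial (Fin m) ℝ) :
    Inv v (cj ((g : Aˣ)⁻¹)) (rename (iota hc) f) ↔
      ∀ ν, eval (((rho hc hv g : (Mat m)ˣ) : Mat m).mulVec ν) f = eval ν f := by
  rw [inv_rename]
  constructor
  · intro h ν
    obtain ⟨β, rfl⟩ := exists_cov hc ν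
    rw [rho_mulVec]
    exact h β
  · intro h β
    have := h (cov b β)
    rw [rho_mulVec] at this
    exact this

/-- Case (c). -/
theorem case_c (hS : Setting 𝔤 Γ v) (hc : Co Γ v b c) (hv : ∀ g ∈ grp 𝔤, ∀ y ∈ v, cj g y ∈ v)
    (h : ∀ f : MvPolynomial v ℝ, (∀ γ ∈ Γ, Inv v (cj γ) f) → ∀ g ∈ grp 𝔤, Inv v (cj g) f) :
    ∀ f : MvPolynomial (Fin m) ℝ,
      (∀ γ ∈ GammaM hc hv, ∀ ν, eval ((γ : Mat m).mulVec ν) f = eval ν f) →
      ∀ g ∈ GG hc hv, ∀ ν, eval ((g : Mat m).mulVec ν) f = eval ν f := by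
  intro f hf
  rintro _ ⟨g, rfl⟩
  rw [← inv_rho]
  refine h _ ?_ _ ((grp 𝔤).inv_mem g.2)
  intro γ hγ
  have h1 := (inv_rho hc hv ⟨γ⁻¹, (grp 𝔤).inv_mem (hS.le hγ)⟩ f).2
    (hf _ ⟨_, Γ.inv_mem hγ, rfl⟩)
  simpa using h1

theorem covM_aeval (hc : Co Γ v b c) (X : A) (hX : ∀ x ∈ v, br X x ∈ v) (p : Polynomial ℝ) :
    covM b c (Polynomial.aeval (adL X) p) = Polynomial.aeval (covM b c (adL X)) p := by
  have hpow : ∀ n : ℕ, ∀ x ∈ v, ((adL X) ^ n) x ∈ v := by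
    intro n
    induction n with
    | zero => intro x hx; simpa using hx
    | succ n ih => intro x hx; rw [pow_succ]; exact ih _ (hX x hx)
  have hn : ∀ n : ℕ, covM b c (((adL X) ^ n : Module.End ℝ A)) = (covM b c (adL X)) ^ n := by
    intro n
    induction n with
    | zero => exact covM_one hc
    | succ n ih =>
      have := covM_comp hc (adL X) (((adL X) ^ n : Module.End ℝ A)) (hpow n)
      rw [pow_succ', pow_succ, ← ih, ← this]
      rfl
  induction p using Polynomial.induction_on' with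
  | add p q hp hq =>
    rw [map_add, map_add, ← hp, ← hq]
    ext j i
    simp [covM]
  | monomial n a =>
    rw [Polynomial.aeval_monomial, Polynomial.aeval_monomial, ← hn n]
    ext j i
    simp [covM, Algebra.algebraMap_eq_smul_one, smul_mul_assoc]

theorem prod_comp_neg (s : List ℝ) : ∃ e : ℝ, e ≠ 0 ∧
    ((s.map (fun a => -a)).map (fun a : ℝ => Polynomial.X - Polynomial.C a)).prod.comp
      (-Polynomial.X) =
    Polynomial.C e * (s.map (fun a : ℝ => Polynomial.X - Polynomial.C a)).prod := by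
  induction s with
  | nil => exact ⟨1, one_ne_zero, by simp⟩
  | cons a s ih =>
    obtain ⟨e, he, h⟩ := ih
    refine ⟨-e, neg_ne_zero.2 he, ?_⟩
    rw [List.map_cons, List.map_cons, List.prod_cons, Polynomial.mul_comp, h, List.map_cons,
      List.prod_cons]
    simp only [Polynomial.sub_comp, Polynomial.X_comp, Polynomial.C_comp]
    rw [Polynomial.C_neg, Polynomial.C_neg]
    ring

/-- Real spectrum in coordinates. -/
theorem real_DD (hc : Co Γ v b c) (hi : ∀ X ∈ 𝔤, ∀ x ∈ v, br X x ∈ v) (X : 𝔤)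
    (h : RealOn v (X : A)) : ∃ s : List ℝ, Polynomial.aeval (DD 𝔤 b c X)
      (s.map fun a => Polynomial.X - Polynomial.C a).prod = 0 := by
  obtain ⟨s, hs⟩ := h
  refine ⟨s.map (fun a => -a), ?_⟩
  have h1 : covM b c (Polynomial.aeval (adL (X : A))
      (s.map fun a => Polynomial.X - Polynomial.C a).prod) = 0 := by
    ext j i
    show c (Polynomial.aeval (adL (X : A))
      (s.map fun a => Polynomial.X - Polynomial.C a).prod (b j)) i = 0
    rw [hs _ (hc.b_mem j), map_zero]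
    rfl
  rw [covM_aeval hc X (hi X X.2)] at h1
  obtain ⟨e, he, hcomp⟩ := prod_comp_neg s
  have h2 : Polynomial.aeval (covM b c (adL (X : A))) (-Polynomial.X : Polynomial ℝ) =
      DD 𝔤 b c X := by
    rw [map_neg, Polynomial.aeval_X]; rfl
  have h3 : Polynomial.aeval (covM b c (adL (X : A)))
      (((s.map (fun a => -a)).map (fun a : ℝ => Polynomial.X - Polynomial.C a)).prod.comp
      (-Polynomial.X)) = 0 := by
    rw [hcomp, map_mul, h1, mul_zero]
  rw [Polynomial.aeval_comp, h2] at h3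
  exact h3

/-- Case (b). -/
theorem case_b (hreal : S_real) (hexpm : S_expm) (hS : Setting 𝔤 Γ v) (hc : Co Γ v b c)
    (hv : ∀ g ∈ grp 𝔤, ∀ y ∈ v, cj g y ∈ v)
    (h : ∀ S : Submodule ℝ A, (∀ X ∈ S, ∀ Y ∈ S, br X Y ∈ S) →
      (∀ X ∈ 𝔤, RealOn v X → X ∈ S) → 𝔤 ≤ S) :
    ∀ f : MvPolynomial (Fin m) ℝ,
      (∀ γ ∈ GammaM hc hv, ∀ ν, eval ((γ : Mat m).mulVec ν) f = eval ν f) →
      ∀ g ∈ GG hc hv, ∀ ν, eval ((g : Mat m).mulVec ν) f = eval ν f := by
  refine hreal m 𝔤 (DD 𝔤 b c) (GG hc hv) (GammaM hc hv) (linGrp hexpm hS hc hv) ?_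
  intro S' hS' hreal' X
  have hcl : ∀ X ∈ (S'.comap (DD 𝔤 b c)).map 𝔤.subtype,
      ∀ Y ∈ (S'.comap (DD 𝔤 b c)).map 𝔤.subtype,
      br X Y ∈ (S'.comap (DD 𝔤 b c)).map 𝔤.subtype := by
    intro X hX Y hY
    rw [Submodule.mem_map] at hX hY ⊢
    obtain ⟨X, hX, rfl⟩ := hX
    obtain ⟨Y, hY, rfl⟩ := hY
    refine ⟨⟨br (X : A) (Y : A), hS.lie _ X.2 _ Y.2⟩, ?_, rfl⟩
    rw [Submodule.mem_comap, DD_br hc hS.v_ideal]
    exact hS' _ hX _ hY
  have hre : ∀ X ∈ 𝔤, RealOn v X → X ∈ (S'.comap (DD 𝔤 b c)).map 𝔤.subtype := by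
    intro X hX hr
    rw [Submodule.mem_map]
    refine ⟨⟨X, hX⟩, ?_, rfl⟩
    rw [Submodule.mem_comap]
    exact hreal' _ (real_DD hc hS.v_ideal ⟨X, hX⟩ hr)
  have hle := h _ hcl hre X.2
  rw [Submodule.mem_map] at hle
  obtain ⟨X', hX', he⟩ := hle
  have : X' = X := Subtype.ext he
  rw [← this]
  exact hX'

/-! ### The self-adjoint case -/

theorem dCond_conj {F : Type} [NormedAddCommGroup F] [NormedSpace ℝ F]
    {D : F →ₗ[ℝ] Mat m} {G Γ : Subgroup (Mat m)ˣ} (hG : LinGrp D G Γ) (g : (Mat m)ˣ) (hg : g ∈ G)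
    (ν : Fin m → ℝ) (h : DCond D ((g : Mat m).mulVec ν)) : DCond D ν := by
  intro x hx hx0 y
  have hgi : ((g⁻¹ : (Mat m)ˣ) : Mat m) * (g : Mat m) = 1 := Units.inv_mul g
  have hgi' : (g : Mat m) * ((g⁻¹ : (Mat m)ˣ) : Mat m) = 1 := Units.mul_inv g
  set P : Mat m := ((g⁻¹ : (Mat m)ˣ) : Mat m) with hP
  have hdot : ∀ w z : Fin m → ℝ, dotProduct w (P.transpose.mulVec z) =
      dotProduct (P.mulVec w) z := by
    intro w z
    rw [Matrix.dotProduct_mulVec, Matrix.vecMul_transpose]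
  have h1 : Reeb D ((g : Mat m).mulVec ν) (P.transpose.mulVec x) := by
    intro Y
    rw [hdot, Matrix.mulVec_mulVec, Matrix.mulVec_mulVec]
    obtain ⟨Z, hZ⟩ := hG.conj g⁻¹ (G.inv_mem hg) Y
    have : P * D Y * (g : Mat m) = D Z := by
      rw [hZ, inv_inv]
    rw [this]
    exact hx Z
  have h2 : dotProduct ((g : Mat m).mulVec ν) (P.transpose.mulVec x) ≠ 0 := by
    rw [hdot, Matrix.mulVec_mulVec, hgi, Matrix.one_mulVec]
    exact hx0
  obtain ⟨X', r, hX⟩ := h _ h1 h2 (P.transpose.mulVec y)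
  obtain ⟨Z, hZ⟩ := hG.conj g⁻¹ (G.inv_mem hg) X'
  refine ⟨Z, r, ?_⟩
  have h3 : (g : Mat m).transpose.mulVec (P.transpose.mulVec y) = y := by
    rw [Matrix.mulVec_mulVec, ← Matrix.transpose_mul, hgi, Matrix.transpose_one,
      Matrix.one_mulVec]
  have h4 : (g : Mat m).transpose.mulVec (P.transpose.mulVec x) = x := by
    rw [Matrix.mulVec_mulVec, ← Matrix.transpose_mul, hgi, Matrix.transpose_one,
      Matrix.one_mulVec]
  rw [← h3, hX, Matrix.mulVec_add, Matrix.mulVec_smul, h4, hZ, inv_inv]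
  congr 1
  rw [Matrix.mulVec_mulVec, Matrix.mulVec_mulVec, Matrix.transpose_mul, Matrix.transpose_mul]
  simp only [mul_assoc]
  rfl

end Pool.Agent.N696.LI
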