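import Pool.Agent.N696.LI.Base

/-! Project LI: coordinates on the ideal `v`, the matrix group of the action on `v*`. -/

set_option autoImplicit false
set_option linter.unusedSectionVars false

namespace Pool.Agent.N696.LI

open Topology MvPolynomial

variable {A : Type} [NormedRing A] [NormedAlgebra ℝ A] [FiniteDimensional ℝ A]

/-- Coordinates on `v` adapted to the lattice. -/
structure Co (Γ : Subgroup Aˣ) (v : Submodule ℝ A) {m : ℕ} (b : Fin m → A)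
    (c : A →ₗ[ℝ] (Fin m → ℝ)) : Prop where
  c_sum : ∀ x : Fin m → ℝ, c (∑ i, x i • b i) = x
  sum_c : ∀ y ∈ v, y = ∑ i, c y i • b i
  b_mem : ∀ i, b i ∈ v
  exp_iff : ∀ x ∈ v, ((∃ γ ∈ Γ, (γ : A) = NormedSpace.exp x) ↔
    ∃ z : Fin m → ℤ, x = ∑ i, (z i : ℝ) • b i)
  pos : 0 < m

theorem exists_co (hlat : S_lat) {𝔤 : Submodule ℝ A} {Γ : Subgroup Aˣ} {v : Submodule ℝ A}
    (hS : Setting 𝔤 Γ v) : ∃ (m : ℕ) (b : Fin m → A) (c : A →ₗ[ℝ] (Fin m → ℝ)), Co Γ v b c := by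
  obtain ⟨m, b, hli, hspan, hexp⟩ := hlat A Γ v hS.discrete hS.v_comm hS.v_lattice
  let φ : (Fin m → ℝ) →ₗ[ℝ] A := Fintype.linearCombination ℝ b
  have hφ : ∀ x : Fin m → ℝ, φ x = ∑ i, x i • b i := fun x => rfl
  have hinj : LinearMap.ker φ = ⊥ := by
    rw [LinearMap.ker_eq_bot]
    exact hli.fintypeLinearCombination_injective
  obtain ⟨c, hc⟩ := LinearMap.exists_leftInverse_of_injective φ hinj
  have hcs : ∀ x : Fin m → ℝ, c (∑ i, x i • b i) = x := by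
    intro x
    rw [← hφ]
    exact LinearMap.congr_fun hc x
  have hmem : ∀ i, b i ∈ v := fun i => hspan ▸ Submodule.subset_span ⟨i, rfl⟩
  refine ⟨m, b, c, hcs, ?_, hmem, hexp, ?_⟩
  · intro y hy
    rw [← hspan] at hy
    obtain ⟨x, hx⟩ := (Submodule.mem_span_range_iff_exists_fun ℝ).1 hy
    rw [← hx, hcs]
  · rcases Nat.eq_zero_or_pos m with h | h
    · exfalso
      apply hS.v_ne
      rw [← hspan]
      subst h
      simp
    · exact h

variable {m : ℕ}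

/-- The matrix of the operator `y ↦ T y` acting on covectors. -/
noncomputable def covM (b : Fin m → A) (c : A →ₗ[ℝ] (Fin m → ℝ)) (T : A → A) : Mat m :=
  Matrix.of fun j i => c (T (b j)) i

/-- The covector with coordinates. -/
noncomputable def cov (b : Fin m → A) (β : A →ₗ[ℝ] ℝ) : Fin m → ℝ := fun i => β (b i)

theorem covM_mulVec {Γ : Subgroup Aˣ} {v : Submodule ℝ A} {b : Fin m → A}
    {c : A →ₗ[ℝ] (Fin m → ℝ)} (hc : Co Γ v b c) (T : A → A) (hT : ∀ y ∈ v, T y ∈ v)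
    (β : A →ₗ[ℝ] ℝ) : (covM b c T).mulVec (cov b β) = fun j => β (T (b j)) := by
  funext j
  conv_rhs => rw [hc.sum_c _ (hT _ (hc.b_mem j)), map_sum]
  simp only [Matrix.mulVec, dotProduct, covM, Matrix.of_apply, cov, map_smul, smul_eq_mul]

theorem exists_cov {Γ : Subgroup Aˣ} {v : Submodule ℝ A} {b : Fin m → A}
    {c : A →ₗ[ℝ] (Fin m → ℝ)} (hc : Co Γ v b c) (ν : Fin m → ℝ) : ∃ β : A →ₗ[ℝ] ℝ, cov b β = ν := by
  refine ⟨(Fintype.linearCombination ℝ ν) ∘ₗ c, ?_⟩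
  funext i
  have h1 : c (b i) = Pi.single i 1 := by
    have := hc.c_sum (Pi.single i 1)
    rw [← this]
    congr 1
    simp [Pi.single_apply]
  simp only [cov, LinearMap.comp_apply, h1, Fintype.linearCombination_apply]
  simp [Pi.single_apply]

theorem covM_comp {Γ : Subgroup Aˣ} {v : Submodule ℝ A} {b : Fin m → A}
    {c : A →ₗ[ℝ] (Fin m → ℝ)} (hc : Co Γ v b c) (T : A →ₗ[ℝ] A) (T' : A → A)
    (hT' : ∀ y ∈ v, T' y ∈ v) :
    covM b c (fun y => T (T' y)) = covM b c T' * covM b c T := by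
  ext j i
  simp only [covM, Matrix.of_apply, Matrix.mul_apply]
  conv_lhs => rw [hc.sum_c _ (hT' _ (hc.b_mem j)), map_sum, map_sum]
  simp [Finset.sum_apply]

/-- The derivative of the action on covectors. -/
noncomputable def DA (b : Fin m → A) (c : A →ₗ[ℝ] (Fin m → ℝ)) : A →ₗ[ℝ] Mat m where
  toFun X := - covM b c (br X)
  map_add' X Y := by
    ext j i
    simp only [covM, Matrix.neg_apply, Matrix.of_apply, Matrix.add_apply]
    have : br (X + Y) (b j) = br X (b j) + br Y (b j) := by simp [br, add_mul, mul_add]; abel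
    rw [this, map_add, Pi.add_apply]; ring
  map_smul' r X := by
    ext j i
    simp only [covM, Matrix.neg_apply, Matrix.of_apply, Matrix.smul_apply, RingHom.id_apply]
    rw [smul_br, map_smul, Pi.smul_apply]; simp

theorem DA_apply (b : Fin m → A) (c : A →ₗ[ℝ] (Fin m → ℝ)) (X : A) :
    DA b c X = - covM b c (br X) := rfl

section Main

variable {𝔤 : Submodule ℝ A} {Γ : Subgroup Aˣ} {v : Submodule ℝ A} {b : Fin m → A}
    {c : A →ₗ[ℝ] (Fin m → ℝ)}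

theorem covM_one (hc : Co Γ v b c) : covM b c (fun y => y) = 1 := by
  ext j i
  have h1 : c (b j) = Pi.single j 1 := by
    have := hc.c_sum (Pi.single j 1)
    rw [← this]
    congr 1
    simp [Pi.single_apply]
  simp only [covM, Matrix.of_apply, h1, Matrix.one_apply, Pi.single_apply]
  simp [eq_comm]

/-- The action on covectors, as a homomorphism to matrices. -/
noncomputable def rho0 (hc : Co Γ v b c) (hv : ∀ g ∈ grp 𝔤, ∀ y ∈ v, cj g y ∈ v) :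
    grp 𝔤 →* Mat m where
  toFun g := covM b c (cj ((g : Aˣ)⁻¹))
  map_one' := by
    have : (cj (((1 : grp 𝔤) : Aˣ)⁻¹) : A → A) = fun y => y := by
      funext y; simp
    rw [this]; exact covM_one hc
  map_mul' g h := by
    have e : (cj ((((g * h : grp 𝔤)) : Aˣ)⁻¹) : A → A) =
        fun y => cjL ((h : Aˣ)⁻¹) (cj ((g : Aˣ)⁻¹) y) := by
      funext y
      rw [Subgroup.coe_mul, mul_inv_rev, cj_mul]
      rfl
    rw [e, covM_comp hc (cjL ((h : Aˣ)⁻¹)) _ (hv _ (grp 𝔤 |>.inv_mem g.2))]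
    rfl

/-- The action on covectors. -/
noncomputable def rho (hc : Co Γ v b c) (hv : ∀ g ∈ grp 𝔤, ∀ y ∈ v, cj g y ∈ v) :
    grp 𝔤 →* (Mat m)ˣ := (rho0 hc hv).toHomUnits

theorem rho_val (hc : Co Γ v b c) (hv : ∀ g ∈ grp 𝔤, ∀ y ∈ v, cj g y ∈ v) (g : grp 𝔤) :
    ((rho hc hv g : (Mat m)ˣ) : Mat m) = covM b c (cj ((g : Aˣ)⁻¹)) := rfl

theorem rho_mulVec (hc : Co Γ v b c) (hv : ∀ g ∈ grp 𝔤, ∀ y ∈ v, cj g y ∈ v) (g : grp 𝔤)
    (β : A →ₗ[ℝ] ℝ) : ((rho hc hv g : (Mat m)ˣ) : Mat m).mulVec (cov b β) =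
      cov b (β ∘ₗ cjL ((g : Aˣ)⁻¹)) := by
  rw [rho_val, covM_mulVec hc _ (hv _ (grp 𝔤 |>.inv_mem g.2))]
  rfl

theorem continuous_rho (hc : Co Γ v b c) (hv : ∀ g ∈ grp 𝔤, ∀ y ∈ v, cj g y ∈ v) :
    Continuous (rho hc hv : grp 𝔤 → (Mat m)ˣ) := by
  have hcc : Continuous c := c.continuous_of_finiteDimensional
  have key : ∀ f : grp 𝔤 → Aˣ, Continuous f → Continuous (fun g => covM b c (cj (f g))) := by
    intro f hf
    refine continuous_matrix fun j i => ?_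
    exact (continuous_apply i).comp (hcc.comp ((continuous_cj (b j)).comp hf))
  rw [Units.continuous_iff]
  constructor
  · exact key _ (continuous_subtype_val.inv)
  · have : (fun g : grp 𝔤 => (((rho hc hv g)⁻¹ : (Mat m)ˣ) : Mat m)) =
        fun g : grp 𝔤 => covM b c (cj (g : Aˣ)) := by
      funext g
      rw [← map_inv, rho_val]
      simp
    exact this ▸ key _ continuous_subtype_val

/-- The matrix group. -/
noncomputable def GG (hc : Co Γ v b c) (hv : ∀ g ∈ grp 𝔤, ∀ y ∈ v, cj g y ∈ v) :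
    Subgroup (Mat m)ˣ := (rho hc hv).range

/-- The integral subgroup. -/
noncomputable def GammaM (hc : Co Γ v b c) (hv : ∀ g ∈ grp 𝔤, ∀ y ∈ v, cj g y ∈ v) :
    Subgroup (Mat m)ˣ := (Γ.subgroupOf (grp 𝔤)).map (rho hc hv)

/-- The derivative restricted to the Lie algebra. -/
noncomputable def DD (𝔤 : Submodule ℝ A) (b : Fin m → A) (c : A →ₗ[ℝ] (Fin m → ℝ)) :
    𝔤 →ₗ[ℝ] Mat m := DA b c ∘ₗ 𝔤.subtype

theorem DD_mulVec (hc : Co Γ v b c) (hS : ∀ X ∈ 𝔤, ∀ x ∈ v, br X x ∈ v) (X : 𝔤) (β : A →ₗ[ℝ] ℝ) :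
    (DD 𝔤 b c X).mulVec (cov b β) = fun j => - β (br X (b j)) := by
  have : DD 𝔤 b c X = - covM b c (br (X : A)) := rfl
  rw [this, Matrix.neg_mulVec, covM_mulVec hc _ (hS X X.2)]
  rfl

theorem rho_exp (hexpm : S_expm) (hc : Co Γ v b c) (hv : ∀ g ∈ grp 𝔤, ∀ y ∈ v, cj g y ∈ v)
    (hS : ∀ X ∈ 𝔤, ∀ x ∈ v, br X x ∈ v) (X : 𝔤) :
    ((rho hc hv ⟨expU (X : A), expU_mem X.2⟩ : (Mat m)ˣ) : Mat m) =
      NormedSpace.exp (DD 𝔤 b c X) := by
  rw [rho_val]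
  have h1 := hexpm A m b (-(X : A)) ((DD 𝔤 b c X).transpose) (by
    intro j
    rw [hc.sum_c (br (-(X : A)) (b j)) (hS _ (𝔤.neg_mem X.2) _ (hc.b_mem j))]
    refine Finset.sum_congr rfl fun i _ => ?_
    congr 1
    show _ = - c (br (X : A) (b j)) i
    have : br (-(X : A)) (b j) = - br (X : A) (b j) := by simp [br]; abel
    rw [this, map_neg]
    rfl) (expU (-(X : A))) rfl
  ext j i
  show c (cj (expU (X : A))⁻¹ (b j)) i = _
  rw [expU_inv, h1 j, hc.c_sum, Matrix.exp_transpose]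
  rfl

theorem linGrp (hexpm : S_expm) (hS : Setting 𝔤 Γ v) (hc : Co Γ v b c)
    (hv : ∀ g ∈ grp 𝔤, ∀ y ∈ v, cj g y ∈ v) : LinGrp (DD 𝔤 b c) (GG hc hv) (GammaM hc hv) := by
  have h𝔤 := cj_mem hexpm 𝔤 𝔤 hS.lie
  refine ⟨?_, ?_, ?_, ?_, ?_, ?_, ?_⟩
  · intro X Y
    refine ⟨⟨br X Y, hS.lie X X.2 Y Y.2⟩, ?_⟩
    have e1 : ∀ Z : 𝔤, DD 𝔤 b c Z = - covM b c (adL (Z : A)) := fun Z => rfl
    have e2 : covM b c (br (br (X : A) (Y : A))) =
        covM b c (adL (Y : A)) * covM b c (adL (X : A)) -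
          covM b c (adL (X : A)) * covM b c (adL (Y : A)) := by
      rw [← covM_comp hc (adL (X : A)) (adL (Y : A)) (hS.v_ideal Y Y.2),
        ← covM_comp hc (adL (Y : A)) (adL (X : A)) (hS.v_ideal X X.2)]
      ext j i
      simp only [covM, Matrix.of_apply, Matrix.sub_apply, adL_apply]
      rw [← Pi.sub_apply, ← map_sub]
      congr 2
      simp only [br]
      noncomm_ring
    rw [e1, e1, e1]
    show - covM b c (br (br (X : A) (Y : A))) = _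
    rw [e2]
    noncomm_ring
  · intro X
    exact ⟨_, ⟨_, rfl⟩, rho_exp hexpm hc hv hS.v_ideal X⟩
  · rintro _ ⟨⟨g, hg⟩, rfl⟩
    induction hg using Subgroup.closure_induction with
    | mem g hg =>
      obtain ⟨X, hX, he⟩ := hg
      have : g = expU X := Units.ext he
      subst this
      exact Subgroup.subset_closure ⟨⟨X, hX⟩, rho_exp hexpm hc hv hS.v_ideal ⟨X, hX⟩⟩
    | one =>
      have : (⟨1, (grp 𝔤).one_mem⟩ : grp 𝔤) = 1 := rfl
      erw [this, map_one]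
      exact Subgroup.one_mem _
    | mul g h hg hh ihg ihh =>
      have : (⟨g * h, (grp 𝔤).mul_mem hg hh⟩ : grp 𝔤) = ⟨g, hg⟩ * ⟨h, hh⟩ := rfl
      erw [this, map_mul]
      exact Subgroup.mul_mem _ ihg ihh
    | inv g hg ih =>
      have : (⟨g⁻¹, (grp 𝔤).inv_mem hg⟩ : grp 𝔤) = ⟨g, hg⟩⁻¹ := rfl
      erw [this, map_inv]
      exact Subgroup.inv_mem _ ih
  · rintro _ ⟨g, rfl⟩ X
    refine ⟨⟨cj (g : Aˣ) X, h𝔤 g g.2 X X.2⟩, ?_⟩
    rw [← map_inv, rho_val, rho_val]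
    have e1 : ∀ Z : 𝔤, DD 𝔤 b c Z = - covM b c (adL (Z : A)) := fun Z => rfl
    rw [e1, e1]
    have hgi : ∀ y ∈ v, cj ((g : Aˣ)⁻¹) y ∈ v := hv _ ((grp 𝔤).inv_mem g.2)
    have e2 : covM b c (adL (cj (g : Aˣ) (X : A))) =
        covM b c (cj ((g : Aˣ)⁻¹)) * covM b c (adL (X : A)) * covM b c (cj (g : Aˣ)) := by
      rw [← covM_comp hc (adL (X : A)) (cj ((g : Aˣ)⁻¹)) hgi]
      have := covM_comp hc (cjL (g : Aˣ)) (fun y => adL (X : A) (cj ((g : Aˣ)⁻¹) y))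
        (fun y hy => hS.v_ideal X X.2 _ (hgi y hy))
      have e3 : covM b c (cjL (g : Aˣ)) = covM b c (cj (g : Aˣ)) := rfl
      rw [e3] at this
      rw [← this]
      congr 1
      funext y
      simp only [adL_apply, cjL_apply]
      rw [cj_br, cj_cj_inv]
    rw [e2]
    simp
  · rintro _ ⟨g, -, rfl⟩
    exact ⟨g, rfl⟩
  · rintro _ ⟨g, hg, rfl⟩ j i
    have hg' : (g : Aˣ) ∈ Γ := hg
    rw [rho_val]
    have h1 : ∃ γ ∈ Γ, (γ : A) = NormedSpace.exp (b j) :=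
      (hc.exp_iff _ (hc.b_mem j)).2 ⟨Pi.single j 1, by simp [Pi.single_apply]⟩
    obtain ⟨γ, hγ, he⟩ := h1
    have h2 : ∃ γ' ∈ Γ, (γ' : A) = NormedSpace.exp (cj ((g : Aˣ)⁻¹) (b j)) := by
      refine ⟨(g : Aˣ)⁻¹ * γ * (g : Aˣ), Γ.mul_mem (Γ.mul_mem (Γ.inv_mem hg') hγ) hg', ?_⟩
      rw [exp_cj, ← he]
      simp [cj]
    obtain ⟨z, hz⟩ := (hc.exp_iff _ (hv _ ((grp 𝔤).inv_mem g.2) _ (hc.b_mem j))).1 h2
    refine ⟨z i, ?_⟩
    show c (cj ((g : Aˣ)⁻¹) (b j)) i = _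
    rw [hz, hc.c_sum]
  · obtain ⟨K, hK, hK2, hK3⟩ := hS.cocompact
    refine ⟨rho hc hv '' (Subtype.val ⁻¹' K), ?_, ?_, ?_⟩
    · refine IsCompact.image ?_ (continuous_rho hc hv)
      rw [Topology.IsInducing.subtypeVal.isCompact_iff]
      convert hK using 1
      exact Set.image_preimage_eq_of_subset (fun k hk => ⟨⟨k, hK2 hk⟩, rfl⟩)
    · rintro _ ⟨k, -, rfl⟩
      exact ⟨k, rfl⟩
    · rintro _ ⟨g, rfl⟩
      obtain ⟨γ, hγ, hk⟩ := hK3 g g.2
      refine ⟨rho hc hv ⟨γ, hS.le hγ⟩, ⟨⟨γ, hS.le hγ⟩, hγ, rfl⟩, ?_⟩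
      refine ⟨⟨γ, hS.le hγ⟩⁻¹ * g, hk, ?_⟩
      rw [map_mul, map_inv]

end Main

end Pool.Agent.N696.LI
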