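import Mathlib

/-! Exponential polynomials with real exponents: they form an algebra closed under primitives, and
the bounded ones are constant. -/

set_option autoImplicit false

namespace Pool.Agent.N696.LI

open Polynomial Filter Topology

/-- `EP f`: the function `f` is a finite sum of functions `t ↦ p (t) * exp (μ t)`. -/
def EP : Submodule ℝ (ℝ → ℝ) :=
  Submodule.span ℝ {f | ∃ (p : ℝ[X]) (μ : ℝ), f = fun t => p.eval t * Real.exp (μ * t)}

theorem EP_term (p : ℝ[X]) (μ : ℝ) : (fun t => p.eval t * Real.exp (μ * t)) ∈ EP :=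
  Submodule.subset_span ⟨p, μ, rfl⟩

theorem EP_const (c : ℝ) : (fun _ => c) ∈ EP := by
  have := EP_term (C c) 0
  simpa using this

theorem EP_mul {f g : ℝ → ℝ} (hf : f ∈ EP) (hg : g ∈ EP) : f * g ∈ EP := by
  induction hf using Submodule.span_induction with
  | mem f hf =>
    obtain ⟨p, μ, rfl⟩ := hf
    induction hg using Submodule.span_induction with
    | mem g hg =>
      obtain ⟨q, ν, rfl⟩ := hg
      have := EP_term (p * q) (μ + ν)
      convert this using 1
      funext t
      simp only [Pi.mul_apply, eval_mul]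
      rw [add_mul, Real.exp_add]; ring
    | zero => rw [mul_zero]; exact EP.zero_mem
    | add g g' _ _ h h' => rw [mul_add]; exact EP.add_mem h h'
    | smul a g _ h => rw [mul_smul_comm]; exact EP.smul_mem a h
  | zero => rw [zero_mul]; exact EP.zero_mem
  | add f f' _ _ h h' => rw [add_mul]; exact EP.add_mem h h'
  | smul a f _ h => rw [smul_mul_assoc]; exact EP.smul_mem a h

/-- Polynomials: every polynomial has a primitive. -/
theorem exists_primitive_poly (p : ℝ[X]) : ∃ P : ℝ[X], derivative P = p := by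
  induction p using Polynomial.induction_on' with
  | add p q hp hq =>
    obtain ⟨P, rfl⟩ := hp
    obtain ⟨Q, rfl⟩ := hq
    exact ⟨P + Q, by simp⟩
  | monomial n a =>
    refine ⟨monomial (n + 1) (a / (n + 1)), ?_⟩
    rw [derivative_monomial]
    simp only [add_tsub_cancel_right]
    congr 1
    push_cast
    field_simp

/-- For `μ ≠ 0` every polynomial is `P' + μ P`. -/
theorem exists_primitive_exp {μ : ℝ} (hμ : μ ≠ 0) (p : ℝ[X]) :
    ∃ P : ℝ[X], derivative P + C μ * P = p := by
  have key : ∀ n : ℕ, ∀ p : ℝ[X], p.natDegree < n → ∃ P : ℝ[X], derivative P + C μ * P = p := by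
    intro n
    induction n with
    | zero => intro p hp; omega
    | succ n ih =>
      intro p hp
      by_cases h0 : p.natDegree = 0
      · obtain ⟨c, rfl⟩ := natDegree_eq_zero.1 h0
        exact ⟨C (c / μ), by simp [← C_mul, mul_div_cancel₀ _ hμ]⟩
      · obtain ⟨P, hP⟩ := ih (derivative p) (lt_of_lt_of_le (natDegree_derivative_lt h0) (by omega))
        refine ⟨C μ⁻¹ * (p - P), ?_⟩
        have e : derivative (C μ⁻¹ * (p - P)) = C μ⁻¹ * (derivative p - derivative P) := by
          simp
        rw [e, ← hP]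
        have : C μ * (C μ⁻¹ * (p - P)) = p - P := by
          rw [← mul_assoc, ← C_mul, mul_inv_cancel₀ hμ]; simp
        rw [this]
        have h2 : C μ⁻¹ * (derivative P + C μ * P - derivative P) = P := by
          rw [add_sub_cancel_left, ← mul_assoc, ← C_mul, inv_mul_cancel₀ hμ]; simp
        rw [h2]; ring
  exact key (p.natDegree + 1) p (Nat.lt_succ_self _)

theorem EP_primitive {g : ℝ → ℝ} (hg : g ∈ EP) :
    ∃ G ∈ EP, ∀ t, HasDerivAt G (g t) t := by
  induction hg using Submodule.span_induction with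
  | mem g hg =>
    obtain ⟨p, μ, rfl⟩ := hg
    by_cases hμ : μ = 0
    · subst hμ
      obtain ⟨P, hP⟩ := exists_primitive_poly p
      refine ⟨fun t => P.eval t * Real.exp (0 * t), EP_term P 0, fun t => ?_⟩
      have h := P.hasDerivAt t
      simp only [zero_mul, Real.exp_zero, mul_one]
      rw [hP] at h
      exact h
    · obtain ⟨P, hP⟩ := exists_primitive_exp hμ p
      refine ⟨fun t => P.eval t * Real.exp (μ * t), EP_term P μ, fun t => ?_⟩
      have h1 := P.hasDerivAt t
      have h2 : HasDerivAt (fun t => Real.exp (μ * t)) (Real.exp (μ * t) * (μ * 1)) t :=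
        ((hasDerivAt_id t).const_mul μ).exp
      refine (h1.mul h2).congr_deriv ?_
      rw [← hP]
      simp only [eval_add, eval_mul, eval_C]
      ring
  | zero => exact ⟨0, EP.zero_mem, fun t => hasDerivAt_const t 0⟩
  | add f f' _ _ h h' =>
    obtain ⟨G, hG, h1⟩ := h
    obtain ⟨G', hG', h2⟩ := h'
    exact ⟨G + G', EP.add_mem hG hG', fun t => (h1 t).add (h2 t)⟩
  | smul a f _ h =>
    obtain ⟨G, hG, h1⟩ := h
    exact ⟨a • G, EP.smul_mem a hG, fun t => (h1 t).const_smul a⟩

/-- Solutions of `f' = a f + g` with `g` an exponential polynomial are exponential polynomials. -/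
theorem EP_ode {f g : ℝ → ℝ} (a : ℝ) (hg : g ∈ EP)
    (hf : ∀ t, HasDerivAt f (a * f t + g t) t) : f ∈ EP := by
  have h1 : (fun t => Real.exp (-a * t)) * g ∈ EP :=
    EP_mul (by simpa using EP_term 1 (-a)) hg
  obtain ⟨G, hG, hG'⟩ := EP_primitive h1
  have h2 : ∀ t, HasDerivAt (fun t => Real.exp (-a * t) * f t - G t) 0 t := by
    intro t
    have e : HasDerivAt (fun t => Real.exp (-a * t)) (Real.exp (-a * t) * (-a * 1)) t :=
      ((hasDerivAt_id t).const_mul (-a)).exp
    refine ((e.mul (hf t)).sub (hG' t)).congr_deriv ?_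
    simp only [Pi.mul_apply]; ring
  have h3 : ∀ t, Real.exp (-a * t) * f t - G t = Real.exp (-a * 0) * f 0 - G 0 := by
    intro t
    exact is_const_of_deriv_eq_zero (fun t => (h2 t).differentiableAt)
      (fun t => (h2 t).deriv) t 0
  have h4 : f = (fun t => Real.exp (a * t)) * (G + fun _ => (f 0 - G 0)) := by
    funext t
    have h := h3 t
    simp only [mul_zero, Real.exp_zero, one_mul] at h
    simp only [Pi.mul_apply, Pi.add_apply]
    have h5 : Real.exp (a * t) * Real.exp (-a * t) = 1 := by
      rw [← Real.exp_add]; simp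
    calc f t = Real.exp (a * t) * (Real.exp (-a * t) * f t) := by rw [← mul_assoc, h5, one_mul]
      _ = Real.exp (a * t) * (G t + (f 0 - G 0)) := by rw [← h]; ring
  rw [h4]
  exact EP_mul (by simpa using EP_term 1 a) (EP.add_mem hG (EP_const _))

/-! ### Bounded exponential polynomials -/

theorem EP_repr {f : ℝ → ℝ} (hf : f ∈ EP) :
    ∃ (S : Finset ℝ) (p : ℝ → ℝ[X]), ∀ t, f t = ∑ μ ∈ S, (p μ).eval t * Real.exp (μ * t) := by
  classical
  induction hf using Submodule.span_induction with
  | mem f hf =>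
    obtain ⟨p, μ, rfl⟩ := hf
    exact ⟨{μ}, fun _ => p, fun t => by simp⟩
  | zero => exact ⟨∅, 0, fun t => by simp⟩
  | add f f' _ _ h h' =>
    obtain ⟨S, p, h1⟩ := h
    obtain ⟨S', p', h2⟩ := h'
    refine ⟨S ∪ S', fun μ => (if μ ∈ S then p μ else 0) + (if μ ∈ S' then p' μ else 0),
      fun t => ?_⟩
    simp only [Pi.add_apply, eval_add, add_mul, Finset.sum_add_distrib]
    rw [h1, h2]
    congr 1
    · rw [← Finset.sum_subset (Finset.subset_union_left (s₁ := S) (s₂ := S'))]
      · refine Finset.sum_congr rfl fun μ hμ => by rw [if_pos hμ]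
      · intro μ _ hμ; rw [if_neg hμ]; simp
    · rw [← Finset.sum_subset (Finset.subset_union_right (s₁ := S) (s₂ := S'))]
      · refine Finset.sum_congr rfl fun μ hμ => by rw [if_pos hμ]
      · intro μ _ hμ; rw [if_neg hμ]; simp
  | smul a f _ h =>
    obtain ⟨S, p, h1⟩ := h
    refine ⟨S, fun μ => C a * p μ, fun t => ?_⟩
    simp only [Pi.smul_apply, smul_eq_mul, eval_mul, eval_C]
    rw [h1, Finset.mul_sum]
    refine Finset.sum_congr rfl fun μ _ => by ring

/-- A polynomial times a decaying exponential tends to zero. -/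
theorem tendsto_poly_exp (p : ℝ[X]) {c : ℝ} (hc : c < 0) :
    Tendsto (fun t => p.eval t * Real.exp (c * t)) atTop (𝓝 0) := by
  induction p using Polynomial.induction_on' with
  | add p q hp hq =>
    have := hp.add hq
    simpa [add_mul] using this
  | monomial n a =>
    have h := Real.tendsto_pow_mul_exp_neg_atTop_nhds_zero n
    have h1 : Tendsto (fun t : ℝ => (-c) * t) atTop atTop :=
      tendsto_id.const_mul_atTop (by linarith)
    have h2 := h.comp h1
    have h3 := h2.const_mul (a / (-c) ^ n)
    rw [mul_zero] at h3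
    refine h3.congr fun t => ?_
    simp only [Function.comp, eval_monomial]
    have : (-c) ^ n ≠ 0 := pow_ne_zero _ (by linarith)
    rw [mul_pow]
    field_simp

theorem bounded_pos (S : Finset ℝ) (p : ℝ → ℝ[X]) (B : ℝ)
    (h : ∀ t, |∑ μ ∈ S, (p μ).eval t * Real.exp (μ * t)| ≤ B) :
    ∀ μ ∈ S, 0 < μ → p μ = 0 := by
  classical
  induction S using Finset.strongInduction generalizing p with
  | H S ih =>
  intro μ hμ hpos
  -- the largest exponent
  obtain ⟨M, hM, hmax⟩ := S.exists_max_image id ⟨μ, hμ⟩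
  simp only [id] at hmax
  have hMpos : 0 < M := lt_of_lt_of_le hpos (hmax μ hμ)
  have hsplit : ∀ t, ∑ μ ∈ S, (p μ).eval t * Real.exp (μ * t) =
      (p M).eval t * Real.exp (M * t) +
        ∑ μ ∈ S.erase M, (p μ).eval t * Real.exp (μ * t) := fun t =>
    (Finset.add_sum_erase S _ hM).symm
  have hlim : Tendsto (fun t => (p M).eval t) atTop (𝓝 0) := by
    have h1 : Tendsto (fun t => (∑ μ ∈ S, (p μ).eval t * Real.exp (μ * t)) *
        Real.exp (-M * t)) atTop (𝓝 0) := by
      have hb : Tendsto (fun t => B * Real.exp (-M * t)) atTop (𝓝 0) := by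
        have := tendsto_poly_exp (C B) (c := -M) (by linarith)
        simpa using this
      refine squeeze_zero_norm (fun t => ?_) hb
      rw [Real.norm_eq_abs, abs_mul, abs_of_pos (Real.exp_pos _)]
      exact mul_le_mul_of_nonneg_right (h t) (Real.exp_pos _).le
    have h2 : Tendsto (fun t => ∑ μ ∈ S.erase M, (p μ).eval t * Real.exp ((μ - M) * t)) atTop
        (𝓝 0) := by
      have : Tendsto (fun t => ∑ μ ∈ S.erase M, (p μ).eval t * Real.exp ((μ - M) * t)) atTop
          (𝓝 (∑ μ ∈ S.erase M, (0:ℝ))) := by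
        refine tendsto_finsetSum _ fun μ hμ => tendsto_poly_exp _ ?_
        have h3 := Finset.mem_erase.1 hμ
        have := lt_of_le_of_ne (hmax μ h3.2) h3.1
        linarith
      simpa using this
    have h3 := h1.sub h2
    rw [sub_zero] at h3
    refine h3.congr fun t => ?_
    rw [hsplit, add_mul, Finset.sum_mul]
    have e1 : Real.exp (M * t) * Real.exp (-M * t) = 1 := by rw [← Real.exp_add]; simp
    have e2 : ∀ μ ∈ S.erase M, (p μ).eval t * Real.exp (μ * t) * Real.exp (-M * t) =
        (p μ).eval t * Real.exp ((μ - M) * t) := by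
      intro μ _
      rw [mul_assoc, ← Real.exp_add]; congr 2; ring
    rw [Finset.sum_congr rfl e2, mul_assoc, e1]
    ring
  have hz : p M = 0 := by
    rw [Polynomial.tendsto_nhds_iff] at hlim
    exact leadingCoeff_eq_zero.1 hlim.1
  by_cases hμM : μ = M
  · rw [hμM]; exact hz
  · have h4 : ∀ t, |∑ μ ∈ S.erase M, (p μ).eval t * Real.exp (μ * t)| ≤ B := by
      intro t
      have := h t
      rw [hsplit, hz] at this
      simpa using this
    exact ih (S.erase M) (Finset.erase_ssubset hM) p h4 μ (Finset.mem_erase.2 ⟨hμM, hμ⟩) hpos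

/-- Bounded exponential polynomials with real exponents are constant. -/
theorem EP_bounded {f : ℝ → ℝ} (hf : f ∈ EP) (B : ℝ) (hB : ∀ t, |f t| ≤ B) :
    ∃ c, ∀ t, f t = c := by
  classical
  obtain ⟨S, p, h⟩ := EP_repr hf
  have h1 : ∀ μ ∈ S, 0 < μ → p μ = 0 := bounded_pos S p B fun t => by rw [← h]; exact hB t
  -- reflect
  have h2 : ∀ μ ∈ S, μ < 0 → p μ = 0 := by
    have hr := bounded_pos (S.image (fun μ => -μ)) (fun μ => (p (-μ)).comp (-X)) B (by
      intro t
      have : ∑ μ ∈ S.image (fun μ => -μ), ((p (-μ)).comp (-X)).eval t * Real.exp (μ * t) =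
          f (-t) := by
        rw [Finset.sum_image (fun a _ b _ hab => neg_injective hab), h]
        refine Finset.sum_congr rfl fun μ _ => ?_
        simp only [eval_comp, eval_neg, eval_X, neg_neg]
        congr 2; ring
      rw [this]; exact hB (-t))
    intro μ hμ hneg
    have := hr (-μ) (Finset.mem_image_of_mem _ hμ) (by linarith)
    simp only [neg_neg] at this
    have h3 := congrArg (fun q => q.comp (-X)) this
    simp only [zero_comp, comp_assoc] at h3
    simpa using h3
  -- only the exponent zero remains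
  have h3 : ∀ t, f t = (if (0:ℝ) ∈ S then p 0 else 0).eval t := by
    intro t
    rw [h]
    by_cases h0 : (0:ℝ) ∈ S
    · rw [if_pos h0, ← Finset.add_sum_erase S _ h0]
      have : ∑ μ ∈ S.erase 0, (p μ).eval t * Real.exp (μ * t) = 0 := by
        refine Finset.sum_eq_zero fun μ hμ => ?_
        have h4 := Finset.mem_erase.1 hμ
        rcases lt_or_gt_of_ne h4.1 with h5 | h5
        · rw [h2 μ h4.2 h5]; simp
        · rw [h1 μ h4.2 h5]; simp
      rw [this]; simp
    · rw [if_neg h0]
      simp only [eval_zero]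
      refine Finset.sum_eq_zero fun μ hμ => ?_
      have h4 : μ ≠ 0 := fun e => h0 (e ▸ hμ)
      rcases lt_or_gt_of_ne h4 with h5 | h5
      · rw [h2 μ hμ h5]; simp
      · rw [h1 μ hμ h5]; simp
  set P := (if (0:ℝ) ∈ S then p 0 else 0) with hP
  have h4 : P.degree ≤ 0 := by
    rw [← Polynomial.isBoundedUnder_abs_atTop_iff]
    exact isBoundedUnder_of ⟨B, fun t => by rw [← h3]; exact hB t⟩
  obtain ⟨c, hc⟩ : ∃ c, P = C c := ⟨_, eq_C_of_degree_le_zero h4⟩
  exact ⟨c, fun t => by rw [h3, hc]; simp⟩

end Pool.Agent.N696.LI
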