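import Pool.Agent.N696.LI.SACase

/-! Project LI: the commutative case and the main theorem, from the parts. -/

set_option autoImplicit false
set_option linter.unusedSectionVars false

namespace Pool.Agent.N696.LI

open Topology MvPolynomial

variable {A : Type} [NormedRing A] [NormedAlgebra ℝ A] [FiniteDimensional ℝ A]
variable {m : ℕ} {𝔤 : Submodule ℝ A} {Γ : Subgroup Aˣ} {v : Submodule ℝ A} {b : Fin m → A}
    {c : A →ₗ[ℝ] (Fin m → ℝ)}

/-- A minimal ideal meeting the lattice. -/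
theorem exists_min (hS : Setting 𝔤 Γ v) : ∃ u : Submodule ℝ A, Setting 𝔤 Γ u ∧ u ≤ v ∧
    ∀ u' : Submodule ℝ A, Setting 𝔤 Γ u' → u' ≤ u → u' = u := by
  classical
  have hex : ∃ n : ℕ, ∃ u : Submodule ℝ A, Setting 𝔤 Γ u ∧ u ≤ v ∧ Module.finrank ℝ u = n :=
    ⟨_, v, hS, le_refl v, rfl⟩
  obtain ⟨u, hu, huv, hn⟩ := Nat.find_spec hex
  refine ⟨u, hu, huv, fun u' hu' hle => ?_⟩
  by_contra hne
  have hlt : Module.finrank ℝ u' < Module.finrank ℝ u :=
    Submodule.finrank_lt_finrank_of_lt (lt_of_le_of_ne hle hne)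
  rw [hn] at hlt
  exact Nat.find_min hex hlt ⟨u', hu', hle.trans huv, rfl⟩

theorem coe_sum_c (hc : Co Γ v b c) (y : A) (hy : y ∈ v) :
    Fintype.linearCombination ℝ b (c y) = y := (hc.sum_c y hy).symm

/-- The kernel of a rational matrix commuting with the action is again a setting. -/
theorem nonil (hker : S_ker) (hS : Setting 𝔤 Γ v) (hc : Co Γ v b c)
    (hmin : ∀ u' : Submodule ℝ A, Setting 𝔤 Γ u' → u' ≤ v → u' = v) (M : Mat m)
    (hq : ∀ i j, ∃ q : ℚ, M i j = q) (hcomm : ∀ X, M * DD 𝔤 b c X = DD 𝔤 b c X * M)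
    (hnil : IsNilpotent M) : M = 0 := by
  classical
  let φ : (Fin m → ℝ) →ₗ[ℝ] A := Fintype.linearCombination ℝ b
  have hφ : ∀ x : Fin m → ℝ, φ x = ∑ i, x i • b i := fun x => rfl
  let κ : A →ₗ[ℝ] (Fin m → ℝ) := M.transpose.mulVecLin ∘ₗ c
  have hκ : ∀ y, κ y = M.transpose.mulVec (c y) := fun y => rfl
  let u : Submodule ℝ A := v ⊓ LinearMap.ker κ
  have huv : u ≤ v := inf_le_left
  have hkv : ∀ y ∈ u, M.transpose.mulVec (c y) = 0 := fun y hy => (Submodule.mem_inf.1 hy).2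
  have hmk : ∀ y ∈ v, M.transpose.mulVec (c y) = 0 → y ∈ u := fun y hy h =>
    Submodule.mem_inf.2 ⟨hy, h⟩
  -- a rational matrix
  choose q hq using hq
  let Mq : Matrix (Fin m) (Fin m) ℚ := Matrix.of fun i j => q j i
  have hMq : Mq.map (fun q : ℚ => (q : ℝ)) = M.transpose := by
    ext i j
    simp only [Mq, Matrix.map_apply, Matrix.of_apply, Matrix.transpose_apply]
    exact (hq j i).symm
  -- nonzero
  have hune : u ≠ ⊥ := by
    obtain ⟨k, hk⟩ := hnil
    have hdet : M.transpose.det = 0 := by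
      have h1 : (M.transpose.det) ^ k = 0 := by
        rw [← Matrix.det_pow, ← Matrix.transpose_pow, hk, Matrix.transpose_zero]
        have : Nonempty (Fin m) := ⟨⟨0, hc.pos⟩⟩
        exact Matrix.det_zero
      by_contra hne
      exact pow_ne_zero k hne h1
    obtain ⟨w, hw, hMw⟩ := Matrix.exists_mulVec_eq_zero_iff.2 hdet
    intro hbot
    have h2 : φ w ∈ u := hmk _ (sum_mem_v hc w) (by rw [hφ, hc.c_sum]; exact hMw)
    rw [hbot, Submodule.mem_bot] at h2
    apply hw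
    have := hc.c_sum w
    rw [← hφ, h2, map_zero] at this
    exact this.symm
  -- ideal
  have hid : ∀ X ∈ 𝔤, ∀ x ∈ u, br X x ∈ u := by
    intro X hX x hx
    refine hmk _ (hS.v_ideal X hX x (huv hx)) ?_
    have h1 : c (br X x) = (-(DD 𝔤 b c ⟨X, hX⟩).transpose).mulVec (c x) := by
      have hN : ∀ j i, (DD 𝔤 b c ⟨X, hX⟩) j i = - c (br X (b j)) i := fun j i => rfl
      generalize DD 𝔤 b c ⟨X, hX⟩ = N at hN ⊢
      conv_lhs => rw [hc.sum_c x (huv hx), ← adL_apply, map_sum, map_sum]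
      funext i
      rw [Finset.sum_apply, Matrix.neg_mulVec, Pi.neg_apply]
      simp only [Matrix.mulVec, dotProduct, Matrix.transpose_apply]
      rw [← Finset.sum_neg_distrib]
      refine Finset.sum_congr rfl fun j _ => ?_
      rw [map_smul, map_smul, adL_apply, hN, Pi.smul_apply, smul_eq_mul]
      ring
    rw [h1, Matrix.mulVec_mulVec]
    have h2 : M.transpose * -(DD 𝔤 b c ⟨X, hX⟩).transpose =
        -(DD 𝔤 b c ⟨X, hX⟩).transpose * M.transpose := by
      rw [mul_neg, neg_mul, ← Matrix.transpose_mul, ← Matrix.transpose_mul, hcomm]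
    rw [h2, ← Matrix.mulVec_mulVec, hkv x hx, Matrix.mulVec_zero]
  -- lattice
  have hlat : u ≤ Submodule.span ℝ {x | x ∈ u ∧ ∃ γ ∈ Γ, (γ : A) = NormedSpace.exp x} := by
    intro x hx
    have h1 := hker m m Mq (c x) (by rw [hMq]; exact hkv x hx)
    have h2 : φ (c x) ∈ Submodule.map φ (Submodule.span ℝ {y : Fin m → ℝ |
        ∃ z : Fin m → ℚ, Mq.mulVec z = 0 ∧ y = fun i => (z i : ℝ)}) :=
      Submodule.mem_map_of_mem h1
    rw [coe_sum_c hc x (huv hx), Submodule.map_span] at h2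
    refine Submodule.span_le.2 ?_ h2
    rintro _ ⟨_, ⟨z, hz, rfl⟩, rfl⟩
    obtain ⟨N, w, hN, hw⟩ := exists_int_mul z
    have hN' : (N : ℝ) ≠ 0 := by exact_mod_cast hN.ne'
    have h3 : φ (fun i => (z i : ℝ)) ∈ u := by
      refine hmk _ (sum_mem_v hc _) ?_
      rw [hφ, hc.c_sum, ← hMq]
      funext i
      have := congrFun hz i
      simp only [Matrix.mulVec, dotProduct, Pi.zero_apply, Matrix.map_apply] at this ⊢
      exact_mod_cast this
    have h4 : (N : ℝ) • φ (fun i => (z i : ℝ)) ∈ Submodule.span ℝ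
        {x | x ∈ u ∧ ∃ γ ∈ Γ, (γ : A) = NormedSpace.exp x} := by
      refine Submodule.subset_span ⟨u.smul_mem _ h3, ?_⟩
      refine (hc.exp_iff _ (v.smul_mem _ (huv h3))).2 ⟨w, ?_⟩
      rw [hφ, Finset.smul_sum]
      refine Finset.sum_congr rfl fun i _ => ?_
      rw [smul_smul, hw]
    have h5 := Submodule.smul_mem _ ((N : ℝ)⁻¹) h4
    rw [smul_smul, inv_mul_cancel₀ hN', one_smul] at h5
    exact h5
  have hSu : Setting 𝔤 Γ u :=
    { lie := hS.lie
      unimodular := hS.unimodular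
      le := hS.le
      discrete := hS.discrete
      cocompact := hS.cocompact
      v_le := huv.trans hS.v_le
      v_ne := hune
      v_comm := fun x hx y hy => hS.v_comm x (huv hx) y (huv hy)
      v_ideal := hid
      v_lattice := hlat }
  have huv' := hmin u hSu huv
  -- so the matrix vanishes
  have h6 : M.transpose = 0 := by
    ext i j
    have h7 : b j ∈ u := by rw [huv']; exact hc.b_mem j
    have h8 := hkv _ h7
    have hcj : c (b j) = Pi.single j 1 := by
      have := hc.c_sum (Pi.single j 1)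
      rw [← this]
      congr 1
      simp [Pi.single_apply]
    rw [hcj, Matrix.mulVec_single_one] at h8
    have := congrFun h8 i
    simpa using this
  rw [← Matrix.transpose_transpose M, h6, Matrix.transpose_zero]

/-- The main theorem from the parts. -/
theorem main_of_parts (hexpm : S_expm) (hlat : S_lat) (hnoop : S_noop) (hpoly2 : S_poly2)
    (hker : S_ker) (htrf : S_trf) (hbdd : S_bdd) (halg : S_alg) (hminv : S_minv)
    (hhess : S_hess) (hdc : S_dc) (hreal : S_real) (hrc : S_rc) : S_main := by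
  intro A _ _ _ 𝔤 Γ v hS α ξ hα hcase
  rcases hcase with ha | ⟨B, hsym, hpos, hB⟩ | hb | hcc
  · obtain ⟨u, hu, huv, hmin⟩ := exists_min hS
    obtain ⟨m, b, c, hc⟩ := exists_co hlat hu
    have hv := cj_mem hexpm 𝔤 u hu.v_ideal
    obtain ⟨d, Q, hQ, hQ2⟩ := exists_linPoly hexpm hnoop hpoly2 hu hc hv α ξ hα
    have hL := linGrp hexpm hu hc hv
    have hcm : ∀ X Y : 𝔤, DD 𝔤 b c X * DD 𝔤 b c Y = DD 𝔤 b c Y * DD 𝔤 b c X := by
      intro X Y
      have h1 := DD_br hc hu.v_ideal X Y (hu.lie X X.2 Y Y.2)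
      have h2 : DD 𝔤 b c ⟨br (X : A) (Y : A), hu.lie X X.2 Y Y.2⟩ = 0 := by
        ext j i
        show - c (br (br (X : A) (Y : A)) (b j)) i = 0
        rw [ha X X.2 Y Y.2 (b j) (huv (hc.b_mem j)), map_zero]
        simp
      rw [h2] at h1
      exact sub_eq_zero.1 h1.symm
    have ht := htrf m 𝔤 (DD 𝔤 b c) (GG hc hv) (GammaM hc hv) hL hcm
      (fun M hq hM hn => nonil hker hu hc hmin M hq hM hn)
    have hn := hbdd m 𝔤 (DD 𝔤 b c) (GG hc hv) (GammaM hc hv) hL hcm ht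
    have hD := halg m 𝔤 (DD 𝔤 b c) (GG hc hv) d Q hQ hL.exp_mem hcm hn
    exact main_of_ratDense hexpm hu hc hv α ξ hα d Q hQ hQ2
      (hdc m 𝔤 (DD 𝔤 b c) (GG hc hv) (GammaM hc hv) d Q hL hQ hD)
  · obtain ⟨m, b, c, hc⟩ := exists_co hlat hS
    have hv := cj_mem hexpm 𝔤 v hS.v_ideal
    obtain ⟨d, Q, hQ, hQ2⟩ := exists_linPoly hexpm hnoop hpoly2 hS hc hv α ξ hα
    have hL := linGrp hexpm hS hc hv
    have hD := case_a' hhess hminv hexpm hS hc hv d Q hQ B hsym hpos hB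
    exact main_of_ratDense hexpm hS hc hv α ξ hα d Q hQ hQ2
      (hdc m 𝔤 (DD 𝔤 b c) (GG hc hv) (GammaM hc hv) d Q hL hQ hD)
  · obtain ⟨m, b, c, hc⟩ := exists_co hlat hS
    have hv := cj_mem hexpm 𝔤 v hS.v_ideal
    obtain ⟨d, Q, hQ, hQ2⟩ := exists_linPoly hexpm hnoop hpoly2 hS hc hv α ξ hα
    have hL := linGrp hexpm hS hc hv
    exact main_of_ratDense hexpm hS hc hv α ξ hα d Q hQ hQ2
      (hrc m 𝔤 (DD 𝔤 b c) (GG hc hv) (GammaM hc hv) d Q hL hQ
        (case_b hreal hexpm hS hc hv hb))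
  · obtain ⟨m, b, c, hc⟩ := exists_co hlat hS
    have hv := cj_mem hexpm 𝔤 v hS.v_ideal
    obtain ⟨d, Q, hQ, hQ2⟩ := exists_linPoly hexpm hnoop hpoly2 hS hc hv α ξ hα
    have hL := linGrp hexpm hS hc hv
    exact main_of_ratDense hexpm hS hc hv α ξ hα d Q hQ hQ2
      (hrc m 𝔤 (DD 𝔤 b c) (GG hc hv) (GammaM hc hv) d Q hL hQ
        (case_c hS hc hv hcc))

end Pool.Agent.N696.LI
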