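import Pool.Agent.N696.LI.Stm

/-!
# LI/ALG: the orbit of the Reeb vector is open in the commutative case (helper700)

If the orbit were not open there would be a nonzero ideal of the commutative algebra spanned by the
operators and `1` which is contained in the range of `D`. It contains a nonzero idempotent `e`, and
`exp (t e) = 1 + (exp t - 1) e`, so the polynomial does not vanish at `(1 - e) ν`, a contradiction.
-/

set_option autoImplicit false

namespace Pool.Agent.N696.LI.Alg

open Topology MvPolynomial Filter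

section Idem

attribute [local instance] Matrix.linftyOpNormedRing Matrix.linftyOpNormedAlgebra

/-- the exponential of a multiple of an idempotent matrix -/
lemma exp_idem {m : ℕ} (E : Mat m) (hE : E * E = E) (t : ℝ) :
    NormedSpace.exp (t • E) = 1 + (Real.exp t - 1) • E := by
  have hpow : ∀ n : ℕ, E ^ (n + 1) = E := by
    intro n
    induction n with
    | zero => rw [zero_add, pow_one]
    | succ n ih => rw [pow_succ, ih, hE]
  have h1 : HasSum (fun n : ℕ => ((n.factorial : ℝ)⁻¹) • (t • E) ^ n) (NormedSpace.exp (t • E)) :=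
    NormedSpace.exp_series_hasSum_exp' (𝕂 := ℝ) (t • E)
  have h2 : HasSum (fun n : ℕ => (((n.factorial : ℝ)⁻¹) • t ^ n) • E) (NormedSpace.exp t • E) :=
    (NormedSpace.exp_series_hasSum_exp' (𝕂 := ℝ) t).smul_const E
  have h3 : HasSum (fun n : ℕ => if n = 0 then (1 - E) else 0) (1 - E) := hasSum_ite_eq 0 (1 - E)
  have h4 := h2.add h3
  have h5 : (fun n : ℕ => ((n.factorial : ℝ)⁻¹) • (t • E) ^ n) = fun n : ℕ =>
      (((n.factorial : ℝ)⁻¹) • t ^ n) • E + if n = 0 then (1 - E) else 0 := by
    funext n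
    rcases n with _ | n
    · simp
    · rw [if_neg (Nat.succ_ne_zero n), add_zero, smul_pow, hpow, smul_smul, smul_eq_mul]
  rw [h5] at h1
  have h6 := h1.unique h4
  rw [h6, ← Real.exp_eq_exp_ℝ, sub_smul, one_smul]
  abel

end Idem

/-- a matrix which is not nilpotent has a polynomial which is a nonzero idempotent -/
lemma exists_idem {m : ℕ} (b : Mat m) (hb : ¬ IsNilpotent b) : ∃ u : Polynomial ℝ,
    (Polynomial.aeval b u * b) * (Polynomial.aeval b u * b) = Polynomial.aeval b u * b ∧
      Polynomial.aeval b u * b ≠ 0 := by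
  have hq0 : b.charpoly ≠ 0 := (Matrix.charpoly_monic b).ne_zero
  obtain ⟨p, hqp, hp⟩ := Polynomial.exists_eq_pow_rootMultiplicity_mul_and_not_dvd b.charpoly hq0 0
  rw [Polynomial.C_0, sub_zero] at hqp hp
  set k := Polynomial.rootMultiplicity 0 b.charpoly
  have hcop : IsCoprime ((Polynomial.X : Polynomial ℝ) ^ (k + 1)) p :=
    (Polynomial.irreducible_X.coprime_iff_not_dvd.2 hp).pow_left
  obtain ⟨u, v, huv⟩ := hcop
  have hm : ∀ f g : Polynomial ℝ, Polynomial.aeval b (f * g) =
      Polynomial.aeval b f * Polynomial.aeval b g := fun f g => map_mul _ f g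
  have h0 : Polynomial.aeval b (Polynomial.X ^ k * p) = 0 := by
    rw [← hqp]
    exact Matrix.aeval_self_charpoly b
  have he : Polynomial.aeval b (u * Polynomial.X ^ k) * b =
      Polynomial.aeval b (u * Polynomial.X ^ (k + 1)) := by
    rw [pow_succ, ← mul_assoc, map_mul (Polynomial.aeval b) (u * Polynomial.X ^ k) Polynomial.X,
      Polynomial.aeval_X]
  refine ⟨u * Polynomial.X ^ k, ?_, ?_⟩
  · rw [he, ← map_mul]
    have h1 : u * Polynomial.X ^ (k + 1) * (u * Polynomial.X ^ (k + 1)) =
        u * Polynomial.X ^ (k + 1) - (u * v * Polynomial.X) * (Polynomial.X ^ k * p) := by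
      linear_combination (u * Polynomial.X ^ (k + 1)) * huv
    have h2 : Polynomial.aeval b (u * Polynomial.X ^ (k + 1) -
        (u * v * Polynomial.X) * (Polynomial.X ^ k * p)) =
        Polynomial.aeval b (u * Polynomial.X ^ (k + 1)) -
          Polynomial.aeval b (u * v * Polynomial.X) * Polynomial.aeval b (Polynomial.X ^ k * p) := by
      simp only [map_sub, map_mul]
    rw [h1, h2, h0, mul_zero, sub_zero]
  · rw [he]
    intro h1
    apply hb
    refine ⟨k, ?_⟩
    have h2 : Polynomial.aeval b (v * p) = 1 := by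
      have h3 : Polynomial.aeval b (u * Polynomial.X ^ (k + 1) + v * p) =
          Polynomial.aeval b (1 : Polynomial ℝ) := by rw [huv]
      rwa [map_add, h1, zero_add, map_one] at h3
    have e1 : Polynomial.aeval b ((Polynomial.X : Polynomial ℝ) ^ k) = b ^ k := by
      simp only [map_pow, Polynomial.aeval_X]
    have e2 : (Polynomial.X : Polynomial ℝ) ^ k * (v * p) = v * (Polynomial.X ^ k * p) := by ring
    rw [← e1, ← mul_one (Polynomial.aeval b ((Polynomial.X : Polynomial ℝ) ^ k)), ← h2, ← hm, e2, hm,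
      h0, mul_zero]

variable {m : ℕ} {F : Type} [NormedAddCommGroup F] [NormedSpace ℝ F] {D : F →ₗ[ℝ] Mat m}

/-- `M` commutes with everything and kills the cyclic vector -/
lemma zero_of (ν : Fin m → ℝ) (hν : ∀ y, ∃ X, ∃ c : ℝ, y = (D X).mulVec ν + c • ν) (M : Mat m)
    (hM : ∀ X, M * D X = D X * M) (h0 : M.mulVec ν = 0) : M = 0 := by
  have h1 : ∀ y, M.mulVec y = 0 := by
    intro y
    obtain ⟨X, c, rfl⟩ := hν y
    rw [Matrix.mulVec_add, Matrix.mulVec_smul, h0, Matrix.mulVec_mulVec, hM,
      ← Matrix.mulVec_mulVec, h0, Matrix.mulVec_zero, smul_zero, add_zero]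
  ext i j
  have h2 := congrFun (h1 (Pi.single j 1)) i
  simpa using h2

/-- the algebra -/
def alg (hc : ∀ X Y, D X * D Y = D Y * D X) (ν : Fin m → ℝ)
    (hν : ∀ y, ∃ X, ∃ c : ℝ, y = (D X).mulVec ν + c • ν) : Subalgebra ℝ (Mat m) where
  carrier := {M | ∃ X, ∃ c : ℝ, M = D X + c • (1 : Mat m)}
  mul_mem' := by
    rintro a b ⟨X, c, rfl⟩ ⟨Y, e, rfl⟩
    obtain ⟨Z, f, h⟩ := hν (((D X + c • (1 : Mat m)) * (D Y + e • (1 : Mat m))).mulVec ν)
    refine ⟨Z, f, ?_⟩
    rw [← sub_eq_zero]
    apply zero_of ν hν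
    · intro W
      have h1 : ∀ (X : F) (c : ℝ), Commute (D X + c • (1 : Mat m)) (D W) := fun X c =>
        Commute.add_left (hc X W) ((Commute.one_left _).smul_left c)
      exact (((h1 X c).mul_left (h1 Y e)).sub_left (h1 Z f)).eq
    · rw [Matrix.sub_mulVec, h, Matrix.add_mulVec, Matrix.smul_mulVec, Matrix.one_mulVec, sub_self]
  add_mem' := by
    rintro a b ⟨X, c, rfl⟩ ⟨Y, e, rfl⟩
    refine ⟨X + Y, c + e, ?_⟩
    rw [map_add, add_smul]
    abel
  algebraMap_mem' := fun r => ⟨0, r, by rw [map_zero, zero_add, Algebra.algebraMap_eq_smul_one]⟩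

lemma dot_tr (A : Mat m) (z x : Fin m → ℝ) :
    dotProduct (A.mulVec z) x = dotProduct z (A.transpose.mulVec x) := by
  rw [dotProduct_comm, Matrix.dotProduct_mulVec, Matrix.mulVec_transpose, dotProduct_comm]

theorem alg_main : S_alg := by
  intro m F _ _ _ D G d Q hQ hexp hc hnil ν hν0 x hx hνx y
  by_contra hcon
  have hν := hQ.good ν hν0
  -- a nonzero vector orthogonal to the orbit
  obtain ⟨z, hz0, hz⟩ : ∃ z : Fin m → ℝ, z ≠ 0 ∧ ∀ (X : F) (c : ℝ),
      dotProduct z ((D X).transpose.mulVec x + c • x) = 0 := by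
    let L : F × ℝ →ₗ[ℝ] (Fin m → ℝ) :=
      { toFun := fun p => (D p.1).transpose.mulVec x + p.2 • x
        map_add' := by
          intro p q
          simp only [Prod.fst_add, Prod.snd_add, map_add, Matrix.transpose_add, Matrix.add_mulVec,
            add_smul]
          abel
        map_smul' := by
          intro c p
          simp only [Prod.smul_fst, Prod.smul_snd, map_smul, Matrix.transpose_smul,
            Matrix.smul_mulVec, smul_eq_mul, RingHom.id_apply, smul_add, smul_smul] }
    have hL : L.range < ⊤ := by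
      rw [lt_top_iff_ne_top]
      intro h1
      apply hcon
      obtain ⟨p, hp⟩ := LinearMap.range_eq_top.1 h1 y
      exact ⟨p.1, p.2, hp.symm⟩
    obtain ⟨f, hf0, hf⟩ := Submodule.exists_le_ker_of_lt_top _ hL
    have hfz : ∀ w, f w = dotProduct (fun i => f (fun j => if i = j then 1 else 0)) w := by
      intro w
      rw [LinearMap.pi_apply_eq_sum_univ f w, dotProduct]
      apply Finset.sum_congr rfl
      intro i _
      rw [smul_eq_mul, mul_comm]
    refine ⟨fun i => f (fun j => if i = j then 1 else 0), ?_, ?_⟩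
    · intro h1
      apply hf0
      apply LinearMap.ext
      intro w
      rw [hfz, h1, zero_dotProduct, LinearMap.zero_apply]
    · intro X c
      rw [← hfz]
      exact hf ⟨(X, c), rfl⟩
  obtain ⟨X0, c0, hb⟩ := hν z
  set b : Mat m := D X0 + c0 • (1 : Mat m) with hbd
  have hbz : b.mulVec ν = z := by
    rw [hbd, Matrix.add_mulVec, Matrix.smul_mulVec, Matrix.one_mulVec, ← hb]
  have hbm : b ∈ alg hc ν hν := ⟨X0, c0, hbd⟩
  -- the ideal is contained in the range
  have key : ∀ a ∈ alg hc ν hν, ∃ X, a * b = D X := by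
    rintro a ha
    obtain ⟨Y, f, hY⟩ := (alg hc ν hν).mul_mem ha hbm
    obtain ⟨X, c, rfl⟩ := ha
    have h1 : dotProduct (((D X + c • (1 : Mat m)) * b).mulVec ν) x = 0 := by
      rw [← Matrix.mulVec_mulVec, hbz, dot_tr, Matrix.transpose_add, Matrix.transpose_smul,
        Matrix.transpose_one, Matrix.add_mulVec, Matrix.smul_mulVec, Matrix.one_mulVec]
      exact hz X c
    rw [hY, Matrix.add_mulVec, Matrix.smul_mulVec, Matrix.one_mulVec, add_dotProduct,
      smul_dotProduct, hx Y, zero_add, smul_eq_mul] at h1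
    have h2 : f = 0 := (mul_eq_zero.1 h1).resolve_right hνx
    refine ⟨Y, ?_⟩
    rw [hY, h2, zero_smul, add_zero]
  have hbn : ¬ IsNilpotent b := by
    intro h1
    obtain ⟨X1, hX1⟩ := key 1 (alg hc ν hν).one_mem
    rw [one_mul] at hX1
    rw [hX1] at h1
    have h2 := hnil X1 h1
    rw [h2] at hX1
    apply hz0
    rw [← hbz, hX1, Matrix.zero_mulVec]
  obtain ⟨u, hu1, hu2⟩ := exists_idem b hbn
  have hum : Polynomial.aeval b u ∈ alg hc ν hν :=
    (Algebra.adjoin_le (Set.singleton_subset_iff.2 hbm)) (Polynomial.aeval_mem_adjoin_singleton ℝ b)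
  obtain ⟨X, hX⟩ := key _ hum
  rw [hX] at hu1 hu2
  set e := D X with hed
  have hinv : ∀ t : ℝ, eval (ν + (Real.exp t - 1) • e.mulVec ν) Q = eval ν Q := by
    intro t
    obtain ⟨g, hg, hge⟩ := hexp (t • X)
    have h1 := hQ.inv g hg ν
    rw [hge, map_smul, exp_idem _ hu1, Matrix.add_mulVec, Matrix.smul_mulVec,
      Matrix.one_mulVec] at h1
    exact h1
  have hcont : Continuous fun s : ℝ => eval (ν + s • e.mulVec ν) Q :=
    (MvPolynomial.continuous_eval Q).comp (by fun_prop)
  have hlim : Tendsto (fun t : ℝ => Real.exp t - 1) atBot (𝓝 (0 - 1)) :=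
    Real.tendsto_exp_atBot.sub_const 1
  have h1 : Tendsto (fun t : ℝ => eval (ν + (Real.exp t - 1) • e.mulVec ν) Q) atBot
      (𝓝 (eval (ν + (0 - 1 : ℝ) • e.mulVec ν) Q)) := (hcont.tendsto (0 - 1)).comp hlim
  have h2 : eval (ν + (0 - 1 : ℝ) • e.mulVec ν) Q = eval ν Q := by
    refine tendsto_nhds_unique h1 ?_
    have h3 : (fun t : ℝ => eval (ν + (Real.exp t - 1) • e.mulVec ν) Q) = fun _ => eval ν Q :=
      funext hinv
    rw [h3]
    exact tendsto_const_nhds
  apply hu2
  refine zero_of (ν + (0 - 1 : ℝ) • e.mulVec ν) (hQ.good _ (by rw [h2]; exact hν0)) e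
    (fun Y => hc X Y) ?_
  rw [Matrix.mulVec_add, Matrix.mulVec_smul, Matrix.mulVec_mulVec, hu1, zero_sub, neg_smul,
    one_smul, add_neg_cancel]

end Pool.Agent.N696.LI.Alg
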