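import Pool.Agent.N696.LI.Stm

/-!
# Project LI, part BDD: nilpotent elements vanish
-/

set_option autoImplicit false

namespace Pool.Agent.N696.LI.Bdd

open Pool.Agent.N696.LI Topology

section

attribute [local instance] Matrix.linftyOpNormedRing Matrix.linftyOpNormedAlgebra

theorem exp_nil {m : ℕ} (B : Mat m) {n : ℕ} (hn : B ^ n = 0) (t : ℝ) :
    NormedSpace.exp (t • B) = ∑ j ∈ Finset.range n, ((j.factorial : ℝ)⁻¹ * t ^ j) • B ^ j := by
  have h1 : HasSum (fun j : ℕ => ((j.factorial : ℝ)⁻¹) • (t • B) ^ j)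
      (NormedSpace.exp (t • B)) := NormedSpace.exp_series_hasSum_exp' (𝕂 := ℝ) (t • B)
  have h2 : HasSum (fun j : ℕ => ((j.factorial : ℝ)⁻¹) • (t • B) ^ j)
      (∑ j ∈ Finset.range n, ((j.factorial : ℝ)⁻¹) • (t • B) ^ j) := by
    apply hasSum_sum_of_ne_finset_zero
    intro j hj
    rw [Finset.mem_range, not_lt] at hj
    rw [smul_pow, pow_eq_zero_of_le hj hn, smul_zero, smul_zero]
  rw [h1.unique h2]
  apply Finset.sum_congr rfl
  intro j _
  rw [smul_pow, smul_smul]

theorem comm_exp {m : ℕ} {A B : Mat m} (h : Commute A B) : Commute A (NormedSpace.exp B) :=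
  h.exp_right

end

theorem exp_nil_sub {m : ℕ} (B : Mat m) {n : ℕ} (hn : B ^ (n + 1) = 0) (t : ℝ) :
    ∃ Y : Mat m, Commute B Y ∧ NormedSpace.exp (t • B) = 1 + B * Y := by
  refine ⟨∑ j ∈ Finset.range n, (((j + 1).factorial : ℝ)⁻¹ * t ^ (j + 1)) • B ^ j, ?_, ?_⟩
  · apply Commute.sum_right
    intro j _
    exact ((Commute.refl B).pow_right j).smul_right _
  · rw [exp_nil B hn t, Finset.sum_range_succ', Finset.mul_sum, add_comm]
    congr 1
    · simp
    · apply Finset.sum_congr rfl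
      intro j _
      rw [mul_smul_comm, pow_succ' B j]

theorem exp_top {m : ℕ} (B : Mat m) {r : ℕ} (hr : B ^ (r + 2) = 0) (t : ℝ) :
    NormedSpace.exp (t • B) * B ^ r = B ^ r + t • B ^ (r + 1) := by
  rw [exp_nil B hr t, Finset.sum_mul, Finset.sum_range_succ', Finset.sum_range_succ']
  have h0 : ∑ k ∈ Finset.range r, (((k + 1 + 1).factorial : ℝ)⁻¹ * t ^ (k + 1 + 1)) •
      B ^ (k + 1 + 1) * B ^ r = 0 := by
    apply Finset.sum_eq_zero
    intro k _
    rw [smul_mul_assoc, ← pow_add, pow_eq_zero_of_le (by omega) hr, smul_zero]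
  rw [h0, zero_add, add_comm]
  congr 1
  · simp
  · rw [smul_mul_assoc, ← pow_add]
    have e1 : 0 + 1 + r = r + 1 := by omega
    rw [e1]
    simp

theorem bdd : S_bdd := by
  classical
  intro m F _ _ _ D G Γ hL hc hT X hX
  -- commutation
  have hcomm1 : ∀ g ∈ G, ∀ Y : F, Commute (g : Mat m) (D Y) := by
    intro g hg Y
    have hg' := hL.gen hg
    refine Subgroup.closure_induction (p := fun (g : (Mat m)ˣ) _ => Commute (g : Mat m) (D Y)) ?_ ?_ ?_ ?_ hg'
    · rintro x ⟨Z, hZ⟩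
      rw [hZ]
      have h1 : Commute (D Y) (D Z) := hc Y Z
      exact (comm_exp h1).symm
    · exact Commute.one_left _
    · intro x y _ _ hx hy
      rw [Units.val_mul]
      exact hx.mul_left hy
    · intro x _ hx
      exact hx.units_inv_left
  have hcomm2 : ∀ g ∈ G, ∀ h ∈ G, Commute (g : Mat m) (h : Mat m) := by
    intro g hg h hh
    have hh' := hL.gen hh
    refine Subgroup.closure_induction (p := fun (h : (Mat m)ˣ) _ => Commute (g : Mat m) (h : Mat m))
      ?_ ?_ ?_ ?_ hh'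
    · rintro x ⟨Z, hZ⟩
      rw [hZ]
      exact comm_exp (hcomm1 g hg Z)
    · exact Commute.one_right _
    · intro x y _ _ hx hy
      rw [Units.val_mul]
      exact hx.mul_right hy
    · intro x _ hx
      exact hx.units_inv_right
  obtain ⟨K, hK, hKG, hKc⟩ := hL.cocompact
  -- the elements `g_t = γ_t k_t`
  have hex : ∀ t : ℝ, ∃ g γ k : (Mat m)ˣ, (g : Mat m) = NormedSpace.exp (t • D X) ∧ g ∈ G ∧
      γ ∈ Γ ∧ k ∈ K ∧ g = γ * k := by
    intro t
    obtain ⟨g, hg, hge⟩ := hL.exp_mem (t • X)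
    obtain ⟨γ, hγ, hγk⟩ := hKc g hg
    refine ⟨g, γ, γ⁻¹ * g, ?_, hg, hγ, hγk, ?_⟩
    · rw [hge, map_smul]
    · rw [mul_inv_cancel_left]
  choose g γ k hgexp hgG hγ hk hgk using hex
  -- bounds on `K`
  have hKb : ∀ i j, ∃ C : ℝ, ∀ x ∈ K, |(x : Mat m) i j| ≤ C := by
    intro i j
    have hcont : Continuous (fun x : (Mat m)ˣ => (x : Mat m) i j) := by
      have h1 : Continuous (fun x : (Mat m)ˣ => (x : Mat m)) := Units.continuous_val
      exact h1.matrix_elem i j
    obtain ⟨C, hC⟩ := hK.exists_bound_of_continuousOn hcont.continuousOn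
    exact ⟨C, fun x hx => hC x hx⟩
  have hKb' : ∀ N : Mat m, ∃ C : ℝ, ∀ x ∈ K, |(((x⁻¹ : (Mat m)ˣ) : Mat m) * N).trace| ≤ C := by
    intro N
    have hcont : Continuous (fun x : (Mat m)ˣ => (((x⁻¹ : (Mat m)ˣ) : Mat m) * N).trace) := by
      have h1 : Continuous (fun x : (Mat m)ˣ => ((x⁻¹ : (Mat m)ˣ) : Mat m)) :=
        Units.continuous_coe_inv
      exact (h1.matrix_mul continuous_const).matrix_trace
    obtain ⟨C, hC⟩ := hK.exists_bound_of_continuousOn hcont.continuousOn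
    exact ⟨C, fun x hx => hC x hx⟩
  obtain ⟨n, hn⟩ := hX
  have hn1 : (D X) ^ (n + 1) = 0 := by rw [pow_succ, hn, zero_mul]
  -- traces
  have htr : ∀ (t : ℝ) (γ' : (Mat m)ˣ), γ' ∈ Γ → ((γ t : Mat m) * (γ' : Mat m)).trace =
      ((((k t)⁻¹ : (Mat m)ˣ) : Mat m) * (γ' : Mat m)).trace := by
    intro t γ' hγ'
    obtain ⟨Y, hY1, hY2⟩ := exp_nil_sub (D X) hn1 t
    have e1 : γ t = g t * (k t)⁻¹ := by rw [hgk t, mul_inv_cancel_right]
    have e2 : (γ t : Mat m) * (γ' : Mat m) =
        (((k t)⁻¹ : (Mat m)ˣ) : Mat m) * (γ' : Mat m) +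
        D X * (Y * ((((k t)⁻¹ : (Mat m)ˣ) : Mat m) * (γ' : Mat m))) := by
      rw [e1, Units.val_mul, hgexp t, hY2]
      noncomm_ring
    have hcm : Commute (D X) (Y * ((((k t)⁻¹ : (Mat m)ˣ) : Mat m) * (γ' : Mat m))) := by
      apply hY1.mul_right
      apply Commute.mul_right
      · exact (hcomm1 _ (G.inv_mem (hKG (hk t))) X).symm
      · exact (hcomm1 _ (hL.le hγ') X).symm
    have hnil : IsNilpotent (D X * (Y * ((((k t)⁻¹ : (Mat m)ˣ) : Mat m) * (γ' : Mat m)))) :=
      hcm.isNilpotent_mul_right ⟨n, hn⟩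
    have htr0 : (D X * (Y * ((((k t)⁻¹ : (Mat m)ˣ) : Mat m) * (γ' : Mat m)))).trace = 0 :=
      (Matrix.isNilpotent_trace_of_isNilpotent hnil).eq_zero
    rw [e2, Matrix.trace_add, htr0, add_zero]
  set R0 : Submodule ℝ (Mat m) := Submodule.span ℝ {M : Mat m | ∃ γ ∈ Γ, M = (γ : Mat m)} with hR0
  have hbd1 : ∀ M ∈ R0, ∃ C : ℝ, ∀ t, |((γ t : Mat m) * M).trace| ≤ C := by
    intro M hM
    refine Submodule.span_induction (p := fun M _ => ∃ C : ℝ, ∀ t, |((γ t : Mat m) * M).trace| ≤ C)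
      ?_ ?_ ?_ ?_ hM
    · rintro x ⟨γ', hγ', rfl⟩
      obtain ⟨C, hC⟩ := hKb' (γ' : Mat m)
      refine ⟨C, fun t => ?_⟩
      rw [htr t γ' hγ']
      exact hC _ (hk t)
    · exact ⟨0, fun t => by simp⟩
    · rintro x y _ _ ⟨C1, h1⟩ ⟨C2, h2⟩
      refine ⟨C1 + C2, fun t => ?_⟩
      rw [mul_add, Matrix.trace_add]
      exact (abs_add_le _ _).trans (add_le_add (h1 t) (h2 t))
    · rintro a x _ ⟨C1, h1⟩
      refine ⟨|a| * C1, fun t => ?_⟩
      rw [mul_smul_comm, Matrix.trace_smul, smul_eq_mul, abs_mul]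
      exact mul_le_mul_of_nonneg_left (h1 t) (abs_nonneg _)
  -- the trace form on `R0`
  let T : R0 →ₗ[ℝ] Module.Dual ℝ R0 :=
    { toFun := fun M =>
        { toFun := fun N => ((N : Mat m) * (M : Mat m)).trace
          map_add' := fun N1 N2 => by
            rw [Submodule.coe_add, add_mul, Matrix.trace_add]
          map_smul' := fun a N => by
            rw [Submodule.coe_smul, smul_mul_assoc, Matrix.trace_smul]
            rfl }
      map_add' := fun M1 M2 => by
        ext N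
        show ((N : Mat m) * ((M1 + M2 : R0) : Mat m)).trace =
          ((N : Mat m) * (M1 : Mat m)).trace + ((N : Mat m) * (M2 : Mat m)).trace
        rw [Submodule.coe_add, mul_add, Matrix.trace_add]
      map_smul' := fun a M => by
        ext N
        show ((N : Mat m) * ((a • M : R0) : Mat m)).trace = a • ((N : Mat m) * (M : Mat m)).trace
        rw [Submodule.coe_smul, mul_smul_comm, Matrix.trace_smul] }
  have hTapp : ∀ (M N : R0), T M N = ((N : Mat m) * (M : Mat m)).trace := fun M N => rfl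
  have hTinj : Function.Injective T := by
    rw [injective_iff_map_eq_zero]
    intro M hM
    apply Subtype.ext
    apply hT M.1 M.2
    intro γ' hγ'
    have h1 : T M ⟨(γ' : Mat m), Submodule.subset_span ⟨γ', hγ', rfl⟩⟩ = 0 := by
      rw [hM]
      rfl
    rw [hTapp] at h1
    rw [Matrix.trace_mul_comm]
    exact h1
  have hTsurj : Function.Surjective T := by
    rw [← LinearMap.injective_iff_surjective_of_finrank_eq_finrank]
    · exact hTinj
    · exact (Subspace.dual_finrank_eq).symm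
  -- entries of `γ t` are bounded
  have hγR : ∀ t, (γ t : Mat m) ∈ R0 := fun t => Submodule.subset_span ⟨γ t, hγ t, rfl⟩
  have hbd2 : ∀ i j, ∃ C : ℝ, ∀ t, |(γ t : Mat m) i j| ≤ C := by
    intro i j
    obtain ⟨M, hM⟩ := hTsurj ((Matrix.entryLinearMap ℝ ℝ i j).comp R0.subtype)
    obtain ⟨C, hC⟩ := hbd1 M.1 M.2
    refine ⟨C, fun t => ?_⟩
    have h1 := LinearMap.congr_fun hM ⟨(γ t : Mat m), hγR t⟩
    rw [hTapp] at h1
    have h2 : (γ t : Mat m) i j = ((γ t : Mat m) * (M : Mat m)).trace := h1.symm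
    rw [h2]
    exact hC t
  -- entries of products with a fixed matrix on the right are bounded
  choose CK hCK using hKb
  choose Cγ hCγ using hbd2
  have hbd3 : ∀ (N : Mat m) i j, ∃ C : ℝ, ∀ t : ℝ, |(NormedSpace.exp (t • D X) * N) i j| ≤ C := by
    intro N i j
    refine ⟨∑ l, (∑ q, Cγ i q * CK q l) * |N l j|, fun t => ?_⟩
    rw [← hgexp t, hgk t, Units.val_mul, Matrix.mul_apply]
    refine (Finset.abs_sum_le_sum_abs _ _).trans (Finset.sum_le_sum fun l _ => ?_)
    rw [abs_mul]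
    apply mul_le_mul_of_nonneg_right _ (abs_nonneg _)
    rw [Matrix.mul_apply]
    refine (Finset.abs_sum_le_sum_abs _ _).trans (Finset.sum_le_sum fun q _ => ?_)
    rw [abs_mul]
    exact mul_le_mul (hCγ i q t) (hCK q l _ (hk t)) (abs_nonneg _)
      ((abs_nonneg _).trans (hCγ i q t))
  -- the conclusion
  have hfin : ∀ r : ℕ, (D X) ^ (r + 2) = 0 → (D X) ^ (r + 1) = 0 := by
    intro r hr
    ext i j
    obtain ⟨C, hC⟩ := hbd3 ((D X) ^ r) i j
    by_contra hne
    set a := ((D X) ^ (r + 1)) i j with ha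
    set b := ((D X) ^ r) i j with hb
    have hne' : a ≠ 0 := hne
    have h1 : ∀ t : ℝ, |b + t * a| ≤ C := by
      intro t
      have h2 := hC t
      rw [exp_top (D X) hr t] at h2
      exact h2
    have h3 := h1 ((C + 1 - b) / a)
    rw [div_mul_cancel₀ _ hne'] at h3
    have h4 : b + (C + 1 - b) = C + 1 := by ring
    rw [h4] at h3
    have h5 := le_abs_self (C + 1)
    linarith
  have hdown : ∀ r : ℕ, (D X) ^ (r + 1) = 0 → D X = 0 := by
    intro r
    induction r with
    | zero => intro h; simpa using h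
    | succ r ih => intro h; exact ih (hfin r h)
  exact hdown n hn1

end Pool.Agent.N696.LI.Bdd
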