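import Pool.Agent.N696.LI.Stm

/-! Project LI, part HESS (helper281): the Hessian argument at a minimal point. -/

set_option autoImplicit false

namespace Pool.Agent.N696.LI.Hess

open Topology MvPolynomial Pool.Agent.N696.LI

/-- chain rule for polynomials -/
lemma hasDerivAt_eval {m : ℕ} (Q : MvPolynomial (Fin m) ℝ) (f : ℝ → Fin m → ℝ) (f' : Fin m → ℝ)
    (t : ℝ) (hf : ∀ i, HasDerivAt (fun s => f s i) (f' i) t) :
    HasDerivAt (fun s => eval (f s) Q) (∑ i, f' i * eval (f t) (pderiv i Q)) t := by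
  induction Q using MvPolynomial.induction_on with
  | C a =>
    simp only [eval_C, pderiv_C, map_zero, mul_zero, Finset.sum_const_zero]
    exact hasDerivAt_const t a
  | add p q hp hq =>
    simp only [map_add]
    have h := hp.add hq
    rw [← Finset.sum_add_distrib] at h
    have e : ∑ i, (f' i * eval (f t) (pderiv i p) + f' i * eval (f t) (pderiv i q)) =
        ∑ i, f' i * (eval (f t) (pderiv i p) + eval (f t) (pderiv i q)) :=
      Finset.sum_congr rfl fun i _ => by ring
    rw [e] at h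
    exact h
  | mul_X p j hp =>
    simp only [map_mul, eval_X]
    have h := hp.mul (hf j)
    have e : (∑ i, f' i * eval (f t) (pderiv i p)) * f t j + eval (f t) p * f' j =
        ∑ i, f' i * eval (f t) (pderiv i (p * X j)) := by
      have e1 : ∀ i, f' i * eval (f t) (pderiv i (p * X j)) =
          f' i * eval (f t) (pderiv i p) * f t j + (if i = j then eval (f t) p * f' i else 0) := by
        intro i
        rw [Derivation.leibniz, map_add, smul_eq_mul, smul_eq_mul, map_mul, map_mul, eval_X,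
          pderiv_X]
        by_cases hij : i = j
        · subst hij
          simp
          ring
        · rw [if_neg hij, Pi.single_apply, if_neg (Ne.symm hij)]
          simp
          ring
      rw [Finset.sum_congr rfl fun i _ => e1 i, Finset.sum_add_distrib, ← Finset.sum_mul,
        Finset.sum_ite_eq' Finset.univ j, if_pos (Finset.mem_univ j)]
    rw [e] at h
    exact h

section
attribute [local instance] Matrix.linftyOpNormedRing Matrix.linftyOpNormedAlgebra

lemma exp_mulVec {m : ℕ} (B : Mat m) (η : Fin m → ℝ) (i : Fin m) :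
    HasDerivAt (fun t : ℝ => ((NormedSpace.exp (t • B)).mulVec η) i) (B.mulVec η i) 0 := by
  have h := hasDerivAt_exp_smul_const B (0 : ℝ)
  rw [zero_smul, NormedSpace.exp_zero, one_mul] at h
  let L : Mat m →ₗ[ℝ] ℝ :=
    { toFun := fun M => (M.mulVec η) i
      map_add' := fun M N => by rw [Matrix.add_mulVec]; rfl
      map_smul' := fun c M => by rw [Matrix.smul_mulVec]; rfl }
  exact (LinearMap.toContinuousLinearMap L).hasFDerivAt.comp_hasDerivAt (0 : ℝ) h

end

/-- infinitesimal invariance -/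
lemma inf_inv {m : ℕ} (Q : MvPolynomial (Fin m) ℝ) (B : Mat m)
    (h : ∀ (t : ℝ) (η : Fin m → ℝ), eval ((NormedSpace.exp (t • B)).mulVec η) Q = eval η Q)
    (η : Fin m → ℝ) : ∑ i, B.mulVec η i * eval η (pderiv i Q) = 0 := by
  have h1 := hasDerivAt_eval Q (fun t => (NormedSpace.exp (t • B)).mulVec η) (B.mulVec η) 0
    (fun i => exp_mulVec B η i)
  have h2 : (fun t : ℝ => eval ((NormedSpace.exp (t • B)).mulVec η) Q) = fun _ => eval η Q := by
    funext t
    exact h t η
  rw [h2] at h1
  have h3 := h1.unique (hasDerivAt_const (0 : ℝ) (eval η Q))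
  rw [zero_smul, NormedSpace.exp_zero, Matrix.one_mulVec] at h3
  exact h3

/-- the gradient -/
noncomputable def gr {m : ℕ} (Q : MvPolynomial (Fin m) ℝ) (ν : Fin m → ℝ) : Fin m → ℝ :=
  fun i => eval ν (pderiv i Q)

/-- the Hessian -/
noncomputable def he {m : ℕ} (Q : MvPolynomial (Fin m) ℝ) (ν : Fin m → ℝ) : Mat m :=
  Matrix.of fun k i => eval ν (pderiv k (pderiv i Q))

lemma he_mul {m : ℕ} (Q : MvPolynomial (Fin m) ℝ) (B : Mat m)
    (h : ∀ (t : ℝ) (η : Fin m → ℝ), eval ((NormedSpace.exp (t • B)).mulVec η) Q = eval η Q)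
    (ν : Fin m → ℝ) : (he Q ν).mulVec (B.mulVec ν) = -(B.transpose.mulVec (gr Q ν)) := by
  set P : MvPolynomial (Fin m) ℝ := ∑ i, (∑ j, C (B i j) * X j) * pderiv i Q with hP
  have hP0 : P = 0 := by
    apply MvPolynomial.funext
    intro η
    rw [map_zero, hP, map_sum, ← inf_inv Q B h η]
    refine Finset.sum_congr rfl fun i _ => ?_
    rw [map_mul, map_sum]
    congr 1
    refine Finset.sum_congr rfl fun j _ => ?_
    rw [map_mul, eval_C, eval_X]
  funext k
  have h1 : eval ν (pderiv k P) = 0 := by rw [hP0, map_zero, map_zero]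
  rw [hP, map_sum, map_sum] at h1
  have h2 : ∀ i, eval ν (pderiv k ((∑ j, C (B i j) * X j) * pderiv i Q)) =
      he Q ν k i * B.mulVec ν i + B i k * gr Q ν i := by
    intro i
    rw [Derivation.leibniz, map_add, smul_eq_mul, smul_eq_mul, map_mul, map_mul, map_sum, map_sum,
      map_sum]
    have e1 : ∑ j, eval ν (C (B i j) * X j) = B.mulVec ν i := by
      refine Finset.sum_congr rfl fun j _ => ?_
      rw [map_mul, eval_C, eval_X]
    have e2 : ∑ j, eval ν (pderiv k (C (B i j) * X j)) = B i k := by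
      rw [Finset.sum_eq_single k]
      · rw [pderiv_C_mul, pderiv_X_self]
        simp
      · intro j _ hj
        rw [pderiv_C_mul, pderiv_X_of_ne hj]
        simp
      · intro h; exact absurd (Finset.mem_univ _) h
    rw [e1, e2]
    show B.mulVec ν i * eval ν (pderiv k (pderiv i Q)) + eval ν (pderiv i Q) * B i k = _
    unfold he gr
    rw [Matrix.of_apply]
    ring
  rw [Finset.sum_congr rfl fun i _ => h2 i, Finset.sum_add_distrib] at h1
  show ∑ i, he Q ν k i * B.mulVec ν i = -(∑ i, B.transpose k i * gr Q ν i)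
  have e3 : ∑ i, B.transpose k i * gr Q ν i = ∑ i, B i k * gr Q ν i := rfl
  rw [e3]
  linarith

lemma euler1 {m d : ℕ} {Q : MvPolynomial (Fin m) ℝ} (hQ : Q.IsHomogeneous d) (ν : Fin m → ℝ) :
    dotProduct ν (gr Q ν) = d * eval ν Q := by
  have h := congrArg (eval ν) hQ.sum_X_mul_pderiv
  rw [map_sum] at h
  simp only [map_mul, eval_X, nsmul_eq_mul, map_natCast] at h
  exact h

lemma euler2 {m d : ℕ} {Q : MvPolynomial (Fin m) ℝ} (hQ : Q.IsHomogeneous d) (ν : Fin m → ℝ) :
    (he Q ν).mulVec ν = ((d : ℝ) - 1) • gr Q ν := by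
  funext k
  have h0 := hQ.sum_X_mul_pderiv
  have h := congrArg (fun P => eval ν (pderiv k P)) h0
  simp only [map_sum] at h
  have h2 : ∀ i, eval ν (pderiv k (X i * pderiv i Q)) =
      he Q ν k i * ν i + (if i = k then gr Q ν i else 0) := by
    intro i
    rw [Derivation.leibniz, map_add, smul_eq_mul, smul_eq_mul, map_mul, map_mul, eval_X]
    unfold he gr
    rw [Matrix.of_apply]
    by_cases hik : i = k
    · subst hik
      rw [pderiv_X_self, if_pos rfl, map_one]
      ring
    · rw [pderiv_X_of_ne hik, if_neg hik, map_zero]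
      ring
  rw [Finset.sum_congr rfl fun i _ => h2 i, Finset.sum_add_distrib,
    Finset.sum_ite_eq' Finset.univ k, if_pos (Finset.mem_univ k), map_nsmul, map_nsmul,
    nsmul_eq_mul] at h
  show ∑ i, he Q ν k i * ν i = ((d : ℝ) - 1) * gr Q ν k
  have h3 : eval ν (pderiv k Q) = gr Q ν k := rfl
  rw [h3] at h
  linarith

lemma dot_smul_add {m : ℕ} {F : Type} [NormedAddCommGroup F] [NormedSpace ℝ F]
    {D : F →ₗ[ℝ] Mat m} {ν x : Fin m → ℝ} (hx : Reeb D ν x) (X : F) (c : ℝ) :
    dotProduct ((D X).mulVec ν + c • ν) x = c * dotProduct ν x := by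
  rw [add_dotProduct, hx X, zero_add, smul_dotProduct, smul_eq_mul]

/-- proportionality of functionals -/
lemma prop_of {m : ℕ} {F : Type} [NormedAddCommGroup F] [NormedSpace ℝ F]
    {D : F →ₗ[ℝ] Mat m} {ν x x' : Fin m → ℝ}
    (good : ∀ y : Fin m → ℝ, ∃ X, ∃ c : ℝ, y = (D X).mulVec ν + c • ν) (hx : Reeb D ν x)
    (hx' : Reeb D ν x') (h0 : dotProduct ν x ≠ 0) :
    x' = (dotProduct ν x' / dotProduct ν x) • x := by
  apply dotProduct_eq
  intro y
  obtain ⟨X, c, hy⟩ := good y
  rw [dotProduct_comm x', smul_dotProduct, dotProduct_comm x, hy, dot_smul_add hx,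
    dot_smul_add hx', smul_eq_mul]
  field_simp

theorem hess : S_hess := by
  intro m F _ _ _ D G d Q hL hexp S hS hSG ν hν hx x' hx' hνx'
  have good := hL.good ν hν
  set x := S.mulVec ν with hxd
  have hd2 : (2 : ℝ) ≤ d := by exact_mod_cast hL.hd
  -- positivity
  have hν0 : ν ≠ 0 := by
    rintro rfl
    apply hν
    have h1 := euler1 hL.hom (0 : Fin m → ℝ)
    rw [zero_dotProduct] at h1
    rcases mul_eq_zero.1 h1.symm with h | h
    · exfalso; linarith
    · exact h
  have hpos : 0 < dotProduct ν x := by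
    have := hS.dotProduct_mulVec_pos hν0
    simpa using this
  have hSsymm : S.transpose = S := by
    have := hS.1
    rwa [Matrix.IsHermitian, Matrix.conjTranspose_eq_transpose_of_trivial] at this
  have hSdet : IsUnit S.det := (Matrix.isUnit_iff_isUnit_det _).1 hS.isUnit
  -- invariance
  have inv1 : ∀ X, ∀ (t : ℝ) (η : Fin m → ℝ),
      eval ((NormedSpace.exp (t • D X)).mulVec η) Q = eval η Q := by
    intro X t η
    obtain ⟨g, hg, hge⟩ := hexp (t • X)
    rw [← map_smul, ← hge]
    exact hL.inv g hg η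
  have inv2 : ∀ X, ∀ (t : ℝ) (η : Fin m → ℝ),
      eval ((NormedSpace.exp (t • (S⁻¹ * (D X).transpose * S))).mulVec η) Q = eval η Q := by
    intro X t η
    obtain ⟨g, hg, hge⟩ := hexp (t • X)
    have e1 : t • (S⁻¹ * (D X).transpose * S) = S⁻¹ * (t • D X).transpose * S := by
      rw [Matrix.transpose_smul, Matrix.mul_smul, Matrix.smul_mul]
    rw [e1, Matrix.exp_conj' _ _ hS.isUnit, Matrix.exp_transpose, ← map_smul, ← hge]
    exact hSG g hg η
  -- the gradient
  have hgr : Reeb D ν (gr Q ν) := fun X => inf_inv Q (D X) (inv1 X) ν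
  have hE := euler1 hL.hom ν
  set c' : ℝ := dotProduct ν (gr Q ν) / dotProduct ν x with hc'
  have hc0 : c' ≠ 0 := by
    rw [hc', hE]
    refine div_ne_zero (mul_ne_zero (by linarith) hν) hpos.ne'
  have hΔ : gr Q ν = c' • x := prop_of good hx hgr hpos.ne'
  have hd1 : (d : ℝ) - 1 ≠ 0 := by linarith
  -- surjectivity of the Hessian
  have h1 : ∀ X, (he Q ν).mulVec ((D X).mulVec ν) = -(c' • (D X).transpose.mulVec x) := by
    intro X
    rw [he_mul Q (D X) (inv1 X) ν, hΔ, Matrix.mulVec_smul]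
  have h2 : (he Q ν).mulVec ν = (((d : ℝ) - 1) * c') • x := by
    rw [euler2 hL.hom, hΔ, smul_smul]
  have h3 : ∀ X, (he Q ν).mulVec ((S⁻¹ * (D X).transpose * S).mulVec ν) =
      -(c' • S.mulVec ((D X).mulVec ν)) := by
    intro X
    rw [he_mul Q _ (inv2 X) ν, hΔ, Matrix.mulVec_smul, hxd, Matrix.mulVec_mulVec]
    have e : (S⁻¹ * (D X).transpose * S).transpose * S = S * D X := by
      rw [Matrix.transpose_mul, Matrix.transpose_mul, Matrix.transpose_transpose, hSsymm,
        Matrix.transpose_nonsing_inv, hSsymm, Matrix.mul_assoc, Matrix.mul_assoc,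
        Matrix.nonsing_inv_mul _ hSdet, Matrix.mul_one]
    rw [e, Matrix.mulVec_mulVec]
  have hsurj : ∀ y, ∃ w, y = (he Q ν).mulVec w := by
    intro y
    obtain ⟨X, c, hy⟩ := good (S⁻¹.mulVec y)
    have e1 : y = S.mulVec ((D X).mulVec ν) + c • x := by
      have : y = S.mulVec (S⁻¹.mulVec y) := by
        rw [Matrix.mulVec_mulVec, Matrix.mul_nonsing_inv _ hSdet, Matrix.one_mulVec]
      rw [this, hy, Matrix.mulVec_add, Matrix.mulVec_smul]
    refine ⟨(-(1 / c')) • (S⁻¹ * (D X).transpose * S).mulVec ν + (c / (((d : ℝ) - 1) * c')) • ν, ?_⟩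
    rw [Matrix.mulVec_add, Matrix.mulVec_smul, Matrix.mulVec_smul, h3, h2, smul_neg, smul_smul,
      smul_smul, e1]
    have e2 : -(1 / c') * c' = -1 := by field_simp
    have e3 : c / (((d : ℝ) - 1) * c') * (((d : ℝ) - 1) * c') = c := by field_simp
    rw [e2, e3]
    simp
  intro y
  obtain ⟨w, hw⟩ := hsurj y
  obtain ⟨X, c, hwX⟩ := good w
  have hy : y = (D X).transpose.mulVec ((-c') • x) + (c * (((d : ℝ) - 1) * c')) • x := by
    rw [hw, hwX, Matrix.mulVec_add, Matrix.mulVec_smul, h1, h2, smul_smul, Matrix.mulVec_smul]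
    simp
  -- comparison of x and x'
  have hxx : x = (dotProduct ν x / dotProduct ν x') • x' := prop_of good hx' hx hνx'
  set a := dotProduct ν x / dotProduct ν x' with ha
  refine ⟨(-c' * a) • X, c * (((d : ℝ) - 1) * c') * a, ?_⟩
  rw [hy, hxx, map_smul, Matrix.transpose_smul, Matrix.smul_mulVec, smul_smul, smul_smul,
    Matrix.mulVec_smul]

end Pool.Agent.N696.LI.Hess
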