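import Pool.Agent.N696.LI.Stm

/-! Project LI (helper696), part KER (helper427): the real solutions of a rational linear system. -/

set_option autoImplicit false

namespace Pool.Agent.N696.LI.Ker

theorem ker : Pool.Agent.N696.LI.S_ker := by
  intro k l M x hx
  set W : Submodule ℚ ℝ := Submodule.span ℚ (Set.range x) with hW
  haveI : FiniteDimensional ℚ W := FiniteDimensional.span_of_finite ℚ (Set.finite_range x)
  set b := Module.finBasis ℚ W with hb
  have hxm : ∀ i, x i ∈ W := fun i => Submodule.subset_span ⟨i, rfl⟩
  set w : Fin l → W := fun i => ⟨x i, hxm i⟩ with hw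
  have hz : ∀ j, M.mulVec (fun i => b.repr (w i) j) = 0 := by
    intro j
    funext a
    have h1 : ∑ i, M a i • w i = 0 := by
      apply Subtype.ext
      have h2 := congrFun hx a
      simp only [Matrix.mulVec, dotProduct, Matrix.map_apply, Pi.zero_apply] at h2
      rw [AddSubmonoidClass.coe_finset_sum]
      simp only [Submodule.coe_smul, hw, Rat.smul_def, ZeroMemClass.coe_zero]
      exact h2
    have h3 := congrArg (fun y => b.repr y j) h1
    simp only [map_sum, map_smul, map_zero, Finsupp.coe_zero, Pi.zero_apply, Finsupp.coe_finset_sum,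
      Finset.sum_apply, Finsupp.coe_smul, Pi.smul_apply, smul_eq_mul] at h3
    exact h3
  have e : x = ∑ j, ((b j : W) : ℝ) • (fun i => ((b.repr (w i) j : ℚ) : ℝ)) := by
    funext i
    have h1 := congrArg (fun y : W => (y : ℝ)) (b.sum_repr (w i))
    simp only [AddSubmonoidClass.coe_finset_sum, Submodule.coe_smul, Rat.smul_def] at h1
    rw [Finset.sum_apply]
    simp only [Pi.smul_apply, smul_eq_mul]
    rw [← show (w i : ℝ) = x i from rfl, ← h1]
    exact Finset.sum_congr rfl fun j _ => mul_comm _ _
  rw [e]
  refine Submodule.sum_mem _ fun j _ => Submodule.smul_mem _ _ (Submodule.subset_span ?_)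
  exact ⟨fun i => b.repr (w i) j, hz j, rfl⟩

end Pool.Agent.N696.LI.Ker
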