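import Pool.Agent.N696.LI.Stm

/-! Project LI, part LAT: the elements of `v` with exponential in `Γ` are the integral
combinations of a basis of `v`. -/

set_option autoImplicit false

namespace Pool.Agent.N696.LI.Lat

open Topology NormedSpace

section Aux

variable {A : Type} [NormedRing A] [NormedAlgebra ℝ A] [FiniteDimensional ℝ A]

/-- The exponential as a unit. -/
lemma exp_unit_facts :
    (∀ x y : A, x * y = y * x → exp (x + y) = exp x * exp y) ∧ Continuous (exp : A → A) ∧
      (∀ᶠ x in 𝓝 (0 : A), exp x = 1 → x = 0) := by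
  have : CompleteSpace A := FiniteDimensional.complete ℝ A
  let : NormedAlgebra ℚ A := NormedAlgebra.restrictScalars ℚ ℝ A
  refine ⟨fun x y h => exp_add_of_commute h, exp_continuous, ?_⟩
  have h1 : HasFDerivAt (exp : A → A) (1 : A →L[ℝ] A) 0 := hasFDerivAt_exp_zero
  have h2 := h1.isLittleO
  have h3 := (Asymptotics.isLittleO_iff.mp h2) (show (0 : ℝ) < 1 / 2 by norm_num)
  filter_upwards [h3] with x hx hx1
  rw [hx1, exp_zero] at hx
  simp only [sub_self, sub_zero, zero_sub, one_apply_eq_self, norm_neg] at hx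
  have h4 : ‖x‖ ≤ 0 := by linarith
  exact norm_le_zero_iff.mp h4

/-- The exponential as a map to the units. -/
noncomputable def E (x : A) : Aˣ where
  val := exp x
  inv := exp (-x)
  val_inv := by
    rw [← exp_unit_facts.1 x (-x) (by simp), add_neg_cancel, exp_zero]
  inv_val := by
    rw [← exp_unit_facts.1 (-x) x (by simp), neg_add_cancel, exp_zero]

lemma E_val (x : A) : ((E x : Aˣ) : A) = exp x := rfl

lemma E_cont : Continuous (E : A → Aˣ) := by
  rw [Units.continuous_iff]
  refine ⟨?_, ?_⟩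
  · exact exp_unit_facts.2.1
  · exact exp_unit_facts.2.1.comp continuous_neg

lemma E_zero : (E (0 : A)) = 1 := Units.ext (by rw [E_val, exp_zero]; rfl)

lemma E_add (x y : A) (h : x * y = y * x) : E (x + y) = E x * E y :=
  Units.ext (by rw [E_val, Units.val_mul, E_val, E_val]; exact exp_unit_facts.1 x y h)

lemma E_neg (x : A) : E (-x) = (E x)⁻¹ := by
  rw [eq_inv_iff_mul_eq_one, ← E_add (-x) x (by simp), neg_add_cancel, E_zero]

lemma mem_iff (Γ : Subgroup Aˣ) (x : A) : (∃ γ ∈ Γ, (γ : A) = exp x) ↔ E x ∈ Γ := by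
  constructor
  · rintro ⟨γ, hγ, h⟩
    have : γ = E x := Units.ext h
    rwa [← this]
  · intro h
    exact ⟨E x, h, rfl⟩

/-- The lattice. -/
noncomputable def Lam (Γ : Subgroup Aˣ) (v : Submodule ℝ A)
    (hv : ∀ x ∈ v, ∀ y ∈ v, x * y = y * x) : Submodule ℤ v :=
  AddSubgroup.toIntSubmodule
    { carrier := {x : v | E (x : A) ∈ Γ}
      zero_mem' := by
        change E ((0 : v) : A) ∈ Γ
        rw [Submodule.coe_zero, E_zero]
        exact Γ.one_mem
      add_mem' := by
        intro x y hx hy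
        change E ((x + y : v) : A) ∈ Γ
        rw [Submodule.coe_add, E_add _ _ (hv x x.2 y y.2)]
        exact Γ.mul_mem hx hy
      neg_mem' := by
        intro x hx
        change E ((-x : v) : A) ∈ Γ
        rw [Submodule.coe_neg, E_neg]
        exact Γ.inv_mem hx }

lemma mem_Lam (Γ : Subgroup Aˣ) (v : Submodule ℝ A)
    (hv : ∀ x ∈ v, ∀ y ∈ v, x * y = y * x) (x : v) : x ∈ Lam Γ v hv ↔ E (x : A) ∈ Γ := Iff.rfl

lemma discrete_Lam (Γ : Subgroup Aˣ) (v : Submodule ℝ A) (hΓ : DiscreteTopology Γ)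
    (hv : ∀ x ∈ v, ∀ y ∈ v, x * y = y * x) : DiscreteTopology (Lam Γ v hv) := by
  have hU : ∀ᶠ g in 𝓝 (1 : Aˣ), g ∈ Γ → g = 1 := by
    have h1 : IsOpen ({1} : Set Γ) := isOpen_discrete _
    obtain ⟨U, hUo, hU⟩ := isOpen_induced_iff.mp h1
    have h1U : (1 : Aˣ) ∈ U := by
      have : (1 : Γ) ∈ (Subtype.val ⁻¹' U : Set Γ) := by rw [hU]; rfl
      exact this
    filter_upwards [hUo.mem_nhds h1U] with g hg hgΓ
    have : (⟨g, hgΓ⟩ : Γ) ∈ (Subtype.val ⁻¹' U : Set Γ) := hg
    rw [hU] at this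
    exact congrArg Subtype.val this
  have h2 : ∀ᶠ x in 𝓝 (0 : A), E x ∈ Γ → E x = 1 := by
    have h3 : Filter.Tendsto (E : A → Aˣ) (𝓝 0) (𝓝 1) := by
      have := (E_cont (A := A)).tendsto 0
      rwa [E_zero] at this
    exact h3.eventually hU
  have h4 : ∀ᶠ x in 𝓝 (0 : A), E x ∈ Γ → x = 0 := by
    filter_upwards [h2, (exp_unit_facts (A := A)).2.2] with x hx hx' hxΓ
    refine hx' ?_
    have := congrArg Units.val (hx hxΓ)
    exact this
  have h5 : ∀ᶠ x in 𝓝 (0 : Lam Γ v hv), x = 0 := by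
    have hc : Filter.Tendsto (fun x : Lam Γ v hv => ((x : v) : A)) (𝓝 0) (𝓝 0) := by
      have : Continuous (fun x : Lam Γ v hv => ((x : v) : A)) :=
        continuous_subtype_val.comp continuous_subtype_val
      exact this.tendsto 0
    filter_upwards [hc.eventually h4] with x hx
    exact Subtype.ext (Subtype.ext (hx x.2))
  refine discreteTopology_of_isOpen_singleton_zero ?_
  rw [isOpen_iff_mem_nhds]
  intro a ha
  rw [Set.mem_singleton_iff] at ha
  subst ha
  filter_upwards [h5] with x hx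
  exact hx

end Aux

/-- **LAT**. -/
theorem lat : Pool.Agent.N696.LI.S_lat := by
  intro A _ _ _ Γ v hΓ hv hspan
  have hd : DiscreteTopology (Lam Γ v hv) := discrete_Lam Γ v hΓ hv
  have hZ : IsZLattice ℝ (Lam Γ v hv) := ⟨by
    rw [← (Submodule.map_injective_of_injective (Submodule.injective_subtype v)).eq_iff,
      Submodule.map_span, Submodule.map_top, Submodule.range_subtype]
    refine le_antisymm ?_ ?_
    · rw [Submodule.span_le]
      rintro _ ⟨x, _, rfl⟩
      exact x.2
    · refine hspan.trans (Submodule.span_mono ?_)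
      rintro x ⟨hxv, hx⟩
      exact ⟨⟨x, hxv⟩, (mem_iff Γ x).mp hx, rfl⟩⟩
  have : Module.Finite ℤ (Lam Γ v hv) := inferInstance
  have : Module.Free ℤ (Lam Γ v hv) := inferInstance
  let b₀ := Module.finBasis ℤ (Lam Γ v hv)
  let B := b₀.ofZLatticeBasis ℝ (Lam Γ v hv)
  have hBspan : Submodule.span ℤ (Set.range B) = Lam Γ v hv := b₀.ofZLatticeBasis_span ℝ (Lam Γ v hv)
  refine ⟨Module.finrank ℤ (Lam Γ v hv), fun i => (B i : A), ?_, ?_, ?_⟩
  · exact B.linearIndependent.map' v.subtype (Submodule.ker_subtype v)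
  · have h1 : Set.range (fun i => (B i : A)) = v.subtype '' Set.range B := by
      rw [← Set.range_comp]; rfl
    rw [h1, ← Submodule.map_span, B.span_eq, Submodule.map_top, Submodule.range_subtype]
  · intro x hx
    rw [mem_iff]
    have h1 : E x ∈ Γ ↔ (⟨x, hx⟩ : v) ∈ Submodule.span ℤ (Set.range B) := by
      have h2 := SetLike.ext_iff.mp hBspan (⟨x, hx⟩ : v)
      exact h2.symm
    rw [h1, Submodule.mem_span_range_iff_exists_fun]
    constructor
    · rintro ⟨c, hc⟩
      refine ⟨c, ?_⟩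
      have h2 := congrArg (Subtype.val) hc
      simp only [Submodule.coe_sum] at h2
      rw [← h2]
      refine Finset.sum_congr rfl fun i _ => ?_
      rw [Int.cast_smul_eq_zsmul]
      rfl
    · rintro ⟨z, hz⟩
      refine ⟨z, Subtype.ext ?_⟩
      simp only [Submodule.coe_sum]
      rw [hz]
      refine Finset.sum_congr rfl fun i _ => ?_
      rw [Int.cast_smul_eq_zsmul]
      rfl

end Pool.Agent.N696.LI.Lat
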