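import Pool.Agent.N696.LI.Stm

/-!
# Part NIL of project LI: a matrix all whose powers have trace zero is nilpotent
-/

set_option autoImplicit false

namespace Pool.Agent.N696.LI.Nil

open Module Polynomial

section nil

variable {F : Type*} [Field F] [CharZero F] {M : Type*} [AddCommGroup M] [Module F M]
  [FiniteDimensional F M]

omit [FiniteDimensional F M] [CharZero F] in
theorem trace_mul_aeval (x : Module.End F M)
    (h : ∀ k : ℕ, 0 < k → LinearMap.trace F M (x ^ k) = 0) (r : F[X]) :
    LinearMap.trace F M (x * aeval x r) = 0 := by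
  induction r using Polynomial.induction_on' with
  | add p q hp hq => rw [map_add, mul_add, map_add, hp, hq, add_zero]
  | monomial n a =>
    have h1 : x * aeval x (monomial n a) = a • x ^ (n + 1) := by
      rw [aeval_monomial, ← mul_assoc, ← Algebra.commutes, mul_assoc, ← pow_succ',
        ← Algebra.smul_def]
    rw [h1, map_smul, h _ (Nat.succ_pos n), smul_zero]

theorem nil_of_trace (x : Module.End F M)
    (h : ∀ k : ℕ, 0 < k → LinearMap.trace F M (x ^ k) = 0) : IsNilpotent x := by
  have hP0 : x.charpoly ≠ 0 := (LinearMap.charpoly_monic x).ne_zero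
  obtain ⟨q, hq, hnd⟩ := Polynomial.exists_eq_pow_rootMultiplicity_mul_and_not_dvd _ hP0 0
  set a := x.charpoly.rootMultiplicity 0 with ha
  rw [map_zero, sub_zero] at hq hnd
  have hco : IsCoprime ((X : F[X]) ^ (a + 1)) q :=
    ((Polynomial.irreducible_X).coprime_iff_not_dvd.2 hnd).pow_left
  obtain ⟨u, v, huv⟩ := hco
  have hCH : aeval x (X ^ a * q) = 0 := by
    rw [← hq]; exact LinearMap.aeval_self_charpoly x
  set e : Module.End F M := aeval x (u * X ^ (a + 1)) with he
  have hid : IsIdempotentElem e := by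
    have h1 : (u * X ^ (a + 1)) * (u * X ^ (a + 1)) =
        u * X ^ (a + 1) - (u * v * X) * (X ^ a * q) := by
      have : u * X ^ (a + 1) = 1 - v * q := by rw [← huv]; ring
      calc (u * X ^ (a + 1)) * (u * X ^ (a + 1)) = (u * X ^ (a + 1)) * (1 - v * q) := by
            rw [this]
        _ = u * X ^ (a + 1) - (u * v * X) * (X ^ a * q) := by ring
    show e * e = e
    rw [he, ← map_mul, h1, map_sub, map_mul _ (u * v * X), hCH, mul_zero, sub_zero]
  have htr : LinearMap.trace F M e = 0 := by
    have h1 : u * X ^ (a + 1) = X * (u * X ^ a) := by ring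
    rw [he, h1, map_mul, aeval_X]
    exact trace_mul_aeval x h _
  have he0 : e = 0 := (LinearMap.IsIdempotentElem.trace_eq_zero_iff hid).1 htr
  refine ⟨a, ?_⟩
  have h2 : X ^ a = X ^ a * (u * X ^ (a + 1)) + v * (X ^ a * q) := by
    calc (X : F[X]) ^ a = X ^ a * (u * X ^ (a + 1) + v * q) := by rw [huv, mul_one]
      _ = _ := by ring
  calc x ^ a = aeval x ((X : F[X]) ^ a) := by rw [map_pow, aeval_X]
    _ = aeval x ((X : F[X]) ^ a) * e + aeval x v * aeval x (X ^ a * q) := by
        conv_lhs => rw [h2]
        rw [map_add, map_mul, map_mul _ v]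
    _ = 0 := by rw [he0, hCH, mul_zero, mul_zero, add_zero]

end nil

theorem nil : Pool.Agent.N696.LI.S_nil := by
  intro m M h
  have h1 : IsNilpotent (Matrix.toLin' M) := by
    apply nil_of_trace
    intro k hk
    rw [← Matrix.toLin'_pow, Matrix.trace_toLin'_eq]
    exact h k hk
  obtain ⟨k, hk⟩ := h1
  refine ⟨k, ?_⟩
  rw [← Matrix.toLin'_pow] at hk
  exact (LinearEquiv.map_eq_zero_iff _).1 hk

end Pool.Agent.N696.LI.Nil
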