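import Pool.Agent.N696.LI.Stm

/-!
# Project LI, part POLY2 (helper897)
If all Reeb vectors lie in `v`, then the bordered determinant depends only on the restriction
to `v`.
-/

set_option autoImplicit false

namespace Pool.Agent.N696.LI.Poly2

open Topology MvPolynomial

/-! ### polynomial functions are differentiable -/

theorem diff_eval {n : ℕ} (P : MvPolynomial (Fin n) ℝ) :
    Differentiable ℝ (fun x : Fin n → ℝ => eval x P) := by
  induction P using MvPolynomial.induction_on with
  | C a =>
    simp only [eval_C]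
    exact differentiable_const a
  | add p q hp hq =>
    simp only [map_add]
    exact hp.add hq
  | mul_X p i hp =>
    simp only [map_mul, eval_X]
    exact hp.mul (differentiable_apply i)

section

variable {A : Type} [NormedRing A] [NormedAlgebra ℝ A] [FiniteDimensional ℝ A]

/-- conjugation as a linear map -/
noncomputable def cjL (g : Aˣ) : A →ₗ[ℝ] A :=
  (LinearMap.mulLeft ℝ (g : A)).comp (LinearMap.mulRight ℝ ((g⁻¹ : Aˣ) : A))

omit [FiniteDimensional ℝ A] in
theorem cjL_apply (g : Aˣ) (x : A) : cjL g x = cj g x := by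
  unfold cjL cj
  rw [LinearMap.comp_apply, LinearMap.mulRight_apply, LinearMap.mulLeft_apply, mul_assoc]

omit [NormedAlgebra ℝ A] [FiniteDimensional ℝ A] in
theorem cj_br (g : Aˣ) (x y : A) : cj g (br x y) = br (cj g x) (cj g y) := by
  unfold cj br
  have h : ((g⁻¹ : Aˣ) : A) * (g : A) = 1 := Units.inv_mul g
  have e1 : (g : A) * x * ((g⁻¹ : Aˣ) : A) * ((g : A) * y * ((g⁻¹ : Aˣ) : A)) =
      (g : A) * (x * y) * ((g⁻¹ : Aˣ) : A) := by
    rw [mul_assoc ((g : A) * x), ← mul_assoc ((g⁻¹ : Aˣ) : A), ← mul_assoc ((g⁻¹ : Aˣ) : A), h,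
      one_mul]
    noncomm_ring
  have e2 : (g : A) * y * ((g⁻¹ : Aˣ) : A) * ((g : A) * x * ((g⁻¹ : Aˣ) : A)) =
      (g : A) * (y * x) * ((g⁻¹ : Aˣ) : A) := by
    rw [mul_assoc ((g : A) * y), ← mul_assoc ((g⁻¹ : Aˣ) : A), ← mul_assoc ((g⁻¹ : Aˣ) : A), h,
      one_mul]
    noncomm_ring
  rw [e1, e2]
  noncomm_ring

theorem deriv_conj (X y : A) :
    HasDerivAt (fun s : ℝ => NormedSpace.exp (s • X) * y * NormedSpace.exp (s • (-X)))
      (br X y) 0 := by
  have _ : CompleteSpace A := FiniteDimensional.complete ℝ A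
  have h1 := hasDerivAt_exp_smul_const (𝕂 := ℝ) X 0
  have h2 := hasDerivAt_exp_smul_const (𝕂 := ℝ) (-X) 0
  have h3 := (h1.mul_const y).mul h2
  rw [zero_smul, zero_smul, NormedSpace.exp_zero, one_mul, one_mul] at h3
  have e : X * y * NormedSpace.exp ((0 : ℝ) • (-X)) +
      NormedSpace.exp ((0 : ℝ) • X) * y * (-X) = br X y := by
    rw [zero_smul, zero_smul, NormedSpace.exp_zero]
    unfold br
    noncomm_ring
  simp only [zero_smul, NormedSpace.exp_zero] at e
  refine (h3.congr_deriv ?_)
  simpa using e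

/-- the exponential as a unit -/
noncomputable def expU (X : A) (s : ℝ) : Aˣ where
  val := NormedSpace.exp (s • X)
  inv := NormedSpace.exp (s • (-X))
  val_inv := by
    have _ : CompleteSpace A := FiniteDimensional.complete ℝ A
    have _ : NormedAlgebra ℚ A := NormedAlgebra.restrictScalars ℚ ℝ A
    rw [← NormedSpace.exp_add_of_commute]
    · rw [← smul_add, add_neg_cancel, smul_zero, NormedSpace.exp_zero]
    · exact ((Commute.refl X).neg_right).smul_left s |>.smul_right s
  inv_val := by
    have _ : CompleteSpace A := FiniteDimensional.complete ℝ A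
    have _ : NormedAlgebra ℚ A := NormedAlgebra.restrictScalars ℚ ℝ A
    rw [← NormedSpace.exp_add_of_commute]
    · rw [← smul_add, neg_add_cancel, smul_zero, NormedSpace.exp_zero]
    · exact ((Commute.refl X).neg_left).smul_left s |>.smul_right s

/-- duality: a functional which vanishes on the radical of an alternating form is represented -/
theorem exists_rep {E : Type} [AddCommGroup E] [Module ℝ E] [FiniteDimensional ℝ E]
    (Φ : E →ₗ[ℝ] Module.Dual ℝ E) (φ : Module.Dual ℝ E) (h : ∀ Z, Φ Z = 0 → φ Z = 0) :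
    ∃ X : E, ∀ Y, φ Y = Φ Y X := by
  have h1 : φ ∈ (LinearMap.ker Φ).dualAnnihilator := by
    rw [Submodule.mem_dualAnnihilator]
    intro Z hZ
    exact h Z (LinearMap.mem_ker.1 hZ)
  rw [← LinearMap.range_dualMap_eq_dualAnnihilator_ker] at h1
  obtain ⟨ψ, hψ⟩ := LinearMap.mem_range.1 h1
  refine ⟨(Module.evalEquiv ℝ E).symm ψ, fun Y => ?_⟩
  rw [← hψ, LinearMap.dualMap_apply]
  have h2 : ψ = (Module.evalEquiv ℝ E) ((Module.evalEquiv ℝ E).symm ψ) :=
    ((Module.evalEquiv ℝ E).apply_symm_apply ψ).symm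
  conv_lhs => rw [h2]
  rw [Module.evalEquiv_apply, Module.Dual.eval_apply]

/-- the main claim -/
theorem claim {𝔤 v : Submodule ℝ A} (hlie : ∀ X ∈ 𝔤, ∀ Y ∈ 𝔤, br X Y ∈ 𝔤)
    (hreeb : ∀ β ξ, IsContact 𝔤 β ξ → ξ ∈ v)
    {n : ℕ} (e : Module.Basis (Fin n) ℝ 𝔤) (P : MvPolynomial (Fin n) ℝ)
    (hP : ∀ β : A →ₗ[ℝ] ℝ, eval (fun i => β (e i)) P ≠ 0 ↔ ∃ ξ, IsContact 𝔤 β ξ)
    (hinv : ∀ g ∈ grp 𝔤, ∀ β : A →ₗ[ℝ] ℝ,
      eval (fun i => β (cj g (e i))) P = eval (fun i => β (e i)) P)
    (β β' : A →ₗ[ℝ] ℝ) (hββ' : ∀ x ∈ v, β x = β' x) :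
    eval (fun i => β (e i)) P = eval (fun i => β' (e i)) P := by
  set δ : A →ₗ[ℝ] ℝ := β' - β with hδ
  set q : Fin n → ℝ := fun i => δ (e i) with hq
  set G : (Fin n → ℝ) → ℝ := fun x => eval x P with hG
  have hGd : Differentiable ℝ G := diff_eval P
  set F : Polynomial ℝ := MvPolynomial.aeval
    (fun i => Polynomial.C (β (e i)) + Polynomial.X * Polynomial.C (q i)) P with hF
  have hFe : ∀ t : ℝ, F.eval t = G (fun i => β (e i) + t * q i) := by
    intro t
    rw [hF, hG]
    have h1 : (Polynomial.aeval t : Polynomial ℝ →ₐ[ℝ] ℝ).comp (MvPolynomial.aeval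
        (fun i => Polynomial.C (β (e i)) + Polynomial.X * Polynomial.C (q i))) =
        MvPolynomial.aeval (fun i => β (e i) + t * q i) := by
      apply MvPolynomial.algHom_ext
      intro i
      simp
      ring
    have h2 := congrArg (fun φ : MvPolynomial (Fin n) ℝ →ₐ[ℝ] ℝ => φ P) h1
    simp only [AlgHom.comp_apply] at h2
    rw [← Polynomial.coe_aeval_eq_eval]
    rw [h2]
    rfl
  -- the derivative vanishes where the polynomial does not
  have key : ∀ t : ℝ, F.eval t ≠ 0 → F.derivative.eval t = 0 := by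
    intro t ht
    set βt : A →ₗ[ℝ] ℝ := β + t • δ with hβt
    have hpt : (fun i => βt (e i)) = fun i => β (e i) + t * q i := by
      funext i
      rw [hβt, LinearMap.add_apply, LinearMap.smul_apply, smul_eq_mul]
    obtain ⟨ξ, hξ⟩ : ∃ ξ, IsContact 𝔤 βt ξ := by
      rw [← hP, hpt]
      rw [hFe] at ht
      exact ht
    have hξv : ξ ∈ v := hreeb βt ξ hξ
    have hδξ : δ ξ = 0 := by
      rw [hδ, LinearMap.sub_apply, hββ' ξ hξv, sub_self]
    -- the form
    let Φ : 𝔤 →ₗ[ℝ] Module.Dual ℝ 𝔤 := LinearMap.mk₂ ℝ (fun Z Y : 𝔤 => βt (br (Z : A) Y))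
      (by intro a b c; simp only [br, Submodule.coe_add]; rw [← map_add]; congr 1; noncomm_ring)
      (by intro r a b; simp only [br, Submodule.coe_smul, smul_mul_assoc, mul_smul_comm]
          rw [← smul_sub, map_smul])
      (by intro a b c; simp only [br, Submodule.coe_add]; rw [← map_add]; congr 1; noncomm_ring)
      (by intro r a b; simp only [br, Submodule.coe_smul, smul_mul_assoc, mul_smul_comm]
          rw [← smul_sub, map_smul])
    have hΦ : ∀ Z Y : 𝔤, Φ Z Y = βt (br (Z : A) Y) := fun _ _ => rfl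
    obtain ⟨X, hX⟩ := exists_rep Φ (δ.comp 𝔤.subtype) (by
      intro Z hZ
      obtain ⟨c, hc⟩ := hξ.uniq Z Z.2 (by
        intro Y hY
        have := congrArg (fun φ => φ (⟨Y, hY⟩ : 𝔤)) hZ
        simpa [hΦ] using this)
      rw [LinearMap.comp_apply, Submodule.subtype_apply, hc, map_smul, hδξ, smul_zero])
    have hX' : ∀ i, βt (br (X : A) (e i)) = -(q i) := by
      intro i
      have h1 := hX (e i)
      rw [LinearMap.comp_apply, Submodule.subtype_apply, hΦ] at h1
      have h2 : br (X : A) (e i) = -br (e i : A) X := by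
        unfold br
        noncomm_ring
      rw [h2, map_neg, ← h1]
    -- the orbit
    set L := fderiv ℝ G (fun i => βt (e i)) with hL
    have hLd : HasFDerivAt G L (fun i => βt (e i)) := (hGd _).hasFDerivAt
    have hq1 : HasDerivAt (fun s : ℝ => fun i => βt (cj (expU (X : A) s) (e i)))
        (fun i => -(q i)) 0 := by
      rw [hasDerivAt_pi]
      intro i
      have h1 := (deriv_conj (X : A) (e i : A))
      have h2 := (LinearMap.toContinuousLinearMap βt).hasFDerivAt.comp_hasDerivAt (0 : ℝ) h1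
      rw [LinearMap.coe_toContinuousLinearMap', hX' i] at h2
      exact h2
    have hq0 : (fun i => βt (cj (expU (X : A) 0) (e i))) = fun i => βt (e i) := by
      funext i
      congr 1
      show NormedSpace.exp ((0 : ℝ) • (X : A)) * (e i : A) *
        NormedSpace.exp ((0 : ℝ) • (-(X : A))) = e i
      rw [zero_smul, zero_smul, NormedSpace.exp_zero, one_mul, mul_one]
    have hφ : HasDerivAt (fun s : ℝ => G (fun i => βt (cj (expU (X : A) s) (e i))))
        (L (fun i => -(q i))) 0 := by
      have h1 : HasFDerivAt G L (fun i => βt (cj (expU (X : A) 0) (e i))) := by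
        rw [hq0]
        exact hLd
      exact h1.comp_hasDerivAt (0 : ℝ) hq1
    have hmem : ∀ s : ℝ, expU (X : A) s ∈ grp 𝔤 := by
      intro s
      exact Subgroup.subset_closure ⟨s • (X : A), 𝔤.smul_mem s X.2, rfl⟩
    have hconst : (fun s : ℝ => G (fun i => βt (cj (expU (X : A) s) (e i)))) =
        fun _ => G (fun i => βt (e i)) := by
      funext s
      exact hinv _ (hmem s) βt
    rw [hconst] at hφ
    have hL0 : L (fun i => -(q i)) = 0 := hφ.unique (hasDerivAt_const _ _)
    have hLq : L q = 0 := by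
      have h1 : (fun i => -(q i)) = -q := rfl
      rw [h1, map_neg, neg_eq_zero] at hL0
      exact hL0
    -- the line
    have hline : HasDerivAt (fun u : ℝ => (fun i => β (e i) + u * q i)) q t := by
      rw [hasDerivAt_pi]
      intro i
      have := ((hasDerivAt_id t).mul_const (q i)).const_add (β (e i))
      simpa using this
    have h3 : HasDerivAt (fun u : ℝ => G (fun i => β (e i) + u * q i)) (L q) t := by
      have h4 : HasFDerivAt G L (fun i => β (e i) + t * q i) := by
        rw [← hpt]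
        exact hLd
      exact h4.comp_hasDerivAt t hline
    have h5 : HasDerivAt (fun u : ℝ => F.eval u) (F.derivative.eval t) t :=
      Polynomial.hasDerivAt F t
    have h6 : (fun u : ℝ => F.eval u) = fun u : ℝ => G (fun i => β (e i) + u * q i) :=
      funext hFe
    rw [h6] at h5
    rw [h5.unique h3, hLq]
  have hprod : F * F.derivative = 0 := by
    apply Polynomial.funext
    intro t
    rw [Polynomial.eval_mul, Polynomial.eval_zero]
    by_cases ht : F.eval t = 0
    · rw [ht, zero_mul]
    · rw [key t ht, mul_zero]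
  have hcst : ∀ t : ℝ, F.eval t = F.eval 0 := by
    intro t
    rcases mul_eq_zero.1 hprod with h | h
    · rw [h, Polynomial.eval_zero, Polynomial.eval_zero]
    · have h1 := Polynomial.derivative_eq_zero.1 h
      rw [Polynomial.eq_C_of_natDegree_eq_zero h1, Polynomial.eval_C, Polynomial.eval_C]
  have h1 := hcst 1
  rw [hFe, hFe] at h1
  have e1 : (fun i => β (e i) + 1 * q i) = fun i => β' (e i) := by
    funext i
    rw [hq, hδ]
    simp
  have e0 : (fun i => β (e i) + 0 * q i) = fun i => β (e i) := by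
    funext i
    simp
  rw [e1, e0] at h1
  exact h1.symm

end

theorem poly2 (h1 : S_poly1) : S_poly2 := by
  intro A _ _ _ 𝔤 v hlie hv hreeb hconj hdet m b hb hspan hm
  -- a basis
  have hbg : ∀ i, b i ∈ 𝔤 := fun i => hv (by rw [← hspan]; exact Submodule.subset_span ⟨i, rfl⟩)
  let b' : Fin m → 𝔤 := fun i => ⟨b i, hbg i⟩
  have hb' : LinearIndependent ℝ b' := by
    have : LinearIndependent ℝ (𝔤.subtype ∘ b') := hb
    exact LinearIndependent.of_comp _ this
  let B := Module.Basis.sumExtend hb'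
  have hBl : ∀ j, B (Sum.inl j) = b' j := by
    intro j
    simp only [B, Module.Basis.sumExtend, Module.Basis.reindex_apply,
      Module.Basis.extend_apply_self]
    rfl
  have hfin : Finite (Fin m ⊕ Module.Basis.sumExtendIndex hb') := Module.Finite.finite_basis B
  have : Fintype (Fin m ⊕ Module.Basis.sumExtendIndex hb') := Fintype.ofFinite _
  let n := Fintype.card (Fin m ⊕ Module.Basis.sumExtendIndex hb')
  let σ : (Fin m ⊕ Module.Basis.sumExtendIndex hb') ≃ Fin n := Fintype.equivFin _
  have hn : 1 ≤ n := by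
    have h2 : 0 < n := Fintype.card_pos_iff.2 ⟨Sum.inl ⟨0, hm⟩⟩
    exact h2
  let e : Module.Basis (Fin n) ℝ 𝔤 := B.reindex σ
  have he : ∀ j, e (σ (Sum.inl j)) = b' j := by
    intro j
    rw [Module.Basis.reindex_apply, Equiv.symm_apply_apply, hBl]
  obtain ⟨P, hPh, hPc, hPi⟩ := h1 A 𝔤 hlie n e
  have hinv : ∀ g ∈ grp 𝔤, ∀ β : A →ₗ[ℝ] ℝ,
      eval (fun i => β (cj g (e i))) P = eval (fun i => β (e i)) P := by
    intro g hg β
    let C : 𝔤 →ₗ[ℝ] 𝔤 := (cjL g).restrict (fun x hx => by rw [cjL_apply]; exact hconj g hg x hx)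
    have hC : ∀ Y : 𝔤, (C Y : A) = cj g Y := by
      intro Y
      rw [← cjL_apply]
      rfl
    have h2 := hPi C (by
      intro X Y Z hZ
      rw [hC, hC, hC, hZ, cj_br]) (hdet g hg C hC) β
    simp only [hC] at h2
    exact h2
  have hcl := claim hlie hreeb e P hPc hinv
  let f : Fin n → MvPolynomial (Fin m) ℝ := fun i =>
    Sum.elim (fun j => X j) (fun _ => 0) (σ.symm i)
  have hf : ∀ i, (f i).IsHomogeneous 1 := by
    intro i
    show (Sum.elim (fun j => X j) (fun _ => 0) (σ.symm i) : MvPolynomial (Fin m) ℝ).IsHomogeneous 1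
    rcases σ.symm i with j | j
    · exact isHomogeneous_X ℝ j
    · exact isHomogeneous_zero _ _ _
  have hval : ∀ β : A →ₗ[ℝ] ℝ, eval (fun i => β (b i)) (MvPolynomial.aeval f P) =
      eval (fun i => β (e i)) P := by
    intro β
    let w : Fin n → ℝ := fun i => Sum.elim (fun j => β (b j)) (fun _ => 0) (σ.symm i)
    obtain ⟨β', hβ'⟩ := LinearMap.exists_extend (e.constr ℝ w)
    have hβe : ∀ i, β' (e i) = w i := by
      intro i
      have h2 := congrArg (fun φ : 𝔤 →ₗ[ℝ] ℝ => φ (e i)) hβ'
      simp only [LinearMap.comp_apply, Submodule.subtype_apply] at h2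
      rw [h2, Module.Basis.constr_basis]
    have hvv : ∀ x ∈ v, β' x = β x := by
      intro x hx
      rw [← hspan] at hx
      have hle : Submodule.span ℝ (Set.range b) ≤ LinearMap.eqLocus β' β := by
        rw [Submodule.span_le]
        rintro _ ⟨j, rfl⟩
        show β' (b j) = β (b j)
        have h2 := hβe (σ (Sum.inl j))
        rw [he] at h2
        rw [show β' (b j) = β' (b' j : A) from rfl, h2]
        show Sum.elim (fun j => β (b j)) (fun _ => 0) (σ.symm (σ (Sum.inl j))) = β (b j)
        rw [Equiv.symm_apply_apply]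
        rfl
      exact hle hx
    rw [← hcl β' β hvv]
    simp only [hβe]
    have h3 : (MvPolynomial.aeval (fun i => β (b i)) : MvPolynomial (Fin m) ℝ →ₐ[ℝ] ℝ).comp
        (MvPolynomial.aeval f) = MvPolynomial.aeval w := by
      apply MvPolynomial.algHom_ext
      intro i
      rw [AlgHom.comp_apply, aeval_X, aeval_X]
      show MvPolynomial.aeval (fun i => β (b i))
        (Sum.elim (fun j => X j) (fun _ => 0) (σ.symm i) : MvPolynomial (Fin m) ℝ) =
        Sum.elim (fun j => β (b j)) (fun _ => 0) (σ.symm i)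
      rcases σ.symm i with j | j
      · simp
      · simp
    have h4 := congrArg (fun φ : MvPolynomial (Fin n) ℝ →ₐ[ℝ] ℝ => φ P) h3
    simp only [AlgHom.comp_apply] at h4
    exact h4
  refine ⟨n + 1, MvPolynomial.aeval f P, by omega, ?_, ?_, ?_⟩
  · have := hPh.aeval f hf
    rwa [one_mul] at this
  · intro β
    rw [hval β]
    exact hPc β
  · intro g hg β
    have h2 := hval (β.comp (cjL g))
    simp only [LinearMap.comp_apply, cjL_apply] at h2
    rw [h2, hinv g hg β, hval β]

end Pool.Agent.N696.LI.Poly2
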