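import Pool.Agent.N696.LI.Stm

/-! Project LI, part RAT: the rational part of an invariant polynomial. -/

set_option autoImplicit false

namespace Pool.Agent.N696.LI.Rat

open MvPolynomial

/-- Apply the additive map `c` to all coefficients. -/
noncomputable def cm {m : ℕ} (c : ℝ →ₗ[ℚ] ℚ) (p : MvPolynomial (Fin m) ℝ) :
    MvPolynomial (Fin m) ℚ := ∑ a ∈ p.support, monomial a (c (coeff a p))

theorem coeff_cm {m : ℕ} (c : ℝ →ₗ[ℚ] ℚ) (p : MvPolynomial (Fin m) ℝ) (a : Fin m →₀ ℕ) :
    coeff a (cm c p) = c (coeff a p) := by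
  classical
  unfold cm
  rw [coeff_sum]
  simp only [coeff_monomial]
  rw [Finset.sum_ite_eq' p.support a (fun x => c (coeff x p))]
  split_ifs with h
  · rfl
  · rw [notMem_support_iff.mp h, map_zero]

theorem cm_add {m : ℕ} (c : ℝ →ₗ[ℚ] ℚ) (p q : MvPolynomial (Fin m) ℝ) :
    cm c (p + q) = cm c p + cm c q := by
  ext a
  simp only [coeff_cm, coeff_add, map_add]

theorem cm_mul {m : ℕ} (c : ℝ →ₗ[ℚ] ℚ) (p : MvPolynomial (Fin m) ℝ)
    (r : MvPolynomial (Fin m) ℚ) :
    cm c (p * MvPolynomial.map (algebraMap ℚ ℝ) r) = cm c p * r := by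
  classical
  ext a
  rw [coeff_cm, coeff_mul, coeff_mul, map_sum]
  refine Finset.sum_congr rfl fun x _ => ?_
  rw [coeff_cm, coeff_map]
  have h : coeff x.1 p * (algebraMap ℚ ℝ) (coeff x.2 r) = (coeff x.2 r) • coeff x.1 p := by
    rw [Algebra.smul_def, mul_comm]
  rw [h, map_smul, smul_eq_mul, mul_comm]

theorem cm_C {m : ℕ} (c : ℝ →ₗ[ℚ] ℚ) (t : ℝ) :
    cm c (C t : MvPolynomial (Fin m) ℝ) = C (c t) := by
  classical
  ext a
  rw [coeff_cm, coeff_C, coeff_C]
  split_ifs
  · rfl
  · exact map_zero c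

theorem cm_aeval {m : ℕ} (c : ℝ →ₗ[ℚ] ℚ) (L : Fin m → MvPolynomial (Fin m) ℚ)
    (p : MvPolynomial (Fin m) ℝ) :
    cm c (aeval (fun i => MvPolynomial.map (algebraMap ℚ ℝ) (L i)) p) = aeval L (cm c p) := by
  classical
  induction p using MvPolynomial.induction_on' with
  | monomial u a =>
    have h1 : aeval (fun i => MvPolynomial.map (algebraMap ℚ ℝ) (L i)) (monomial u a) =
        C a * MvPolynomial.map (algebraMap ℚ ℝ) (u.prod fun i k => L i ^ k) := by
      rw [aeval_monomial, algebraMap_eq]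
      congr 1
      rw [map_finsuppProd]
      refine Finsupp.prod_congr fun i _ => ?_
      rw [map_pow]
    have h2 : cm c (monomial u a) = monomial u (c a) := by
      ext b
      rw [coeff_cm, coeff_monomial, coeff_monomial]
      split_ifs
      · rfl
      · exact map_zero c
    rw [h1, cm_mul, cm_C, h2, aeval_monomial, algebraMap_eq]
  | add p q hp hq => rw [map_add, cm_add, hp, hq, cm_add, map_add]

theorem eval_aeval' {m : ℕ} (N : Fin m → MvPolynomial (Fin m) ℝ) (p : MvPolynomial (Fin m) ℝ)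
    (ν : Fin m → ℝ) : eval ν (aeval N p) = eval (fun i => eval ν (N i)) p := by
  rw [← coe_aeval_eq_eval, ← coe_aeval_eq_eval]
  change (aeval ν) ((aeval N) p) = _
  have h : (aeval ν).comp (aeval N) = aeval (R := ℝ) (fun i => aeval ν (N i)) := by
    ext i
    simp
  have h2 := congrArg (fun φ => φ p) h
  simpa using h2

theorem rat : S_rat := by
  classical
  intro m d Γ Q hint hne hhom hinv
  obtain ⟨a, ha⟩ := MvPolynomial.ne_zero_iff.mp hne
  obtain ⟨c, hc⟩ : ∃ c : ℝ →ₗ[ℚ] ℚ, c (coeff a Q) ≠ 0 := by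
    by_contra hcon
    push Not at hcon
    exact ha ((Module.forall_dual_apply_eq_zero_iff ℚ (coeff a Q)).mp hcon)
  refine ⟨cm c Q, ?_, ?_, ?_⟩
  · intro h0
    apply hc
    rw [← coeff_cm, h0, coeff_zero]
  · intro b hb
    refine hhom (d := b) ?_
    intro h0
    apply hb
    rw [coeff_cm, h0, map_zero]
  · intro γ hγ ν
    choose z hz using hint γ hγ
    set L : Fin m → MvPolynomial (Fin m) ℚ := fun i => ∑ j, C (z i j : ℚ) * X j with hL
    have hmapL : ∀ i, MvPolynomial.map (algebraMap ℚ ℝ) (L i) = ∑ j, C ((γ : Mat m) i j) * X j := by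
      intro i
      rw [hL]
      simp only [map_sum, map_mul, map_C, map_X]
      refine Finset.sum_congr rfl fun j _ => ?_
      rw [hz i j]
      simp
    have hevL : ∀ (ν : Fin m → ℝ), (fun i => eval ν (MvPolynomial.map (algebraMap ℚ ℝ) (L i))) =
        (γ : Mat m).mulVec ν := by
      intro ν
      funext i
      rw [hmapL i]
      simp [Matrix.mulVec, dotProduct]
    have hQ : aeval (fun i => MvPolynomial.map (algebraMap ℚ ℝ) (L i)) Q = Q := by
      refine MvPolynomial.funext fun ν => ?_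
      rw [eval_aeval', hevL, hinv γ hγ ν]
    have hq : aeval L (cm c Q) = cm c Q := by
      rw [← cm_aeval, hQ]
    have hmap : ∀ q : MvPolynomial (Fin m) ℚ,
        MvPolynomial.map (algebraMap ℚ ℝ) (aeval L q) =
          aeval (fun i => MvPolynomial.map (algebraMap ℚ ℝ) (L i))
            (MvPolynomial.map (algebraMap ℚ ℝ) q) := by
      intro q
      induction q using MvPolynomial.induction_on with
      | C a => simp
      | add p q hp hq => simp only [map_add, hp, hq]
      | mul_X p i hp => simp only [map_mul, hp, aeval_X, map_X]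
    rw [← hevL, ← eval_aeval', ← hmap, hq]

end Pool.Agent.N696.LI.Rat
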