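import Pool.Agent.N696.LI.Stm

/-! Project LI, part RC: if all polynomials invariant under the lattice are invariant under the
group, then rational Reeb vectors are dense. -/

set_option autoImplicit false

namespace Pool.Agent.N696.LI.Rc

open Topology MvPolynomial

variable {m : ℕ}

/-- the chain rule for polynomials along a curve -/
lemma deriv_eval (f : MvPolynomial (Fin m) ℝ) (γ : ℝ → Fin m → ℝ) (γ' : Fin m → ℝ) (t : ℝ)
    (h : HasDerivAt γ γ' t) :
    HasDerivAt (fun s => eval (γ s) f) (∑ i, eval (γ t) (pderiv i f) * γ' i) t := by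
  have hi : ∀ i, HasDerivAt (fun s => γ s i) (γ' i) t := hasDerivAt_pi.1 h
  induction f using MvPolynomial.induction_on with
  | C a =>
    simp only [eval_C, pderiv_C, map_zero, zero_mul, Finset.sum_const_zero]
    exact hasDerivAt_const _ _
  | add p q hp hq =>
    simp only [map_add, add_mul, Finset.sum_add_distrib]
    exact hp.add hq
  | mul_X p j hp =>
    have h1 := hp.mul (hi j)
    have h2 : ∑ i, eval (γ t) (pderiv i (p * X j)) * γ' i =
        (∑ i, eval (γ t) (pderiv i p) * γ' i) * γ t j + eval (γ t) p * γ' j := by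
      simp only [pderiv_mul, pderiv_X, map_add, map_mul, eval_X, add_mul, Finset.sum_add_distrib]
      congr 1
      · rw [Finset.sum_mul]
        refine Finset.sum_congr rfl fun i _ => ?_
        ring
      · rw [Finset.sum_eq_single j]
        · simp
        · intro i _ hij
          rw [Pi.single_apply, if_neg (Ne.symm hij)]
          simp
        · intro hj
          exact absurd (Finset.mem_univ j) hj
    rw [h2]
    simp only [map_mul, eval_X]
    exact h1

section
attribute [local instance] Matrix.linftyOpNormedRing Matrix.linftyOpNormedAlgebra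

/-- the derivative of an exponential curve -/
lemma deriv_exp (B : Mat m) (v : Fin m → ℝ) :
    HasDerivAt (fun t : ℝ => (NormedSpace.exp (t • B)).mulVec v) (B.mulVec v) 0 := by
  have h1 : HasDerivAt (fun t : ℝ => NormedSpace.exp (t • B)) (NormedSpace.exp ((0 : ℝ) • B) * B) 0 :=
    hasDerivAt_exp_smul_const B 0
  rw [zero_smul, NormedSpace.exp_zero, one_mul] at h1
  let L : Mat m →ₗ[ℝ] (Fin m → ℝ) :=
    { toFun := fun M => M.mulVec v
      map_add' := fun M N => Matrix.add_mulVec M N v
      map_smul' := fun c M => Matrix.smul_mulVec c M v }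
  have h2 : HasFDerivAt L.toContinuousLinearMap L.toContinuousLinearMap
      (NormedSpace.exp ((0 : ℝ) • B)) := L.toContinuousLinearMap.hasFDerivAt
  exact h2.comp_hasDerivAt 0 h1

/-- the exponential of a matrix plus a scalar -/
lemma exp_scalar_add (s : ℝ) (B : Mat m) :
    NormedSpace.exp (s • (1 : Mat m) + B) = Real.exp s • NormedSpace.exp B := by
  have h1 : Commute (s • (1 : Mat m)) B := by
    unfold Commute SemiconjBy
    rw [smul_mul_assoc, mul_smul_comm, one_mul, mul_one]
  have h2 : NormedSpace.exp (s • (1 : Mat m)) = Real.exp s • (1 : Mat m) := by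
    have h3 := NormedSpace.algebraMap_exp_comm (𝔸 := Mat m) s
    rw [Algebra.algebraMap_eq_smul_one, Algebra.algebraMap_eq_smul_one] at h3
    rw [Real.exp_eq_exp_ℝ]
    exact h3.symm
  rw [Matrix.exp_add_of_commute _ _ h1, h2, smul_mul_assoc, one_mul]

end

/-- a nonzero rational polynomial does not vanish at some rational point of every open set -/
lemma dense_ne {q : MvPolynomial (Fin m) ℚ} (hq : q ≠ 0) (ν : Fin m → ℝ)
    (V : Set (Fin m → ℝ)) (hV : V ∈ 𝓝 ν) :
    ∃ p : Fin m → ℚ, (fun i => (p i : ℝ)) ∈ V ∧ eval p q ≠ 0 := by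
  obtain ⟨ε, hε, hb⟩ := Metric.mem_nhds_iff.1 hV
  by_contra hcon
  push Not at hcon
  apply hq
  refine MvPolynomial.funext_set (fun i : Fin m => {r : ℚ | |(r : ℝ) - ν i| < ε}) ?_ ?_
  · intro i hfin
    obtain ⟨r0, h1, h2⟩ := exists_rat_btwn (show ν i - ε < ν i by linarith)
    obtain ⟨r1, h3, h4⟩ := exists_rat_btwn (show ν i < ν i + ε by linarith)
    have h5 : r0 < r1 := by
      have : (r0 : ℝ) < r1 := h2.trans h3
      exact_mod_cast this
    refine (Set.Ioo_infinite h5) (hfin.subset ?_)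
    intro x hx
    have hx1 : (r0 : ℝ) < x := by exact_mod_cast hx.1
    have hx2 : (x : ℝ) < r1 := by exact_mod_cast hx.2
    show |(x : ℝ) - ν i| < ε
    rw [abs_lt]
    constructor <;> linarith
  · intro x hx
    rw [map_zero]
    apply hcon
    apply hb
    rw [Metric.mem_ball, dist_pi_lt_iff hε]
    intro i
    rw [Real.dist_eq]
    exact hx i (Set.mem_univ i)

lemma eval_map_rat (q : MvPolynomial (Fin m) ℚ) (p : Fin m → ℚ) :
    eval (fun i => (p i : ℝ)) (MvPolynomial.map (algebraMap ℚ ℝ) q) = ((eval p q : ℚ) : ℝ) := by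
  have h := MvPolynomial.map_eval (algebraMap ℚ ℝ) p q
  rw [eq_ratCast] at h
  rw [h]
  rfl

theorem rc (hopen : S_open) (hrat : S_rat) : S_rc := by
  intro m F _ _ _ D G Γ d Q hLG hLP hinv ν hν U hU
  obtain ⟨q, hq0, hqhom, hqΓ⟩ := hrat m d Γ Q hLG.int hLP.ne hLP.hom
    (fun γ hγ η => hLP.inv γ (hLG.le hγ) η)
  have hqG := hinv (MvPolynomial.map (algebraMap ℚ ℝ) q) hqΓ
  -- the extended map
  let D' : (ℝ × F) →ₗ[ℝ] Mat m :=
    { toFun := fun p => p.1 • (1 : Mat m) + D p.2
      map_add' := by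
        intro p p'
        rw [Prod.fst_add, Prod.snd_add, add_smul, map_add]
        abel
      map_smul' := by
        intro c p
        rw [Prod.smul_fst, Prod.smul_snd, map_smul, smul_eq_mul, mul_smul, RingHom.id_apply, smul_add] }
  have hD' : ∀ (s : ℝ) (X : F), D' (s, X) = s • (1 : Mat m) + D X := fun s X => rfl
  have honto : ∀ y, ∃ p, y = (D' p).mulVec ν := by
    intro y
    obtain ⟨X, c, h⟩ := hLP.good ν hν y
    refine ⟨(c, X), ?_⟩
    rw [hD', Matrix.add_mulVec, Matrix.smul_mulVec, Matrix.one_mulVec, h, add_comm]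
  have hU' : {p : ℝ × F | p.2 ∈ U} ∈ 𝓝 (0 : ℝ × F) := by
    have : Filter.Tendsto (fun p : ℝ × F => p.2) (𝓝 (0 : ℝ × F)) (𝓝 (0 : F)) :=
      continuous_snd.tendsto' _ _ rfl
    exact this hU
  have hV := hopen m (ℝ × F) D' ν honto _ hU'
  obtain ⟨p, ⟨⟨s, X⟩, hX, hp⟩, hqp⟩ := dense_ne hq0 ν _ hV
  rw [hD', exp_scalar_add, Matrix.smul_mulVec] at hp
  have hXU : X ∈ U := hX
  set ν' := (NormedSpace.exp (D X)).mulVec ν with hν'
  have hes : Real.exp (-s) * Real.exp s = 1 := by
    rw [← Real.exp_add, neg_add_cancel, Real.exp_zero]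
  have hν'p : ν' = Real.exp (-s) • (fun i => (p i : ℝ)) := by
    rw [hp, smul_smul, hes, one_smul]
  set x0 : Fin m → ℚ := fun i => eval p (pderiv i q) with hx0
  -- the Reeb property
  have hReeb : Reeb D (fun i => (p i : ℝ)) (fun i => (x0 i : ℝ)) := by
    intro Y
    have h1 := deriv_eval (MvPolynomial.map (algebraMap ℚ ℝ) q)
      (fun t : ℝ => (NormedSpace.exp (t • D Y)).mulVec (fun i => (p i : ℝ))) _ 0
      (deriv_exp (D Y) (fun i => (p i : ℝ)))
    have h2 : (fun t : ℝ => eval ((NormedSpace.exp (t • D Y)).mulVec (fun i => (p i : ℝ)))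
        (MvPolynomial.map (algebraMap ℚ ℝ) q)) =
        fun _ => eval (fun i => (p i : ℝ)) (MvPolynomial.map (algebraMap ℚ ℝ) q) := by
      funext t
      obtain ⟨g, hg, hg'⟩ := hLG.exp_mem (t • Y)
      rw [map_smul] at hg'
      rw [← hg']
      exact hqG g hg _
    rw [h2] at h1
    have h3 := h1.unique (hasDerivAt_const _ _)
    rw [zero_smul, NormedSpace.exp_zero, Matrix.one_mulVec] at h3
    unfold dotProduct
    rw [← h3]
    refine Finset.sum_congr rfl fun i _ => ?_
    rw [pderiv_map, eval_map_rat, hx0, mul_comm]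
  have hReeb' : Reeb D ν' (fun i => (x0 i : ℝ)) := by
    intro Y
    rw [hν'p, Matrix.mulVec_smul, smul_dotProduct, hReeb Y, smul_zero]
  -- Euler
  have hEuler : ∑ i, p i * x0 i = d * eval p q := by
    have h1 := hqhom.sum_X_mul_pderiv
    have h2 := congrArg (eval p) h1
    rw [map_sum] at h2
    simp only [map_mul, eval_X, nsmul_eq_mul, map_natCast] at h2
    exact h2
  have hd : (d : ℚ) ≠ 0 := by
    have := hLP.hd
    exact_mod_cast (by omega : d ≠ 0)
  have hne : (∑ i, p i * x0 i) ≠ 0 := by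
    rw [hEuler]
    exact mul_ne_zero hd hqp
  have hdot : dotProduct ν' (fun i => (x0 i : ℝ)) = Real.exp (-s) * ((∑ i, p i * x0 i : ℚ) : ℝ) := by
    rw [hν'p, smul_dotProduct, smul_eq_mul]
    unfold dotProduct
    push_cast
    rfl
  refine ⟨X, hXU, ?_⟩
  rcases lt_or_gt_of_ne hne with h | h
  · refine ⟨fun i => - x0 i, ?_, ?_⟩
    · have e : (fun i => ((- x0 i : ℚ) : ℝ)) = -(fun i => (x0 i : ℝ)) := by
        funext i
        simp
      rw [e, dotProduct_neg, hdot]
      have h5 : ((∑ i, p i * x0 i : ℚ) : ℝ) < 0 := by exact_mod_cast h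
      have h6 := Real.exp_pos (-s)
      nlinarith
    · intro Y
      have e : (fun i => ((- x0 i : ℚ) : ℝ)) = -(fun i => (x0 i : ℝ)) := by
        funext i
        simp
      rw [e, dotProduct_neg, hReeb' Y, neg_zero]
  · refine ⟨x0, ?_, hReeb'⟩
    rw [hdot]
    have h5 : (0 : ℝ) < ((∑ i, p i * x0 i : ℚ) : ℝ) := by exact_mod_cast h
    exact mul_pos (Real.exp_pos _) h5

end Pool.Agent.N696.LI.Rc
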