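import Pool.Agent.N696.LI.Stm
import Pool.Agent.N696.LI.ExpPoly

/-! Project LI, part REAL. -/

set_option autoImplicit false

namespace Pool.Agent.N696.LI.Real'

open Topology MvPolynomial Pool.Agent.N696.LI

section
attribute [local instance] Matrix.linftyOpNormedRing Matrix.linftyOpNormedAlgebra

/-- The derivative of `exp (t M) w`. -/
theorem hasDerivAt_expVec {m : ℕ} (M : Mat m) (w : Fin m → ℝ) (t : ℝ) :
    HasDerivAt (fun t : ℝ => (NormedSpace.exp (t • M)).mulVec w)
      ((NormedSpace.exp (t • M)).mulVec (M.mulVec w)) t := by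
  have h := hasDerivAt_exp_smul_const M t
  let L : Mat m →ₗ[ℝ] (Fin m → ℝ) :=
    { toFun := fun N => N.mulVec w
      map_add' := fun N N' => Matrix.add_mulVec N N' w
      map_smul' := fun c N => Matrix.smul_mulVec c N w }
  have h2 := (LinearMap.toContinuousLinearMap L).hasFDerivAt.comp_hasDerivAt t h
  refine h2.congr_deriv ?_
  show (NormedSpace.exp (t • M) * M).mulVec w = _
  rw [Matrix.mulVec_mulVec]

end

theorem hasDerivAt_expVec_apply {m : ℕ} (M : Mat m) (w : Fin m → ℝ) (t : ℝ) (i : Fin m) :
    HasDerivAt (fun t : ℝ => (NormedSpace.exp (t • M)).mulVec w i)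
      ((NormedSpace.exp (t • M)).mulVec (M.mulVec w) i) t :=
  (hasDerivAt_pi.1 (hasDerivAt_expVec M w t)) i

/-- The coordinates of `exp (t M) w` are exponential polynomials if `w` is killed by a product of
factors `M - a` with real `a`. -/
theorem ep_vec {m : ℕ} (M : Mat m) (s : List ℝ) : ∀ w : Fin m → ℝ,
    (Polynomial.aeval M (s.map fun a => Polynomial.X - Polynomial.C a).prod).mulVec w = 0 →
    ∀ i, (fun t : ℝ => (NormedSpace.exp (t • M)).mulVec w i) ∈ EP := by
  induction s with
  | nil =>
    intro w hw i
    simp only [List.map_nil, List.prod_nil, map_one, Matrix.one_mulVec] at hw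
    subst hw
    have : (fun t : ℝ => (NormedSpace.exp (t • M)).mulVec (0 : Fin m → ℝ) i) = 0 := by
      funext t; simp
    rw [this]; exact EP.zero_mem
  | cons a s ih =>
    intro w hw i
    have hw' : (Polynomial.aeval M (s.map fun a => Polynomial.X - Polynomial.C a).prod).mulVec
        (M.mulVec w - a • w) = 0 := by
      rw [List.map_cons, List.prod_cons, mul_comm, map_mul] at hw
      rw [← Matrix.mulVec_mulVec] at hw
      have e : (Polynomial.aeval M (Polynomial.X - Polynomial.C a)).mulVec w =
          M.mulVec w - a • w := by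
        simp only [map_sub, Polynomial.aeval_X, Polynomial.aeval_C, Matrix.sub_mulVec]
        congr 1
        rw [Algebra.algebraMap_eq_smul_one, Matrix.smul_mulVec, Matrix.one_mulVec]
      rw [e] at hw
      exact hw
    have h1 := ih _ hw'
    refine EP_ode a (h1 i) fun t => ?_
    refine (hasDerivAt_expVec_apply M w t i).congr_deriv ?_
    rw [Matrix.mulVec_sub, Matrix.mulVec_smul]
    simp

theorem ep_eval {m : ℕ} (y : ℝ → Fin m → ℝ) (hy : ∀ i, (fun t => y t i) ∈ EP)
    (f : MvPolynomial (Fin m) ℝ) : (fun t => eval (y t) f) ∈ EP := by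
  induction f using MvPolynomial.induction_on with
  | C a => simpa using EP_const a
  | add p q hp hq =>
    have := EP.add_mem hp hq
    convert this using 1
    funext t; simp
  | mul_X p i hp =>
    have := EP_mul hp (hy i)
    convert this using 1
    funext t; simp

/-- The derivation of the polynomial ring given by a matrix. -/
noncomputable def der {m : ℕ} (M : Mat m) :
    Derivation ℝ (MvPolynomial (Fin m) ℝ) (MvPolynomial (Fin m) ℝ) :=
  mkDerivation ℝ (fun i => ∑ j, C (M i j) * X j)

theorem der_X {m : ℕ} (M : Mat m) (i : Fin m) :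
    der M (X i) = ∑ j, C (M i j) * X j := by
  simp [der, mkDerivation_X]

theorem der_add {m : ℕ} (M N : Mat m) : der (M + N) = der M + der N := by
  refine MvPolynomial.derivation_ext fun i => ?_
  rw [Derivation.add_apply, der_X, der_X, der_X, ← Finset.sum_add_distrib]
  refine Finset.sum_congr rfl fun j _ => ?_
  rw [Matrix.add_apply, C_add, add_mul]

theorem der_smul {m : ℕ} (c : ℝ) (M : Mat m) : der (c • M) = c • der M := by
  refine MvPolynomial.derivation_ext fun i => ?_
  rw [Derivation.smul_apply, der_X, der_X, Finset.smul_sum]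
  refine Finset.sum_congr rfl fun j _ => ?_
  rw [Matrix.smul_apply, smul_eq_mul, C_mul, MvPolynomial.smul_eq_C_mul, mul_assoc]

theorem der_der_X {m : ℕ} (M N : Mat m) (i : Fin m) :
    der M (der N (X i)) = ∑ j, C ((N * M) i j) * X j := by
  rw [der_X, map_sum]
  have : ∀ j, der M (C (N i j) * X j) = ∑ k, C (N i j * M j k) * X k := by
    intro j
    rw [← MvPolynomial.smul_eq_C_mul, Derivation.map_smul, der_X, Finset.smul_sum]
    refine Finset.sum_congr rfl fun k _ => ?_
    rw [MvPolynomial.smul_eq_C_mul, ← mul_assoc, ← C_mul]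
  simp_rw [this]
  rw [Finset.sum_comm]
  refine Finset.sum_congr rfl fun k _ => ?_
  rw [← Finset.sum_mul, Matrix.mul_apply, map_sum]

theorem der_bracket {m : ℕ} (M N : Mat m) :
    der (M * N - N * M) = ⁅der N, der M⁆ := by
  refine MvPolynomial.derivation_ext fun i => ?_
  rw [Derivation.commutator_apply, der_der_X, der_der_X, der_X, ← Finset.sum_sub_distrib]
  refine Finset.sum_congr rfl fun j _ => ?_
  rw [Matrix.sub_apply, C_sub, sub_mul]

/-- The derivative of a polynomial along `exp (t M) ν`. -/
theorem hasDerivAt_eval {m : ℕ} (M : Mat m) (ν : Fin m → ℝ) (f : MvPolynomial (Fin m) ℝ) (t : ℝ) :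
    HasDerivAt (fun t : ℝ => eval ((NormedSpace.exp (t • M)).mulVec ν) f)
      (eval ((NormedSpace.exp (t • M)).mulVec ν) (der M f)) t := by
  induction f using MvPolynomial.induction_on with
  | C a =>
    simp only [eval_C]
    have : der M (C a) = 0 := by
      have := (der M).map_algebraMap a
      simpa only [MvPolynomial.algebraMap_eq] using this
    rw [this, map_zero]
    exact hasDerivAt_const t a
  | add p q hp hq =>
    simp only [map_add]
    exact hp.add hq
  | mul_X p i hp =>
    have h1 : HasDerivAt (fun t : ℝ => eval ((NormedSpace.exp (t • M)).mulVec ν) (X i))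
        (eval ((NormedSpace.exp (t • M)).mulVec ν) (der M (X i))) t := by
      simp only [eval_X]
      refine (hasDerivAt_expVec_apply M ν t i).congr_deriv ?_
      rw [der_X, map_sum]
      simp only [map_mul, eval_C, eval_X]
      have hc : (NormedSpace.exp (t • M)).mulVec (M.mulVec ν) =
          M.mulVec ((NormedSpace.exp (t • M)).mulVec ν) := by
        rw [Matrix.mulVec_mulVec, Matrix.mulVec_mulVec]
        congr 1
        have : Commute (t • M) M := (Commute.refl M).smul_left t
        exact (this.exp_left).eq
      rw [hc]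
      rfl
    have h2 := hp.mul h1
    simp only [map_mul]
    refine h2.congr_deriv ?_
    rw [Derivation.leibniz]
    simp only [map_add, smul_eq_mul, map_mul]
    ring

theorem der_eq_zero_iff {m : ℕ} (M : Mat m) (f : MvPolynomial (Fin m) ℝ) :
    der M f = 0 ↔ ∀ (t : ℝ) (ν : Fin m → ℝ),
      eval ((NormedSpace.exp (t • M)).mulVec ν) f = eval ν f := by
  constructor
  · intro h t ν
    have h1 : ∀ t, HasDerivAt (fun t : ℝ => eval ((NormedSpace.exp (t • M)).mulVec ν) f) 0 t := by
      intro t
      have := hasDerivAt_eval M ν f t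
      rwa [h, map_zero] at this
    have := is_const_of_deriv_eq_zero (fun t => (h1 t).differentiableAt) (fun t => (h1 t).deriv) t 0
    simpa using this
  · intro h
    refine MvPolynomial.funext fun ν => ?_
    have h1 := hasDerivAt_eval M ν f 0
    have h2 : HasDerivAt (fun t : ℝ => eval ((NormedSpace.exp (t • M)).mulVec ν) f) 0 0 := by
      have : (fun t : ℝ => eval ((NormedSpace.exp (t • M)).mulVec ν) f) = fun _ => eval ν f := by
        funext t; exact h t ν
      rw [this]; exact hasDerivAt_const _ _
    have := h1.unique h2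
    simpa using this

theorem continuous_eval_units {m : ℕ} (ν : Fin m → ℝ) (f : MvPolynomial (Fin m) ℝ) :
    Continuous (fun g : (Mat m)ˣ => eval ((g : Mat m).mulVec ν) f) := by
  have h1 : Continuous (fun g : (Mat m)ˣ => ((g : Mat m).mulVec ν)) :=
    Continuous.matrix_mulVec Units.continuous_val continuous_const
  exact (MvPolynomial.continuous_eval f).comp h1

theorem real : S_real := by
  intro m F _ _ _ D G Γ hG hgen f hf
  -- elements with real spectrum
  have h1 : ∀ X, (∃ s : List ℝ, Polynomial.aeval (D X)
      (s.map fun a => Polynomial.X - Polynomial.C a).prod = 0) → der (D X) f = 0 := by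
    rintro X ⟨s, hs⟩
    rw [der_eq_zero_iff]
    intro t ν
    have hep : (fun t : ℝ => eval ((NormedSpace.exp (t • D X)).mulVec ν) f) ∈ EP :=
      ep_eval _ (ep_vec (D X) s ν (by rw [hs]; simp)) f
    obtain ⟨K, hK, -, hKG⟩ := hG.cocompact
    obtain ⟨C, hC⟩ := (hK.image (continuous_eval_units ν f)).isBounded.exists_norm_le
    have hb : ∀ t : ℝ, |eval ((NormedSpace.exp (t • D X)).mulVec ν) f| ≤ C := by
      intro t
      obtain ⟨g, hg, hge⟩ := hG.exp_mem (t • X)
      rw [map_smul] at hge
      obtain ⟨γ, hγ, hk⟩ := hKG g hg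
      have e : eval ((g : Mat m).mulVec ν) f =
          eval (((γ⁻¹ * g : (Mat m)ˣ) : Mat m).mulVec ν) f := by
        have := hf γ hγ (((γ⁻¹ * g : (Mat m)ˣ) : Mat m).mulVec ν)
        rw [Matrix.mulVec_mulVec, ← Units.val_mul, mul_inv_cancel_left] at this
        exact this
      rw [← hge, e]
      exact hC _ ⟨_, hk, rfl⟩
    obtain ⟨c, hc⟩ := EP_bounded hep C hb
    have h0 := hc 0
    simp only [zero_smul, NormedSpace.exp_zero, Matrix.one_mulVec] at h0
    rw [h0]
    exact hc t
  have h2 : ∀ X, der (D X) f = 0 := by
    let S : Submodule ℝ (Mat m) :=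
      { carrier := {M | der M f = 0}
        add_mem' := by
          intro M N hM hN
          show der (M + N) f = 0
          rw [der_add, Derivation.add_apply, show der M f = 0 from hM, show der N f = 0 from hN,
            add_zero]
        zero_mem' := by
          show der 0 f = 0
          have : der (0 : Mat m) = 0 := by
            have := der_smul (0 : ℝ) (0 : Mat m)
            simpa using this
          rw [this]; rfl
        smul_mem' := by
          intro c M hM
          show der (c • M) f = 0
          rw [der_smul, Derivation.smul_apply, show der M f = 0 from hM, smul_zero] }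
    refine hgen S ?_ h1
    intro M hM N hN
    show der (M * N - N * M) f = 0
    rw [der_bracket, Derivation.commutator_apply, show der M f = 0 from hM,
      show der N f = 0 from hN, map_zero, map_zero, sub_zero]
  intro g hg
  have hg' := hG.gen hg
  clear hg
  induction hg' using Subgroup.closure_induction with
  | mem g hgm =>
    obtain ⟨X, hX⟩ := hgm
    intro ν
    have := (der_eq_zero_iff (D X) f).1 (h2 X) 1 ν
    rw [one_smul, ← hX] at this
    exact this
  | one => intro ν; simp
  | mul g h hgc hhc ihg ihh =>
    intro ν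
    rw [Units.val_mul, ← Matrix.mulVec_mulVec, ihg, ihh]
  | inv g hgc ih =>
    intro ν
    rw [← ih (((g⁻¹ : (Mat m)ˣ) : Mat m).mulVec ν), Matrix.mulVec_mulVec, ← Units.val_mul,
      mul_inv_cancel]
    simp

end Pool.Agent.N696.LI.Real'
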