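import Pool.Agent.N696.LI.Co

/-! Project LI: Reeb vectors lie in `v`, the invariant polynomial, and the reduction of the main
theorem to the density of rational Reeb vectors. -/

set_option autoImplicit false
set_option linter.unusedSectionVars false

namespace Pool.Agent.N696.LI

open Topology MvPolynomial

variable {A : Type} [NormedRing A] [NormedAlgebra ℝ A] [FiniteDimensional ℝ A]
variable {m : ℕ} {𝔤 : Submodule ℝ A} {Γ : Subgroup Aˣ} {v : Submodule ℝ A} {b : Fin m → A}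
    {c : A →ₗ[ℝ] (Fin m → ℝ)}

theorem dot_DD (hc : Co Γ v b c) (hi : ∀ X ∈ 𝔤, ∀ x ∈ v, br X x ∈ v) (X : 𝔤) (β : A →ₗ[ℝ] ℝ)
    (x : Fin m → ℝ) :
    dotProduct ((DD 𝔤 b c X).mulVec (cov b β)) x = - β (br X (∑ i, x i • b i)) := by
  rw [DD_mulVec hc hi, ← adL_apply, map_sum, map_sum, dotProduct, ← Finset.sum_neg_distrib]
  refine Finset.sum_congr rfl fun i _ => ?_
  rw [map_smul, map_smul, adL_apply, smul_eq_mul]; ring

theorem dot_cov (β : A →ₗ[ℝ] ℝ) (x : Fin m → ℝ) :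
    dotProduct (cov b β) x = β (∑ i, x i • b i) := by
  rw [map_sum, dotProduct]
  refine Finset.sum_congr rfl fun i _ => ?_
  rw [map_smul, smul_eq_mul, mul_comm]; rfl

theorem sum_mem_v (hc : Co Γ v b c) (x : Fin m → ℝ) : ∑ i, x i • b i ∈ v :=
  Submodule.sum_mem _ fun i _ => v.smul_mem _ (hc.b_mem i)

/-- The map `X ↦ D X ν`. -/
noncomputable def Dnu {F : Type} [AddCommGroup F] [Module ℝ F] (D : F →ₗ[ℝ] Mat m)
    (ν : Fin m → ℝ) : F →ₗ[ℝ] (Fin m → ℝ) where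
  toFun X := (D X).mulVec ν
  map_add' X Y := by rw [map_add, Matrix.add_mulVec]
  map_smul' r X := by rw [map_smul, Matrix.smul_mulVec]; rfl

/-- All Reeb vectors lie in `v`. -/
theorem reeb_mem (hexpm : S_expm) (hnoop : S_noop) (hS : Setting 𝔤 Γ v) (hc : Co Γ v b c)
    (hv : ∀ g ∈ grp 𝔤, ∀ y ∈ v, cj g y ∈ v) (β : A →ₗ[ℝ] ℝ) (ξ : A) (h : IsContact 𝔤 β ξ) :
    ξ ∈ v := by
  by_contra hξ
  refine hnoop m 𝔤 (DD 𝔤 b c) (GG hc hv) (GammaM hc hv) (linGrp hexpm hS hc hv) hc.pos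
    (cov b β) ?_
  refine surj_of_dot (Dnu (DD 𝔤 b c) (cov b β)) fun x hx => ?_
  have h1 : ∀ X ∈ 𝔤, β (br (∑ i, x i • b i) X) = 0 := by
    intro X hX
    have h2 := hx ⟨X, hX⟩
    have h3 := dot_DD hc hS.v_ideal ⟨X, hX⟩ β x
    have h4 : - β (br X (∑ i, x i • b i)) = 0 := by rw [← h3]; exact h2
    rw [br_swap, map_neg]; exact h4
  obtain ⟨t, ht⟩ := h.uniq _ (hS.v_le (sum_mem_v hc x)) h1
  by_cases ht0 : t = 0
  · rw [ht0, zero_smul] at ht
    have := hc.c_sum x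
    rw [ht, map_zero] at this
    exact this.symm
  · exfalso
    apply hξ
    have : ξ = t⁻¹ • ∑ i, x i • b i := by rw [ht, smul_smul, inv_mul_cancel₀ ht0, one_smul]
    rw [this]
    exact v.smul_mem _ (sum_mem_v hc x)

theorem exists_linPoly (hexpm : S_expm) (hnoop : S_noop) (hpoly2 : S_poly2) (hS : Setting 𝔤 Γ v)
    (hc : Co Γ v b c) (hv : ∀ g ∈ grp 𝔤, ∀ y ∈ v, cj g y ∈ v) (α : A →ₗ[ℝ] ℝ) (ξ : A)
    (hα : IsContact 𝔤 α ξ) :
    ∃ (d : ℕ) (Q : MvPolynomial (Fin m) ℝ), LinPoly (DD 𝔤 b c) (GG hc hv) d Q ∧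
      ∀ β : A →ₗ[ℝ] ℝ, eval (cov b β) Q ≠ 0 ↔ ∃ ξ, IsContact 𝔤 β ξ := by
  have hli : LinearIndependent ℝ b := by
    rw [Fintype.linearIndependent_iff]
    intro x hx i
    have := hc.c_sum x
    rw [hx, map_zero] at this
    exact congrFun this.symm i
  have hspan : Submodule.span ℝ (Set.range b) = v := by
    apply le_antisymm
    · rw [Submodule.span_le]
      rintro _ ⟨i, rfl⟩
      exact hc.b_mem i
    · intro y hy
      rw [hc.sum_c y hy]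
      exact Submodule.sum_mem _ fun i _ =>
        Submodule.smul_mem _ _ (Submodule.subset_span ⟨i, rfl⟩)
  have hreeb : ∀ β ξ, IsContact 𝔤 β ξ → ξ ∈ v := reeb_mem hexpm hnoop hS hc hv
  obtain ⟨d, Q, hd, hom, hcon, hinv⟩ := hpoly2 A 𝔤 v hS.lie hS.v_le hreeb
    (cj_mem hexpm 𝔤 𝔤 hS.lie) (det_cj hexpm 𝔤 hS.lie hS.unimodular) m b hli hspan hc.pos
  refine ⟨d, Q, ⟨hd, hom, ?_, ?_, ?_⟩, hcon⟩
  · intro h0
    apply (hcon α).2 ⟨ξ, hα⟩
    rw [h0, map_zero]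
  · rintro _ ⟨g, rfl⟩ ν
    obtain ⟨β, rfl⟩ := exists_cov hc ν
    rw [rho_mulVec]
    exact hinv _ ((grp 𝔤).inv_mem g.2) β
  · intro ν hν y
    obtain ⟨β, rfl⟩ := exists_cov hc ν
    obtain ⟨η, hη⟩ := (hcon β).1 hν
    have hsurj := surj_of_dot
      ((Dnu (DD 𝔤 b c) (cov b β)).coprod (LinearMap.toSpanSingleton ℝ _ (cov b β))) (by
        intro x hx
        have h1 : ∀ X ∈ 𝔤, β (br (∑ i, x i • b i) X) = 0 := by
          intro X hX
          have h2 := hx (⟨X, hX⟩, 0)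
          have h3 := dot_DD hc hS.v_ideal ⟨X, hX⟩ β x
          have h4 : - β (br X (∑ i, x i • b i)) = 0 := by
            rw [← h3]
            have h5 : dotProduct (Dnu (DD 𝔤 b c) (cov b β) ⟨X, hX⟩) x = 0 := by simpa using h2
            exact h5
          rw [br_swap, map_neg]; exact h4
        obtain ⟨t, ht⟩ := hη.uniq _ (hS.v_le (sum_mem_v hc x)) h1
        have h2 := hx (0, 1)
        have h3 : dotProduct (cov b β) x = 0 := by simpa using h2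
        rw [dot_cov, ht, map_smul, hη.one, smul_eq_mul, mul_one] at h3
        rw [h3, zero_smul] at ht
        have := hc.c_sum x
        rw [ht, map_zero] at this
        exact this.symm)
    obtain ⟨⟨X, t⟩, hX⟩ := hsurj y
    refine ⟨X, t, ?_⟩
    rw [hX]
    rfl

/-- A rational vector has an integral multiple. -/
theorem exists_int_mul (x : Fin m → ℚ) : ∃ (N : ℕ) (z : Fin m → ℤ), 0 < N ∧
    ∀ i, (N : ℝ) * (x i : ℝ) = z i := by
  classical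
  refine ⟨∏ i, (x i).den, fun i => (x i).num * ∏ j ∈ Finset.univ.erase i, ((x j).den : ℤ), ?_, ?_⟩
  · exact Finset.prod_pos fun i _ => (x i).den_pos
  · intro i
    have h1 : (∏ j, (x j).den) = (x i).den * ∏ j ∈ Finset.univ.erase i, (x j).den :=
      (Finset.mul_prod_erase _ _ (Finset.mem_univ i)).symm
    have h2 : ((x i : ℚ) : ℝ) * (x i).den = (x i).num := by
      have := Rat.mul_den_eq_num (x i)
      exact_mod_cast this
    rw [h1]
    push_cast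
    rw [← h2]; ring

/-- The main theorem follows from the density of rational Reeb vectors. -/
theorem main_of_ratDense (hexpm : S_expm) (hS : Setting 𝔤 Γ v)
    (hc : Co Γ v b c) (hv : ∀ g ∈ grp 𝔤, ∀ y ∈ v, cj g y ∈ v) (α : A →ₗ[ℝ] ℝ) (ξ : A)
    (hα : IsContact 𝔤 α ξ) (d : ℕ) (Q : MvPolynomial (Fin m) ℝ)
    (hQ : LinPoly (DD 𝔤 b c) (GG hc hv) d Q)
    (hQ2 : ∀ β : A →ₗ[ℝ] ℝ, eval (cov b β) Q ≠ 0 ↔ ∃ ξ, IsContact 𝔤 β ξ)
    (hR : RatDense (DD 𝔤 b c) Q) :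
    ∀ g ∈ grp 𝔤, ∀ W ∈ 𝓝 g, ∃ g' ∈ grp 𝔤, g' ∈ W ∧ ∃ T : ℝ, 0 < T ∧ ∃ γ ∈ Γ,
      (g' : A) * NormedSpace.exp (T • ξ) = γ * g' := by
  intro g hg W hW
  have h𝔤 := cj_mem hexpm 𝔤 𝔤 hS.lie
  set ν : Fin m → ℝ := cov b (α ∘ₗ cjL (g⁻¹)) with hν
  have hν2 : eval ν Q ≠ 0 := by
    have h1 : ν = ((rho hc hv ⟨g, hg⟩ : (Mat m)ˣ) : Mat m).mulVec (cov b α) :=
      (rho_mulVec hc hv ⟨g, hg⟩ α).symm
    rw [h1, hQ.inv _ ⟨_, rfl⟩]
    exact (hQ2 α).2 ⟨ξ, hα⟩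
  have hU : {X : 𝔤 | expU (X : A) * g ∈ W} ∈ 𝓝 (0 : 𝔤) := by
    have hcont : Continuous (fun X : 𝔤 => expU (X : A) * g) :=
      (continuous_expU.comp continuous_subtype_val).mul continuous_const
    have h0 : expU ((0 : 𝔤) : A) * g = g := by
      have : expU ((0 : 𝔤) : A) = 1 := by
        ext
        show NormedSpace.exp (0 : A) = 1
        exact NormedSpace.exp_zero
      rw [this, one_mul]
    exact hcont.continuousAt.preimage_mem_nhds (by rw [h0]; exact hW)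
  obtain ⟨X, hX, x, hx1, hx2⟩ := hR ν hν2 _ hU
  set g' : Aˣ := expU (X : A) * g with hg'
  have hg'm : g' ∈ grp 𝔤 := (grp 𝔤).mul_mem (expU_mem X.2) hg
  refine ⟨g', hg'm, hX, ?_⟩
  have hν' : (NormedSpace.exp (DD 𝔤 b c X)).mulVec ν = cov b (α ∘ₗ cjL (g'⁻¹)) := by
    rw [← rho_exp hexpm hc hv hS.v_ideal X, hν, rho_mulVec]
    congr 1
    refine LinearMap.ext fun y => ?_
    simp only [LinearMap.comp_apply, cjL_apply, hg', mul_inv_rev, cj_mul]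
  rw [hν'] at hx1 hx2
  set y : A := ∑ i, (x i : ℝ) • b i with hy
  have hyv : y ∈ v := sum_mem_v hc _
  have hz : cj (g'⁻¹) y ∈ v := hv _ ((grp 𝔤).inv_mem hg'm) _ hyv
  have hpos : 0 < α (cj (g'⁻¹) y) := by
    rw [dot_cov] at hx1
    exact hx1
  have hrad : ∀ Y ∈ 𝔤, α (br (cj (g'⁻¹) y) Y) = 0 := by
    intro Y hY
    have h1 := hx2 ⟨cj g' Y, h𝔤 g' hg'm Y hY⟩
    rw [dot_DD hc hS.v_ideal] at h1
    simp only [LinearMap.comp_apply, cjL_apply] at h1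
    rw [cj_br, cj_inv_cj] at h1
    rw [br_swap, map_neg]
    exact h1
  obtain ⟨t, ht⟩ := hα.uniq _ (hS.v_le hz) hrad
  have htpos : 0 < t := by
    rw [ht, map_smul, hα.one, smul_eq_mul, mul_one] at hpos
    exact hpos
  obtain ⟨N, z, hN, hz2⟩ := exists_int_mul x
  have hNy : (N : ℝ) • y = ∑ i, (z i : ℝ) • b i := by
    rw [hy, Finset.smul_sum]
    refine Finset.sum_congr rfl fun i _ => ?_
    rw [smul_smul, hz2]
  obtain ⟨γ, hγ, hγe⟩ := (hc.exp_iff _ (v.smul_mem (N : ℝ) hyv)).2 ⟨z, hNy⟩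
  refine ⟨N * t, mul_pos (by exact_mod_cast hN) htpos, γ, hγ, ?_⟩
  have h5 : (N * t) • ξ = cj (g'⁻¹) ((N : ℝ) • y) := by
    rw [cj_smul, ht, smul_smul]
  rw [h5, exp_cj, hγe]
  simp [cj, mul_assoc]

end Pool.Agent.N696.LI
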