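import Pool.Agent.N696.LI.Cases

/-! Project LI: the self-adjoint case. -/

set_option autoImplicit false
set_option linter.unusedSectionVars false

namespace Pool.Agent.N696.LI

open Topology MvPolynomial

variable {A : Type} [NormedRing A] [NormedAlgebra ℝ A] [FiniteDimensional ℝ A]
variable {m : ℕ} {𝔤 : Submodule ℝ A} {Γ : Subgroup Aˣ} {v : Submodule ℝ A} {b : Fin m → A}
    {c : A →ₗ[ℝ] (Fin m → ℝ)}

/-- The Gram matrix. -/
noncomputable def gram (b : Fin m → A) (B : A →ₗ[ℝ] A →ₗ[ℝ] ℝ) : Mat m :=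
  Matrix.of fun i j => B (b i) (b j)

theorem gram_form (b : Fin m → A) (B : A →ₗ[ℝ] A →ₗ[ℝ] ℝ) (x y : Fin m → ℝ) :
    B (∑ i, x i • b i) (∑ j, y j • b j) = dotProduct x ((gram b B).mulVec y) := by
  have h0 : B (∑ i, x i • b i) = ∑ i, x i • B (b i) := by
    rw [map_sum]
    exact Finset.sum_congr rfl fun i _ => map_smul _ _ _
  rw [h0, LinearMap.sum_apply]
  simp only [dotProduct, Matrix.mulVec, gram, Matrix.of_apply]
  refine Finset.sum_congr rfl fun i _ => ?_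
  rw [LinearMap.smul_apply, map_sum, smul_eq_mul]
  congr 1
  refine Finset.sum_congr rfl fun j _ => ?_
  rw [map_smul, smul_eq_mul, mul_comm]

theorem gram_posDef (hc : Co Γ v b c) (B : A →ₗ[ℝ] A →ₗ[ℝ] ℝ)
    (hsym : ∀ x ∈ v, ∀ y ∈ v, B x y = B y x) (hpos : ∀ x ∈ v, x ≠ 0 → 0 < B x x) :
    (gram b B).PosDef := by
  refine Matrix.PosDef.of_dotProduct_mulVec_pos ?_ ?_
  · ext i j
    simp only [Matrix.conjTranspose_apply, gram, Matrix.of_apply, star_trivial]
    exact hsym _ (hc.b_mem j) _ (hc.b_mem i)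
  · intro x hx
    rw [star_trivial, ← gram_form]
    refine hpos _ (sum_mem_v hc x) fun h0 => hx ?_
    have := hc.c_sum x
    rw [h0, map_zero] at this
    exact this.symm

/-- The linear map with a given matrix. -/
noncomputable def mapOf (b : Fin m → A) (c : A →ₗ[ℝ] (Fin m → ℝ)) (T : Mat m) : A →ₗ[ℝ] A :=
  (Fintype.linearCombination ℝ b) ∘ₗ (T.mulVecLin) ∘ₗ c

theorem mapOf_apply (T : Mat m) (y : A) : mapOf b c T y = ∑ i, (T.mulVec (c y)) i • b i := rfl

theorem case_a' (hhess : S_hess) (hminv : S_minv) (hexpm : S_expm) (hS : Setting 𝔤 Γ v)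
    (hc : Co Γ v b c) (hv : ∀ g ∈ grp 𝔤, ∀ y ∈ v, cj g y ∈ v) (d : ℕ)
    (Q : MvPolynomial (Fin m) ℝ) (hQ : LinPoly (DD 𝔤 b c) (GG hc hv) d Q)
    (B : A →ₗ[ℝ] A →ₗ[ℝ] ℝ)
    (hsym : ∀ x ∈ v, ∀ y ∈ v, B x y = B y x) (hpos : ∀ x ∈ v, x ≠ 0 → 0 < B x x)
    (hB : ∀ f : MvPolynomial v ℝ, (∀ g ∈ grp 𝔤, Inv v (cj g) f) → ∀ g ∈ grp 𝔤, ∀ T : A →ₗ[ℝ] A,
        (∀ x ∈ v, T x ∈ v) → (∀ x ∈ v, ∀ y ∈ v, B (cj g x) y = B x (T y)) → Inv v T f) :
    ∀ ν, eval ν Q ≠ 0 → DCond (DD 𝔤 b c) ν := by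
  classical
  have hL := linGrp hexpm hS hc hv
  set S0 : Mat m := gram b B with hS0
  have hP : S0.PosDef := gram_posDef hc B hsym hpos
  have hPi : (S0⁻¹).PosDef := hP.inv
  have hdet : IsUnit S0.det := (Matrix.isUnit_iff_isUnit_det _).1 hP.isUnit
  have hsymm : S0.transpose = S0 := by
    have := hP.isHermitian
    rw [Matrix.IsHermitian, Matrix.conjTranspose_eq_transpose_of_trivial] at this
    exact this
  have hQinv : ∀ g ∈ grp 𝔤, Inv v (cj g) (rename (iota hc) Q) := by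
    intro g hg
    have := (inv_rho hc hv ⟨g⁻¹, (grp 𝔤).inv_mem hg⟩ Q).2 (hQ.inv _ ⟨_, rfl⟩)
    simpa using this
  have key : ∀ g ∈ GG hc hv, ∀ ν,
      eval (((S0⁻¹)⁻¹ * (g : Mat m).transpose * S0⁻¹).mulVec ν) Q = eval ν Q := by
    rintro _ ⟨g, rfl⟩ ν
    set R : Mat m := ((rho hc hv g : (Mat m)ˣ) : Mat m) with hR
    rw [Matrix.nonsing_inv_nonsing_inv _ hdet]
    set T : Mat m := S0⁻¹ * R * S0 with hT
    have hTm : ∀ x ∈ v, mapOf b c T x ∈ v := fun x _ => by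
      rw [mapOf_apply]; exact sum_mem_v hc _
    have hgi := (grp 𝔤).inv_mem g.2
    have hadj : ∀ x ∈ v, ∀ y ∈ v, B (cj ((g : Aˣ)⁻¹) x) y = B x (mapOf b c T y) := by
      intro x hx y hy
      have hcx : cj ((g : Aˣ)⁻¹) x = ∑ i, (R.transpose.mulVec (c x)) i • b i := by
        conv_lhs => rw [hc.sum_c x hx, ← cjL_apply, map_sum]
        have : ∀ j, cjL ((g : Aˣ)⁻¹) (c x j • b j) = ∑ i, (c x j * R j i) • b i := by
          intro j
          rw [map_smul, cjL_apply, hc.sum_c _ (hv _ hgi _ (hc.b_mem j)), Finset.smul_sum]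
          refine Finset.sum_congr rfl fun i _ => ?_
          rw [smul_smul]
          rfl
        simp_rw [this]
        rw [Finset.sum_comm]
        refine Finset.sum_congr rfl fun i _ => ?_
        rw [← Finset.sum_smul]
        congr 1
        simp only [Matrix.mulVec, dotProduct, Matrix.transpose_apply]
        exact Finset.sum_congr rfl fun j _ => mul_comm _ _
      rw [hcx, mapOf_apply]
      conv_lhs => rw [hc.sum_c y hy]
      conv_rhs => rw [hc.sum_c x hx]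
      rw [gram_form, gram_form, Matrix.mulVec_mulVec]
      have h1 : S0 * T = R * S0 := by
        rw [hT, ← mul_assoc, ← mul_assoc, Matrix.mul_nonsing_inv _ hdet, one_mul]
      rw [← hS0, h1, ← Matrix.mulVec_mulVec, Matrix.dotProduct_mulVec (c x),
        ← Matrix.mulVec_transpose]
    have h2 := hB _ hQinv _ hgi (mapOf b c T) hTm hadj
    rw [inv_rename] at h2
    obtain ⟨β, rfl⟩ := exists_cov hc ν
    rw [← h2 β]
    congr 1
    have h3 : S0 * R.transpose * S0⁻¹ = T.transpose := by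
      rw [hT, Matrix.transpose_mul, Matrix.transpose_mul, hsymm, Matrix.transpose_nonsing_inv,
        hsymm, mul_assoc]
    rw [h3]
    congr 1
    funext j
    have hcj : c (b j) = Pi.single j 1 := by
      have := hc.c_sum (Pi.single j 1)
      rw [← this]
      congr 1
      simp [Pi.single_apply]
    rw [mapOf_apply, hcj, map_sum]
    simp [Matrix.mulVec, dotProduct, cov, mul_comm, Pi.single_apply]
  intro ν hν
  obtain ⟨g, hg, hreeb⟩ := hminv m 𝔤 (DD 𝔤 b c) (GG hc hv) (GammaM hc hv) d Q hL hQ (S0⁻¹) hPi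
    ν hν
  refine dCond_conj hL g hg ν ?_
  refine hhess m 𝔤 (DD 𝔤 b c) (GG hc hv) d Q hQ hL.exp_mem (S0⁻¹) hPi key _ ?_ hreeb
  rw [hQ.inv g hg]
  exact hν

end Pool.Agent.N696.LI
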