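import Mathlib

/-! Project LI: closed Reeb orbits of left-invariant contact forms.  Definitions and the exact
statements of the independent parts. -/

set_option autoImplicit false

namespace Pool.Agent.N696.LI

open Topology MvPolynomial

/-! ### Part I: linear Lie groups -/

section Alg

variable {A : Type} [NormedRing A] [NormedAlgebra ℝ A]

/-- The commutator. -/
def br (X Y : A) : A := X * Y - Y * X

/-- Conjugation by a unit. -/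
def cj (g : Aˣ) (x : A) : A := (g : A) * x * ((g⁻¹ : Aˣ) : A)

/-- The connected linear Lie group with Lie algebra `𝔤`: it is generated by the exponentials of
the elements of `𝔤`. -/
def grp (𝔤 : Submodule ℝ A) : Subgroup Aˣ :=
  Subgroup.closure {g | ∃ X ∈ 𝔤, (g : A) = NormedSpace.exp X}

/-- The linear form `α` on the Lie algebra `𝔤` (only the values on `𝔤` matter) is a contact form
with Reeb vector `ξ`. -/
structure IsContact (𝔤 : Submodule ℝ A) (α : A →ₗ[ℝ] ℝ) (ξ : A) : Prop where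
  mem : ξ ∈ 𝔤
  one : α ξ = 1
  rad : ∀ Y ∈ 𝔤, α (br ξ Y) = 0
  uniq : ∀ X ∈ 𝔤, (∀ Y ∈ 𝔤, α (br X Y) = 0) → ∃ c : ℝ, X = c • ξ

/-- A unimodular linear Lie algebra `𝔤`, a discrete cocompact subgroup `Γ` of its group, and an
abelian ideal `v` of `𝔤` which meets `Γ` in a lattice. -/
structure Setting (𝔤 : Submodule ℝ A) (Γ : Subgroup Aˣ) (v : Submodule ℝ A) : Prop where
  lie : ∀ X ∈ 𝔤, ∀ Y ∈ 𝔤, br X Y ∈ 𝔤
  unimodular : ∀ X ∈ 𝔤, ∀ T : 𝔤 →ₗ[ℝ] 𝔤, (∀ Y, (T Y : A) = br X Y) → LinearMap.trace ℝ 𝔤 T = 0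
  le : Γ ≤ grp 𝔤
  discrete : DiscreteTopology Γ
  cocompact : ∃ K : Set Aˣ, IsCompact K ∧ K ⊆ grp 𝔤 ∧ ∀ g ∈ grp 𝔤, ∃ γ ∈ Γ, γ⁻¹ * g ∈ K
  v_le : v ≤ 𝔤
  v_ne : v ≠ ⊥
  v_comm : ∀ x ∈ v, ∀ y ∈ v, x * y = y * x
  v_ideal : ∀ X ∈ 𝔤, ∀ x ∈ v, br X x ∈ v
  v_lattice : v ≤ Submodule.span ℝ {x | x ∈ v ∧ ∃ γ ∈ Γ, (γ : A) = NormedSpace.exp x}

/-- The operator `ad X` on the algebra. -/
noncomputable def adL (X : A) : Module.End ℝ A := LinearMap.mulLeft ℝ X - LinearMap.mulRight ℝ X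

/-- `ad X` has real spectrum on `v`. -/
def RealOn (v : Submodule ℝ A) (X : A) : Prop :=
  ∃ s : List ℝ, ∀ x ∈ v, Polynomial.aeval (adL X) (s.map fun a => Polynomial.X - Polynomial.C a).prod x = 0

/-- The polynomial function `f` on the dual space of `v` (the variables are the elements of `v`)
is invariant under the map `ν ↦ ν ∘ T`; here `T` is a linear map of `A` which preserves `v`. -/
def Inv (v : Submodule ℝ A) (T : A → A) (f : MvPolynomial v ℝ) : Prop :=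
  ∀ ν : A →ₗ[ℝ] ℝ, eval (fun x : v => ν (T x)) f = eval (fun x : v => ν x) f

end Alg

/-! ### Part II: linear algebra -/

abbrev Mat (m : ℕ) := Matrix (Fin m) (Fin m) ℝ

section Lin

variable {m : ℕ} {F : Type} [NormedAddCommGroup F] [NormedSpace ℝ F]

/-- A connected group `G` of matrices with Lie algebra the range of `D`, and a cocompact subgroup
`Γ` of integral matrices. -/
structure LinGrp (D : F →ₗ[ℝ] Mat m) (G Γ : Subgroup (Mat m)ˣ) : Prop where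
  lie : ∀ X Y, ∃ Z, D Z = D X * D Y - D Y * D X
  exp_mem : ∀ X, ∃ g ∈ G, (g : Mat m) = NormedSpace.exp (D X)
  gen : G ≤ Subgroup.closure {g : (Mat m)ˣ | ∃ X, (g : Mat m) = NormedSpace.exp (D X)}
  conj : ∀ g ∈ G, ∀ X, ∃ Y, D Y = (g : Mat m) * D X * ((g⁻¹ : (Mat m)ˣ) : Mat m)
  le : Γ ≤ G
  int : ∀ γ ∈ Γ, ∀ i j, ∃ z : ℤ, (γ : Mat m) i j = z
  cocompact : ∃ K : Set (Mat m)ˣ, IsCompact K ∧ K ⊆ G ∧ ∀ g ∈ G, ∃ γ ∈ Γ, γ⁻¹ * g ∈ K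

/-- An invariant homogeneous polynomial of degree `d`, such that at every point where it does not
vanish the tangent space of the orbit and the point span the whole space. -/
structure LinPoly (D : F →ₗ[ℝ] Mat m) (G : Subgroup (Mat m)ˣ) (d : ℕ)
    (Q : MvPolynomial (Fin m) ℝ) : Prop where
  hd : 2 ≤ d
  hom : Q.IsHomogeneous d
  ne : Q ≠ 0
  inv : ∀ g ∈ G, ∀ ν, eval ((g : Mat m).mulVec ν) Q = eval ν Q
  good : ∀ ν, eval ν Q ≠ 0 → ∀ y, ∃ X, ∃ c : ℝ, y = (D X).mulVec ν + c • ν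

/-- `x` is (a multiple of) the Reeb vector of the covector `ν`. -/
def Reeb (D : F →ₗ[ℝ] Mat m) (ν x : Fin m → ℝ) : Prop := ∀ X, dotProduct ((D X).mulVec ν) x = 0

/-- The orbit of the Reeb vector is open up to scaling. -/
def DCond (D : F →ₗ[ℝ] Mat m) (ν : Fin m → ℝ) : Prop :=
  ∀ x, Reeb D ν x → dotProduct ν x ≠ 0 → ∀ y, ∃ X, ∃ c : ℝ, y = (D X).transpose.mulVec x + c • x

/-- Near every covector `ν` with `Q ν ≠ 0` there are covectors in the orbit with rational Reeb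
vectors. -/
def RatDense (D : F →ₗ[ℝ] Mat m) (Q : MvPolynomial (Fin m) ℝ) : Prop :=
  ∀ ν, eval ν Q ≠ 0 → ∀ U ∈ 𝓝 (0 : F), ∃ X ∈ U, ∃ x : Fin m → ℚ,
    0 < dotProduct ((NormedSpace.exp (D X)).mulVec ν) (fun i => (x i : ℝ)) ∧
    Reeb D ((NormedSpace.exp (D X)).mulVec ν) (fun i => (x i : ℝ))

end Lin

/-! ### The statements of the parts -/

/-- EXPM: if `b` spans a subspace stable under `ad X` and `M` is the matrix of `ad X`, then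
`exp M` is the matrix of the conjugation by `exp X`. -/
def S_expm : Prop := ∀ (A : Type) [NormedRing A] [NormedAlgebra ℝ A] [FiniteDimensional ℝ A]
  (k : ℕ) (b : Fin k → A) (X : A) (M : Mat k), (∀ j, br X (b j) = ∑ i, M i j • b i) →
    ∀ g : Aˣ, (g : A) = NormedSpace.exp X → ∀ j, cj g (b j) = ∑ i, (NormedSpace.exp M) i j • b i

/-- LAT: the elements of `v` with exponential in `Γ` are the integral combinations of a basis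
of `v`. -/
def S_lat : Prop := ∀ (A : Type) [NormedRing A] [NormedAlgebra ℝ A] [FiniteDimensional ℝ A]
  (Γ : Subgroup Aˣ) (v : Submodule ℝ A), DiscreteTopology Γ →
    (∀ x ∈ v, ∀ y ∈ v, x * y = y * x) →
    v ≤ Submodule.span ℝ {x | x ∈ v ∧ ∃ γ ∈ Γ, (γ : A) = NormedSpace.exp x} →
    ∃ (m : ℕ) (b : Fin m → A), LinearIndependent ℝ b ∧ Submodule.span ℝ (Set.range b) = v ∧
      ∀ x ∈ v, ((∃ γ ∈ Γ, (γ : A) = NormedSpace.exp x) ↔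
        ∃ z : Fin m → ℤ, x = ∑ i, (z i : ℝ) • b i)

/-- NOOP: there is no open orbit. -/
def S_noop : Prop := ∀ (m : ℕ) (F : Type) [NormedAddCommGroup F] [NormedSpace ℝ F]
  [FiniteDimensional ℝ F] (D : F →ₗ[ℝ] Mat m) (G Γ : Subgroup (Mat m)ˣ), LinGrp D G Γ → 0 < m →
    ∀ ν : Fin m → ℝ, ¬ ∀ y, ∃ X, y = (D X).mulVec ν

/-- OPEN: the orbit map is open at `0` if its derivative is surjective. -/
def S_open : Prop := ∀ (m : ℕ) (F : Type) [NormedAddCommGroup F] [NormedSpace ℝ F]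
  [FiniteDimensional ℝ F] (D : F →ₗ[ℝ] Mat m) (e : Fin m → ℝ), (∀ y, ∃ X, y = (D X).mulVec e) →
    ∀ U ∈ 𝓝 (0 : F), {y | ∃ X ∈ U, y = (NormedSpace.exp (D X)).mulVec e} ∈ 𝓝 e

/-- POLY1: the bordered determinant. -/
def S_poly1 : Prop := ∀ (A : Type) [NormedRing A] [NormedAlgebra ℝ A] [FiniteDimensional ℝ A]
  (𝔤 : Submodule ℝ A), (∀ X ∈ 𝔤, ∀ Y ∈ 𝔤, br X Y ∈ 𝔤) →
  ∀ (n : ℕ) (e : Module.Basis (Fin n) ℝ 𝔤), ∃ P : MvPolynomial (Fin n) ℝ,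
    P.IsHomogeneous (n + 1) ∧
    (∀ β : A →ₗ[ℝ] ℝ, eval (fun i => β (e i)) P ≠ 0 ↔ ∃ ξ, IsContact 𝔤 β ξ) ∧
    ∀ T : 𝔤 →ₗ[ℝ] 𝔤, (∀ X Y Z : 𝔤, (Z : A) = br (X : A) Y → (T Z : A) = br (T X : A) (T Y)) →
      LinearMap.det T = 1 → ∀ β : A →ₗ[ℝ] ℝ,
      eval (fun i => β (T (e i))) P = eval (fun i => β (e i)) P

/-- POLY2: if all Reeb vectors lie in `v`, then the bordered determinant depends only on the
restriction to `v`. -/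
def S_poly2 : Prop := ∀ (A : Type) [NormedRing A] [NormedAlgebra ℝ A] [FiniteDimensional ℝ A]
  (𝔤 v : Submodule ℝ A), (∀ X ∈ 𝔤, ∀ Y ∈ 𝔤, br X Y ∈ 𝔤) → v ≤ 𝔤 →
  (∀ β ξ, IsContact 𝔤 β ξ → ξ ∈ v) →
  (∀ g ∈ grp 𝔤, ∀ Y ∈ 𝔤, cj g Y ∈ 𝔤) →
  (∀ g ∈ grp 𝔤, ∀ C : 𝔤 →ₗ[ℝ] 𝔤, (∀ Y, (C Y : A) = cj g Y) → LinearMap.det C = 1) →
  ∀ (m : ℕ) (b : Fin m → A), LinearIndependent ℝ b → Submodule.span ℝ (Set.range b) = v → 0 < m →
  ∃ (d : ℕ) (Q : MvPolynomial (Fin m) ℝ), 2 ≤ d ∧ Q.IsHomogeneous d ∧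
    (∀ β : A →ₗ[ℝ] ℝ, eval (fun i => β (b i)) Q ≠ 0 ↔ ∃ ξ, IsContact 𝔤 β ξ) ∧
    ∀ g ∈ grp 𝔤, ∀ β : A →ₗ[ℝ] ℝ, eval (fun i => β (cj g (b i))) Q = eval (fun i => β (b i)) Q

/-- NIL: a matrix all whose powers have trace zero is nilpotent. -/
def S_nil : Prop := ∀ (m : ℕ) (M : Mat m), (∀ k : ℕ, 1 ≤ k → (M ^ k).trace = 0) → IsNilpotent M

/-- KER: the real solutions of a rational linear system are spanned by the rational ones. -/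
def S_ker : Prop := ∀ (k l : ℕ) (M : Matrix (Fin k) (Fin l) ℚ) (x : Fin l → ℝ),
  (M.map (fun q : ℚ => (q : ℝ))).mulVec x = 0 →
    x ∈ Submodule.span ℝ {y : Fin l → ℝ | ∃ z : Fin l → ℚ, M.mulVec z = 0 ∧ y = fun i => (z i : ℝ)}

/-- TRF: the trace form is nondegenerate. -/
def S_trf : Prop := ∀ (m : ℕ) (F : Type) [NormedAddCommGroup F] [NormedSpace ℝ F]
  [FiniteDimensional ℝ F] (D : F →ₗ[ℝ] Mat m) (G Γ : Subgroup (Mat m)ˣ), LinGrp D G Γ →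
  (∀ X Y, D X * D Y = D Y * D X) →
  (∀ M : Mat m, (∀ i j, ∃ q : ℚ, M i j = q) → (∀ X, M * D X = D X * M) → IsNilpotent M → M = 0) →
  ∀ M ∈ Submodule.span ℝ {M : Mat m | ∃ γ ∈ Γ, M = (γ : Mat m)},
    (∀ γ ∈ Γ, (M * (γ : Mat m)).trace = 0) → M = 0

/-- BDD: nilpotent elements vanish. -/
def S_bdd : Prop := ∀ (m : ℕ) (F : Type) [NormedAddCommGroup F] [NormedSpace ℝ F]
  [FiniteDimensional ℝ F] (D : F →ₗ[ℝ] Mat m) (G Γ : Subgroup (Mat m)ˣ), LinGrp D G Γ →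
  (∀ X Y, D X * D Y = D Y * D X) →
  (∀ M ∈ Submodule.span ℝ {M : Mat m | ∃ γ ∈ Γ, M = (γ : Mat m)},
    (∀ γ ∈ Γ, (M * (γ : Mat m)).trace = 0) → M = 0) →
  ∀ X, IsNilpotent (D X) → D X = 0

/-- ALG: the orbit of the Reeb vector is open in the commutative case. -/
def S_alg : Prop := ∀ (m : ℕ) (F : Type) [NormedAddCommGroup F] [NormedSpace ℝ F]
  [FiniteDimensional ℝ F] (D : F →ₗ[ℝ] Mat m) (G : Subgroup (Mat m)ˣ) (d : ℕ)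
  (Q : MvPolynomial (Fin m) ℝ), LinPoly D G d Q →
  (∀ X, ∃ g ∈ G, (g : Mat m) = NormedSpace.exp (D X)) →
  (∀ X Y, D X * D Y = D Y * D X) → (∀ X, IsNilpotent (D X) → D X = 0) →
  ∀ ν, eval ν Q ≠ 0 → DCond D ν

/-- MINV: in every orbit with `Q ≠ 0` the form `S⁻¹` has a minimal point, at which `S⁻¹ ν` is a
multiple of the Reeb vector. -/
def S_minv : Prop := ∀ (m : ℕ) (F : Type) [NormedAddCommGroup F] [NormedSpace ℝ F]
  [FiniteDimensional ℝ F] (D : F →ₗ[ℝ] Mat m) (G Γ : Subgroup (Mat m)ˣ) (d : ℕ)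
  (Q : MvPolynomial (Fin m) ℝ), LinGrp D G Γ → LinPoly D G d Q →
  ∀ S : Mat m, S.PosDef → ∀ ν, eval ν Q ≠ 0 →
    ∃ g ∈ G, Reeb D ((g : Mat m).mulVec ν) (S.mulVec ((g : Mat m).mulVec ν))

/-- HESS: the Hessian argument at a minimal point. -/
def S_hess : Prop := ∀ (m : ℕ) (F : Type) [NormedAddCommGroup F] [NormedSpace ℝ F]
  [FiniteDimensional ℝ F] (D : F →ₗ[ℝ] Mat m) (G : Subgroup (Mat m)ˣ) (d : ℕ)
  (Q : MvPolynomial (Fin m) ℝ), LinPoly D G d Q →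
  (∀ X, ∃ g ∈ G, (g : Mat m) = NormedSpace.exp (D X)) →
  ∀ S : Mat m, S.PosDef →
  (∀ g ∈ G, ∀ ν, eval ((S⁻¹ * (g : Mat m).transpose * S).mulVec ν) Q = eval ν Q) →
  ∀ ν, eval ν Q ≠ 0 → Reeb D ν (S.mulVec ν) → DCond D ν

/-- DC: if the orbits of the Reeb vectors are open up to scaling, then rational Reeb vectors are
dense. -/
def S_dc : Prop := ∀ (m : ℕ) (F : Type) [NormedAddCommGroup F] [NormedSpace ℝ F]
  [FiniteDimensional ℝ F] (D : F →ₗ[ℝ] Mat m) (G Γ : Subgroup (Mat m)ˣ) (d : ℕ)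
  (Q : MvPolynomial (Fin m) ℝ), LinGrp D G Γ → LinPoly D G d Q →
  (∀ ν, eval ν Q ≠ 0 → DCond D ν) → RatDense D Q

/-- RAT: the rational part of an invariant polynomial. -/
def S_rat : Prop := ∀ (m d : ℕ) (Γ : Subgroup (Mat m)ˣ) (Q : MvPolynomial (Fin m) ℝ),
  (∀ γ ∈ Γ, ∀ i j, ∃ z : ℤ, (γ : Mat m) i j = z) → Q ≠ 0 → Q.IsHomogeneous d →
  (∀ γ ∈ Γ, ∀ ν, eval ((γ : Mat m).mulVec ν) Q = eval ν Q) →
  ∃ q : MvPolynomial (Fin m) ℚ, q ≠ 0 ∧ q.IsHomogeneous d ∧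
    ∀ γ ∈ Γ, ∀ ν, eval ((γ : Mat m).mulVec ν) (MvPolynomial.map (algebraMap ℚ ℝ) q) =
      eval ν (MvPolynomial.map (algebraMap ℚ ℝ) q)

/-- REAL: if the Lie algebra is generated by elements with real spectrum, then all polynomials
invariant under `Γ` are invariant under `G`. -/
def S_real : Prop := ∀ (m : ℕ) (F : Type) [NormedAddCommGroup F] [NormedSpace ℝ F]
  [FiniteDimensional ℝ F] (D : F →ₗ[ℝ] Mat m) (G Γ : Subgroup (Mat m)ˣ), LinGrp D G Γ →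
  (∀ S : Submodule ℝ (Mat m), (∀ M ∈ S, ∀ N ∈ S, M * N - N * M ∈ S) →
    (∀ X, (∃ s : List ℝ, Polynomial.aeval (D X) (s.map fun a => Polynomial.X - Polynomial.C a).prod = 0) →
      D X ∈ S) → ∀ X, D X ∈ S) →
  ∀ f : MvPolynomial (Fin m) ℝ, (∀ γ ∈ Γ, ∀ ν, eval ((γ : Mat m).mulVec ν) f = eval ν f) →
    ∀ g ∈ G, ∀ ν, eval ((g : Mat m).mulVec ν) f = eval ν f

/-- RC: if all polynomials invariant under `Γ` are invariant under `G`, then rational Reeb vectors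
are dense. -/
def S_rc : Prop := ∀ (m : ℕ) (F : Type) [NormedAddCommGroup F] [NormedSpace ℝ F]
  [FiniteDimensional ℝ F] (D : F →ₗ[ℝ] Mat m) (G Γ : Subgroup (Mat m)ˣ) (d : ℕ)
  (Q : MvPolynomial (Fin m) ℝ), LinGrp D G Γ → LinPoly D G d Q →
  (∀ f : MvPolynomial (Fin m) ℝ, (∀ γ ∈ Γ, ∀ ν, eval ((γ : Mat m).mulVec ν) f = eval ν f) →
    ∀ g ∈ G, ∀ ν, eval ((g : Mat m).mulVec ν) f = eval ν f) → RatDense D Q

/-- The main theorem. -/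
def S_main : Prop := ∀ (A : Type) [NormedRing A] [NormedAlgebra ℝ A] [FiniteDimensional ℝ A]
  (𝔤 : Submodule ℝ A) (Γ : Subgroup Aˣ) (v : Submodule ℝ A), Setting 𝔤 Γ v →
  ∀ (α : A →ₗ[ℝ] ℝ) (ξ : A), IsContact 𝔤 α ξ →
  ((∀ X ∈ 𝔤, ∀ Y ∈ 𝔤, ∀ x ∈ v, br (br X Y) x = 0) ∨
   (∃ B : A →ₗ[ℝ] A →ₗ[ℝ] ℝ, (∀ x ∈ v, ∀ y ∈ v, B x y = B y x) ∧ (∀ x ∈ v, x ≠ 0 → 0 < B x x) ∧
      ∀ f : MvPolynomial v ℝ, (∀ g ∈ grp 𝔤, Inv v (cj g) f) → ∀ g ∈ grp 𝔤, ∀ T : A →ₗ[ℝ] A,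
        (∀ x ∈ v, T x ∈ v) → (∀ x ∈ v, ∀ y ∈ v, B (cj g x) y = B x (T y)) → Inv v T f) ∨
   (∀ S : Submodule ℝ A, (∀ X ∈ S, ∀ Y ∈ S, br X Y ∈ S) → (∀ X ∈ 𝔤, RealOn v X → X ∈ S) →
      𝔤 ≤ S) ∨
   (∀ f : MvPolynomial v ℝ, (∀ γ ∈ Γ, Inv v (cj γ) f) → ∀ g ∈ grp 𝔤, Inv v (cj g) f)) →
  ∀ g ∈ grp 𝔤, ∀ W ∈ 𝓝 g, ∃ g' ∈ grp 𝔤, g' ∈ W ∧ ∃ T : ℝ, 0 < T ∧ ∃ γ ∈ Γ,
    (g' : A) * NormedSpace.exp (T • ξ) = γ * g'

end Pool.Agent.N696.LI
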